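import Pool.Agent.Helper55.TM.Defs

/-!
# MP_fc8395_an : basic algebra of the trace maps
-/

set_option autoImplicit false

open scoped ContDiff

namespace TM

/-! ### the surface is invariant -/

lemma FV_U (p : Pt) : FV (U p) = FV p := by
  unfold FV U; ring

lemma FV_P (p : Pt) : FV (P p) = FV p := by
  unfold FV P; ring

lemma FV_sg (p : Pt) : FV (sg p) = FV p := by
  unfold FV sg; ring

lemma FV_Uinv (p : Pt) : FV (Uinv p) = FV p := by
  unfold FV Uinv; ring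

lemma U_mem {e : ℝ} {p : Pt} (h : p ∈ Surf e) : U p ∈ Surf e := by
  have : FV p = 1 + e ^ 2 := h
  show FV (U p) = 1 + e ^ 2
  rw [FV_U, this]

lemma P_mem {e : ℝ} {p : Pt} (h : p ∈ Surf e) : P p ∈ Surf e := by
  have : FV p = 1 + e ^ 2 := h
  show FV (P p) = 1 + e ^ 2
  rw [FV_P, this]

lemma sg_mem {e : ℝ} {p : Pt} (h : p ∈ Surf e) : sg p ∈ Surf e := by
  have : FV p = 1 + e ^ 2 := h
  show FV (sg p) = 1 + e ^ 2
  rw [FV_sg, this]

lemma Uinv_mem {e : ℝ} {p : Pt} (h : p ∈ Surf e) : Uinv p ∈ Surf e := by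
  have : FV p = 1 + e ^ 2 := h
  show FV (Uinv p) = 1 + e ^ 2
  rw [FV_Uinv, this]

lemma U_iter_mem {e : ℝ} {p : Pt} (h : p ∈ Surf e) (j : ℕ) : U^[j] p ∈ Surf e := by
  induction j with
  | zero => simpa using h
  | succ j ih => rw [Function.iterate_succ_apply']; exact U_mem ih

lemma T_mem {e : ℝ} {p : Pt} (h : p ∈ Surf e) (k : ℕ) : T k p ∈ Surf e :=
  P_mem (U_iter_mem h k)

lemma orb_mem {e : ℝ} {p : Pt} (h : p ∈ Surf e) (k : ℕ → ℕ) (n : ℕ) : orb k n p ∈ Surf e := by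
  induction n with
  | zero => exact h
  | succ n ih => exact T_mem ih _

/-! ### coordinates -/

@[simp] lemma U_y (p : Pt) : (U p).2.1 = p.2.1 := rfl
@[simp] lemma U_z (p : Pt) : (U p).2.2 = p.1 := rfl

lemma U_iter_y (p : Pt) (j : ℕ) : (U^[j] p).2.1 = p.2.1 := by
  induction j with
  | zero => rfl
  | succ j ih => rw [Function.iterate_succ_apply', U_y, ih]

lemma U_iter_x (p : Pt) (j : ℕ) : (U^[j] p).1 = (U^[j + 1] p).2.2 := by
  rw [Function.iterate_succ_apply', U_z]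

lemma T_y (k : ℕ) (p : Pt) : (T k p).2.1 = (U^[k] p).2.2 := rfl
lemma T_z (k : ℕ) (p : Pt) : (T k p).2.2 = p.2.1 := U_iter_y p k
lemma T_x (k : ℕ) (p : Pt) : (T k p).1 = (U^[k + 1] p).2.2 := U_iter_x p k

lemma orb_succ_z (k : ℕ → ℕ) (n : ℕ) (p : Pt) : (orb k (n + 1) p).2.2 = (orb k n p).2.1 :=
  T_z _ _

/-! ### inverses -/

lemma Uinv_U (p : Pt) : Uinv (U p) = p := by
  obtain ⟨x, y, z⟩ := p
  simp only [U, Uinv, Prod.mk.injEq, true_and]
  ring

lemma U_Uinv (p : Pt) : U (Uinv p) = p := by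
  obtain ⟨x, y, z⟩ := p
  simp only [U, Uinv, Prod.mk.injEq, and_true, and_self]
  ring

lemma P_P (p : Pt) : P (P p) = p := rfl

lemma sg_sg (p : Pt) : sg (sg p) = p := by
  obtain ⟨x, y, z⟩ := p
  simp only [sg, Prod.mk.injEq, and_true, and_self]
  ring

/-- `σ P = P σ = ι`, with `ι (x,y,z) = (2yz - x, y, z)`, conjugates `U` to its inverse. -/
lemma U_Psg_U (p : Pt) : U (P (sg (U p))) = P (sg p) := by
  obtain ⟨x, y, z⟩ := p
  simp only [U, P, sg, Prod.mk.injEq]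
  refine ⟨by ring, trivial, by ring⟩

lemma U_iter_Psg (j : ℕ) (p : Pt) : U^[j] (P (sg (U^[j] p))) = P (sg p) := by
  induction j generalizing p with
  | zero => rfl
  | succ j ih =>
    rw [Function.iterate_succ_apply (f := U) (n := j) (x := p)]
    rw [Function.iterate_succ_apply' (f := U)]
    rw [ih (U p), U_Psg_U]

lemma sg_P (p : Pt) : sg (P p) = P (sg p) := by
  obtain ⟨x, y, z⟩ := p
  simp only [P, sg, Prod.mk.injEq, and_true, and_self]
  ring

/-- `T_k σ T_k = σ`. -/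
lemma T_sg_T (k : ℕ) (p : Pt) : T k (sg (T k p)) = sg p := by
  unfold T
  rw [sg_P, U_iter_Psg, P_P]

lemma sg_T_sg_T (k : ℕ) (p : Pt) : sg (T k (sg (T k p))) = p := by
  rw [T_sg_T, sg_sg]

/-! ### shifts and reversal -/

lemma orb_add (k : ℕ → ℕ) (n m : ℕ) (p : Pt) :
    orb k (n + m) p = orb (fun i => k (n + i)) m (orb k n p) := by
  induction m with
  | zero => rfl
  | succ m ih =>
    show T (k (n + m)) (orb k (n + m) p) = T (k (n + m)) _
    rw [ih]

lemma orb_congr {k k' : ℕ → ℕ} {n : ℕ} (h : ∀ i < n, k i = k' i) (p : Pt) :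
    orb k n p = orb k' n p := by
  induction n with
  | zero => rfl
  | succ n ih =>
    show T (k n) (orb k n p) = T (k' n) (orb k' n p)
    rw [ih (fun i hi => h i (by omega)), h n (by omega)]

/-- Reversal: the point `σ p_m` is obtained from `σ p_N` by the reversed sequence. -/
lemma orb_rev (k : ℕ → ℕ) (N : ℕ) (p : Pt) (j : ℕ) (hj : j ≤ N) :
    orb (rev k N) j (sg (orb k N p)) = sg (orb k (N - j) p) := by
  induction j with
  | zero => rfl
  | succ j ih =>
    show T (rev k N j) (orb (rev k N) j (sg (orb k N p))) = _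
    rw [ih (by omega)]
    obtain ⟨m, hm⟩ : ∃ m, N - j = m + 1 := ⟨N - j - 1, by omega⟩
    have h1 : rev k N j = k m := by
      unfold rev; congr 1; omega
    have h2 : N - (j + 1) = m := by omega
    rw [h1, h2, hm]
    exact T_sg_T (k m) (orb k m p)

lemma orbInv_orb (k : ℕ → ℕ) (n : ℕ) (p : Pt) : orbInv k n (orb k n p) = p := by
  unfold orbInv
  rw [orb_rev k n p n le_rfl, Nat.sub_self, sg_sg]
  rfl

lemma rev_rev {k : ℕ → ℕ} {n i : ℕ} (h : i < n) : rev (rev k n) n i = k i := by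
  unfold rev; congr 1; omega

lemma orb_orbInv (k : ℕ → ℕ) (n : ℕ) (p : Pt) : orb k n (orbInv k n p) = p := by
  unfold orbInv
  have h := orb_rev (rev k n) n (sg p) n le_rfl
  rw [Nat.sub_self] at h
  have h2 : orb (rev (rev k n) n) n (sg (orb (rev k n) n (sg p)))
      = orb k n (sg (orb (rev k n) n (sg p))) :=
    orb_congr (fun i hi => rev_rev hi) _
  rw [h2] at h
  rw [h]
  exact sg_sg p

lemma orbInv_mem {e : ℝ} {p : Pt} (h : p ∈ Surf e) (k : ℕ → ℕ) (n : ℕ) :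
    orbInv k n p ∈ Surf e := sg_mem (orb_mem (sg_mem h) _ _)

/-! ### smoothness -/

lemma contDiff_U : ContDiff ℝ ∞ U := by unfold U; fun_prop
lemma contDiff_Uinv : ContDiff ℝ ∞ Uinv := by unfold Uinv; fun_prop
lemma contDiff_P : ContDiff ℝ ∞ P := by unfold P; fun_prop
lemma contDiff_sg : ContDiff ℝ ∞ sg := by unfold sg; fun_prop
lemma contDiff_FV : ContDiff ℝ ∞ FV := by unfold FV; fun_prop

lemma contDiff_U_iter (j : ℕ) : ContDiff ℝ ∞ (U^[j]) := by
  induction j with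
  | zero => exact contDiff_id
  | succ j ih => rw [Function.iterate_succ]; exact ih.comp contDiff_U

lemma contDiff_T (k : ℕ) : ContDiff ℝ ∞ (T k) := contDiff_P.comp (contDiff_U_iter k)

lemma contDiff_orb (k : ℕ → ℕ) (n : ℕ) : ContDiff ℝ ∞ (orb k n) := by
  induction n with
  | zero => exact contDiff_id
  | succ n ih => exact (contDiff_T (k n)).comp ih

lemma contDiff_orbInv (k : ℕ → ℕ) (n : ℕ) : ContDiff ℝ ∞ (orbInv k n) :=
  contDiff_sg.comp ((contDiff_orb _ _).comp contDiff_sg)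

/-! ### tangent maps -/

lemma hasFDerivAt_U (p : Pt) : ∃ L : Pt →L[ℝ] Pt, HasFDerivAt U L p ∧ ∀ v, L v = dU p v := by
  refine ⟨fderiv ℝ U p, (contDiff_U.differentiable (by simp)).differentiableAt.hasFDerivAt, ?_⟩
  intro v
  have h1 : HasDerivAt (fun t : ℝ => p + t • v) v 0 := by
    simpa using ((hasDerivAt_id (0 : ℝ)).smul_const v).const_add p
  have h0 : (p + (0 : ℝ) • v) = p := by simp
  have h2 : HasDerivAt (fun t : ℝ => U (p + t • v)) (fderiv ℝ U p v) 0 := by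
    have := (contDiff_U.differentiable (by simp)).differentiableAt (x := p + (0 : ℝ) • v)
    have h3 := this.hasFDerivAt.comp_hasDerivAt (0 : ℝ) h1
    rw [h0] at h3
    exact h3
  obtain ⟨x, y, z⟩ := p
  obtain ⟨a, b, c⟩ := v
  have h3 : HasDerivAt (fun t : ℝ => U ((x, y, z) + t • (a, b, c))) (dU (x, y, z) (a, b, c)) 0 := by
    have hx : HasDerivAt (fun t : ℝ => x + t * a) a 0 := by
      simpa using ((hasDerivAt_id (0 : ℝ)).mul_const a).const_add x
    have hy : HasDerivAt (fun t : ℝ => y + t * b) b 0 := by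
      simpa using ((hasDerivAt_id (0 : ℝ)).mul_const b).const_add y
    have hz : HasDerivAt (fun t : ℝ => z + t * c) c 0 := by
      simpa using ((hasDerivAt_id (0 : ℝ)).mul_const c).const_add z
    have e1 : HasDerivAt (fun t : ℝ => 2 * (x + t * a) * (y + t * b) - (z + t * c))
        (2 * a * y + 2 * x * b - c) 0 := by
      have h := ((hx.const_mul 2).mul hy).sub hz
      refine (h.congr_deriv ?_)
      simp
    exact e1.prodMk (hy.prodMk hx)
  exact h2.unique h3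

/-- If `γ` has derivative `v` at `t`, then `U ∘ γ` has derivative `dU (γ t) v`. -/
lemma hasDerivAt_U {γ : ℝ → Pt} {v : Pt} {t : ℝ} (h : HasDerivAt γ v t) :
    HasDerivAt (fun s => U (γ s)) (dU (γ t) v) t := by
  obtain ⟨L, hL, hv⟩ := hasFDerivAt_U (γ t)
  rw [← hv]
  exact hL.comp_hasDerivAt t h

lemma hasDerivAt_P {γ : ℝ → Pt} {v : Pt} {t : ℝ} (h : HasDerivAt γ v t) :
    HasDerivAt (fun s => P (γ s)) (P v) t := by
  have h1 : HasDerivAt (fun s => (γ s).1) v.1 t :=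
    (hasFDerivAt_fst (𝕜 := ℝ) (p := γ t)).comp_hasDerivAt t h
  have h2 : HasDerivAt (fun s => (γ s).2) v.2 t :=
    (hasFDerivAt_snd (𝕜 := ℝ) (p := γ t)).comp_hasDerivAt t h
  have h3 : HasDerivAt (fun s => (γ s).2.1) v.2.1 t := by
    have h := (hasFDerivAt_fst (𝕜 := ℝ) (E := ℝ) (F := ℝ) (p := (γ t).2)).comp_hasDerivAt t h2
    exact h
  have h4 : HasDerivAt (fun s => (γ s).2.2) v.2.2 t := by
    have h := (hasFDerivAt_snd (𝕜 := ℝ) (E := ℝ) (F := ℝ) (p := (γ t).2)).comp_hasDerivAt t h2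
    exact h
  exact h1.prodMk (h4.prodMk h3)

lemma TU_iter_fst (j : ℕ) (q : Pt × Pt) : (TU^[j] q).1 = U^[j] q.1 := by
  induction j with
  | zero => rfl
  | succ j ih => rw [Function.iterate_succ_apply', Function.iterate_succ_apply', ← ih]; rfl

lemma hasDerivAt_U_iter {γ : ℝ → Pt} {v : Pt} {t : ℝ} (h : HasDerivAt γ v t) (j : ℕ) :
    HasDerivAt (fun s => U^[j] (γ s)) (TU^[j] (γ t, v)).2 t := by
  induction j with
  | zero => exact h
  | succ j ih =>
    have := hasDerivAt_U ih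
    rw [← TU_iter_fst j (γ t, v)] at this
    simp only [Function.iterate_succ_apply']
    exact this

lemma TT_fst (k : ℕ) (q : Pt × Pt) : (TT k q).1 = T k q.1 := by
  show P (TU^[k] q).1 = P (U^[k] q.1)
  rw [TU_iter_fst]

lemma torb_fst (k : ℕ → ℕ) (n : ℕ) (q : Pt × Pt) : (torb k n q).1 = orb k n q.1 := by
  induction n with
  | zero => rfl
  | succ n ih =>
    show (TT (k n) (torb k n q)).1 = T (k n) (orb k n q.1)
    rw [TT_fst, ih]

lemma hasDerivAt_orb {γ : ℝ → Pt} {v : Pt} {t : ℝ} (h : HasDerivAt γ v t) (k : ℕ → ℕ) (n : ℕ) :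
    HasDerivAt (fun s => orb k n (γ s)) (torb k n (γ t, v)).2 t := by
  induction n with
  | zero => exact h
  | succ n ih =>
    have h1 := hasDerivAt_P (hasDerivAt_U_iter ih (k n))
    have h2 : (orb k n (γ t), (torb k n (γ t, v)).2) = torb k n (γ t, v) := by
      rw [← torb_fst k n (γ t, v)]
    rw [h2] at h1
    exact h1

lemma TU_iter_vy (j : ℕ) (q : Pt × Pt) : (TU^[j] q).2.2.1 = q.2.2.1 := by
  induction j with
  | zero => rfl
  | succ j ih => rw [Function.iterate_succ_apply']; exact ih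

lemma TU_iter_vx (j : ℕ) (q : Pt × Pt) : (TU^[j] q).2.1 = (TU^[j + 1] q).2.2.2 := by
  rw [Function.iterate_succ_apply']; rfl

lemma torb_succ_vz (k : ℕ → ℕ) (n : ℕ) (q : Pt × Pt) :
    (torb k (n + 1) q).2.2.2 = (torb k n q).2.2.1 := by
  show (TU^[k n] (torb k n q)).2.2.1 = _
  exact TU_iter_vy _ _

lemma Tan_TU {e : ℝ} {q : Pt × Pt} (h : Tan e q) : Tan e (TU q) := by
  refine ⟨U_mem h.1, ?_⟩
  have h2 := h.2
  obtain ⟨⟨x, y, z⟩, ⟨a, b, c⟩⟩ := q
  simp only [TU, U, dU, dFV] at h2 ⊢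
  linear_combination h2

lemma Tan_TUinv {e : ℝ} {q : Pt × Pt} (h : Tan e q) : Tan e (TUinv q) := by
  refine ⟨Uinv_mem h.1, ?_⟩
  have h2 := h.2
  obtain ⟨⟨x, y, z⟩, ⟨a, b, c⟩⟩ := q
  simp only [TUinv, Uinv, dUinv, dFV] at h2 ⊢
  linear_combination h2

lemma Tan_TP {e : ℝ} {q : Pt × Pt} (h : Tan e q) : Tan e (TP q) := by
  refine ⟨P_mem h.1, ?_⟩
  have h2 := h.2
  obtain ⟨⟨x, y, z⟩, ⟨a, b, c⟩⟩ := q
  simp only [TP, P, dFV] at h2 ⊢
  linear_combination h2

lemma Tan_TU_iter {e : ℝ} {q : Pt × Pt} (h : Tan e q) (j : ℕ) : Tan e (TU^[j] q) := by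
  induction j with
  | zero => exact h
  | succ j ih => rw [Function.iterate_succ_apply']; exact Tan_TU ih

lemma Tan_TT {e : ℝ} {q : Pt × Pt} (h : Tan e q) (k : ℕ) : Tan e (TT k q) :=
  Tan_TP (Tan_TU_iter h k)

lemma Tan_torb {e : ℝ} {q : Pt × Pt} (h : Tan e q) (k : ℕ → ℕ) (n : ℕ) : Tan e (torb k n q) := by
  induction n with
  | zero => exact h
  | succ n ih => exact Tan_TT ih _

/-! ### the function `D` -/

/-- `D² = e² + (1 - y²)(1 - z²)` on the surface. -/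
lemma D_sq {e : ℝ} {p : Pt} (h : p ∈ Surf e) :
    D p ^ 2 = e ^ 2 + (1 - p.2.1 ^ 2) * (1 - p.2.2 ^ 2) := by
  have h1 : FV p = 1 + e ^ 2 := h
  unfold FV at h1
  unfold D
  linear_combination h1

lemma D_P (p : Pt) : D (P p) = D p := by unfold D P; ring

lemma D_sg (p : Pt) : D (sg p) = - D p := by unfold D sg; ring

lemma D_U (p : Pt) : D (U p) = p.2.1 * D p + (1 - p.2.1 ^ 2) * p.2.2 := by
  unfold D U; ring

lemma x_eq (p : Pt) : p.1 = p.2.1 * p.2.2 - D p := by unfold D; ring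

lemma xb_eq (p : Pt) : xb p = p.2.1 * p.2.2 + D p := by unfold xb D; ring

lemma T_D (k : ℕ) (p : Pt) : D (T k p) = D (U^[k] p) := D_P _

lemma V_sq (e : ℝ) : V e ^ 2 = 1 + e ^ 2 := Real.sq_sqrt (by positivity)

lemma B_sq (e : ℝ) : B e ^ 2 = 1 + e ^ 2 / 2 := Real.sq_sqrt (by positivity)

lemma one_lt_V {e : ℝ} (he : 0 < e) : 1 < V e := by
  unfold V
  rw [Real.lt_sqrt (by norm_num)]
  nlinarith [sq_nonneg e, pow_pos he 2]

lemma one_lt_B {e : ℝ} (he : 0 < e) : 1 < B e := by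
  unfold B
  rw [Real.lt_sqrt (by norm_num)]
  nlinarith [sq_nonneg e, pow_pos he 2]

lemma B_lt_V {e : ℝ} (he : 0 < e) : B e < V e := by
  unfold V B
  apply Real.sqrt_lt_sqrt (by positivity)
  nlinarith [pow_pos he 2]

end TM
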