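import Pool.Agent.Helper55.TM.Links

/-!
# MP_fc8395_an : blending, part 1 (general facts)
-/

set_option autoImplicit false

open scoped ContDiff Topology
open Filter Set

namespace TM

/-! ### C¹ closeness at a point -/

section C1c

variable {X : Type*} [NormedAddCommGroup X] [NormedSpace ℝ X]
variable {E : Type*} [NormedAddCommGroup E] [NormedSpace ℝ E]

/-- `a` and `b` are differentiable at `q`, `‖a q - b q‖ ≤ x` and the derivatives differ by `≤ y`. -/
def C1c (q : X) (a b : X → E) (x y : ℝ) : Prop :=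
  DifferentiableAt ℝ a q ∧ DifferentiableAt ℝ b q ∧ ‖a q - b q‖ ≤ x ∧
    ‖fderiv ℝ a q - fderiv ℝ b q‖ ≤ y

lemma C1c.symm {q : X} {a b : X → E} {x y : ℝ} (h : C1c q a b x y) : C1c q b a x y :=
  ⟨h.2.1, h.1, by rw [norm_sub_rev]; exact h.2.2.1, by rw [norm_sub_rev]; exact h.2.2.2⟩

lemma C1c.trans {q : X} {a b c : X → E} {x y x' y' : ℝ} (h : C1c q a b x y)
    (h' : C1c q b c x' y') : C1c q a c (x + x') (y + y') := by
  refine ⟨h.1, h'.2.1, ?_, ?_⟩
  · calc ‖a q - c q‖ = ‖(a q - b q) + (b q - c q)‖ := by congr 1; abel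
      _ ≤ _ := norm_add_le _ _
      _ ≤ _ := add_le_add h.2.2.1 h'.2.2.1
  · calc ‖fderiv ℝ a q - fderiv ℝ c q‖
        = ‖(fderiv ℝ a q - fderiv ℝ b q) + (fderiv ℝ b q - fderiv ℝ c q)‖ := by congr 1; abel
      _ ≤ _ := norm_add_le _ _
      _ ≤ _ := add_le_add h.2.2.2 h'.2.2.2

lemma C1c.mono {q : X} {a b : X → E} {x y x' y' : ℝ} (h : C1c q a b x y) (hx : x ≤ x')
    (hy : y ≤ y') : C1c q a b x' y' := ⟨h.1, h.2.1, h.2.2.1.trans hx, h.2.2.2.trans hy⟩

lemma C1c.congr {q : X} {a b a' b' : X → E} {x y : ℝ} (h : C1c q a b x y) (ha : a' =ᶠ[𝓝 q] a)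
    (hb : b' =ᶠ[𝓝 q] b) : C1c q a' b' x y := by
  refine ⟨ha.differentiableAt_iff.2 h.1, hb.differentiableAt_iff.2 h.2.1, ?_, ?_⟩
  · rw [ha.eq_of_nhds, hb.eq_of_nhds]; exact h.2.2.1
  · rw [ha.fderiv_eq, hb.fderiv_eq]; exact h.2.2.2

lemma C1c.refl {q : X} {a : X → E} (h : DifferentiableAt ℝ a q) : C1c q a a 0 0 :=
  ⟨h, h, by simp, by simp⟩

/-- The update of `b` by `a` with weight `w`. -/
lemma C1c.update {q : X} {a b c : X → E} {w : X → ℝ} {x y x1 y1 x2 y2 m : ℝ}
    (hw : DifferentiableAt ℝ w q) (hw0 : 0 ≤ w q) (hw1 : w q ≤ 1) (hwm : ‖fderiv ℝ w q‖ ≤ m)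
    (hab : C1c q a b x y) (hac : C1c q a c x1 y1) (hbc : C1c q b c x2 y2) :
    C1c q (fun p => w p • a p + (1 - w p) • b p) c (max x1 x2) (m * x + max y1 y2) := by
  have hm0 : 0 ≤ m := (norm_nonneg _).trans hwm
  have hx0 : 0 ≤ x := (norm_nonneg _).trans hab.2.2.1
  have hd : HasFDerivAt (fun p => w p • a p + (1 - w p) • b p)
      ((w q • fderiv ℝ a q + (fderiv ℝ w q).smulRight (a q)) +
        ((1 - w q) • fderiv ℝ b q + (-(fderiv ℝ w q)).smulRight (b q))) q := by
    have h1 := hw.hasFDerivAt.smul hab.1.hasFDerivAt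
    have h2 : HasFDerivAt (fun p => 1 - w p) (-(fderiv ℝ w q)) q := by
      simpa using hw.hasFDerivAt.const_sub 1
    exact h1.add (h2.smul hab.2.1.hasFDerivAt)
  refine ⟨hd.differentiableAt, hac.2.1, ?_, ?_⟩
  · have e1 : w q • a q + (1 - w q) • b q - c q
        = w q • (a q - c q) + (1 - w q) • (b q - c q) := by
      rw [smul_sub, smul_sub]
      have : w q • c q + (1 - w q) • c q = c q := by rw [← add_smul]; simp
      calc _ = w q • a q + (1 - w q) • b q - (w q • c q + (1 - w q) • c q) := by rw [this]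
        _ = _ := by abel
    show ‖w q • a q + (1 - w q) • b q - c q‖ ≤ _
    rw [e1]
    calc _ ≤ ‖w q • (a q - c q)‖ + ‖(1 - w q) • (b q - c q)‖ := norm_add_le _ _
      _ = w q * ‖a q - c q‖ + (1 - w q) * ‖b q - c q‖ := by
          rw [norm_smul, norm_smul, Real.norm_of_nonneg hw0,
            Real.norm_of_nonneg (by linarith : 0 ≤ 1 - w q)]
      _ ≤ w q * max x1 x2 + (1 - w q) * max x1 x2 := by
          refine add_le_add ?_ ?_
          · exact mul_le_mul_of_nonneg_left (hac.2.2.1.trans (le_max_left _ _)) hw0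
          · exact mul_le_mul_of_nonneg_left (hbc.2.2.1.trans (le_max_right _ _)) (by linarith)
      _ = _ := by ring
  · rw [hd.fderiv]
    have e1 : ((w q • fderiv ℝ a q + (fderiv ℝ w q).smulRight (a q)) +
        ((1 - w q) • fderiv ℝ b q + (-(fderiv ℝ w q)).smulRight (b q))) - fderiv ℝ c q
        = (fderiv ℝ w q).smulRight (a q - b q) + (w q • (fderiv ℝ a q - fderiv ℝ c q)
          + (1 - w q) • (fderiv ℝ b q - fderiv ℝ c q)) := by
      ext v
      simp only [ContinuousLinearMap.sub_apply, ContinuousLinearMap.add_apply,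
        ContinuousLinearMap.smul_apply, ContinuousLinearMap.smulRight_apply,
        ContinuousLinearMap.neg_apply, smul_sub]
      have : w q • fderiv ℝ c q v + (1 - w q) • fderiv ℝ c q v = fderiv ℝ c q v := by
        rw [← add_smul]; simp
      calc _ = w q • fderiv ℝ a q v + fderiv ℝ w q v • a q + ((1 - w q) • fderiv ℝ b q v
            + (-fderiv ℝ w q v) • b q) - (w q • fderiv ℝ c q v + (1 - w q) • fderiv ℝ c q v) := by
              rw [this]
        _ = _ := by rw [neg_smul]; abel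
    rw [e1]
    calc _ ≤ ‖(fderiv ℝ w q).smulRight (a q - b q)‖ + ‖w q • (fderiv ℝ a q - fderiv ℝ c q)
          + (1 - w q) • (fderiv ℝ b q - fderiv ℝ c q)‖ := norm_add_le _ _
      _ ≤ m * x + max y1 y2 := by
        refine add_le_add ?_ ?_
        · rw [ContinuousLinearMap.norm_smulRight_apply]
          exact mul_le_mul hwm hab.2.2.1 (norm_nonneg _) hm0
        · calc _ ≤ ‖w q • (fderiv ℝ a q - fderiv ℝ c q)‖
                + ‖(1 - w q) • (fderiv ℝ b q - fderiv ℝ c q)‖ := norm_add_le _ _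
            _ = w q * ‖fderiv ℝ a q - fderiv ℝ c q‖
                + (1 - w q) * ‖fderiv ℝ b q - fderiv ℝ c q‖ := by
                rw [norm_smul, norm_smul, Real.norm_of_nonneg hw0,
                  Real.norm_of_nonneg (by linarith : 0 ≤ 1 - w q)]
            _ ≤ w q * max y1 y2 + (1 - w q) * max y1 y2 := by
                refine add_le_add ?_ ?_
                · exact mul_le_mul_of_nonneg_left (hac.2.2.2.trans (le_max_left _ _)) hw0
                · exact mul_le_mul_of_nonneg_left (hbc.2.2.2.trans (le_max_right _ _))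
                    (by linarith)
            _ = _ := by ring

end C1c

/-! ### rimFold -/

section fold

variable {E : Type*} [AddCommGroup E] [Module ℝ E]

lemma rimFold_one {w : ℕ → ℝ} {u : ℕ → E} {s : E} {j : ℕ} (h : w (j + 1) = 1) :
    rimFold w u (j + 1) s = u (j + 1) := by
  show w (j + 1) • u (j + 1) + (1 - w (j + 1)) • rimFold w u j s = u (j + 1)
  rw [h]; simp

lemma rimFold_zero {w : ℕ → ℝ} {u : ℕ → E} {s : E} {a b : ℕ} (hab : a ≤ b)
    (h : ∀ j, a < j → j ≤ b → w j = 0) : rimFold w u b s = rimFold w u a s := by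
  induction b, hab using Nat.le_induction with
  | base => rfl
  | succ b hab ih =>
    show w (b + 1) • u (b + 1) + (1 - w (b + 1)) • rimFold w u b s = _
    rw [h (b + 1) (by omega) le_rfl, ih (fun j hj hj2 => h j hj (by omega))]
    simp

lemma rimFold_congr {w : ℕ → ℝ} {u : ℕ → E} {s s' : E} (j : ℕ) (h : s = s') :
    rimFold w u j s = rimFold w u j s' := by rw [h]

end fold

/-! ### the cut-off -/

lemma Cut.a2_lt_B {e : ℝ} (c : Cut e) : c.a2 < B e := c.lt_B

lemma Cut.a1_lt_B {e : ℝ} (c : Cut e) : c.a1 < B e := c.lt12.trans c.lt_B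

lemma Cut.bound {e : ℝ} (c : Cut e) : ∃ L : ℝ, 0 ≤ L ∧ ∀ y, ‖deriv c.χ y‖ ≤ L := by
  have h1 : Continuous (deriv c.χ) := c.smooth.continuous_deriv (by simp)
  obtain ⟨L, hL⟩ := (isCompact_Icc (a := -c.a2) (b := c.a2)).exists_bound_of_continuousOn
    h1.continuousOn
  refine ⟨max L 0, le_max_right _ _, fun y => ?_⟩
  by_cases hy : y ∈ Icc (-c.a2) c.a2
  · exact (hL y hy).trans (le_max_left _ _)
  · have h2 : c.a2 < |y| := by
      by_contra h
      exact hy (abs_le.1 (not_lt.1 h))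
    have h3 : c.χ =ᶠ[𝓝 y] fun _ => 0 := by
      have : ∀ᶠ y' in 𝓝 y, c.a2 < |y'| := (isOpen_lt continuous_const continuous_abs).mem_nhds h2
      exact this.mono fun y' hy' => c.zero y' hy'.le
    rw [h3.deriv_eq, deriv_const, norm_zero]
    exact le_max_right _ _

lemma Cut.weight {e : ℝ} (c : Cut e) {X : Type*} [NormedAddCommGroup X] [NormedSpace ℝ X]
    {L : ℝ} (hL : ∀ y, ‖deriv c.χ y‖ ≤ L) {f : X → ℝ} {q : X} (hf : DifferentiableAt ℝ f q) :
    DifferentiableAt ℝ (fun p => c.χ (f p)) q ∧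
      ‖fderiv ℝ (fun p => c.χ (f p)) q‖ ≤ L * ‖fderiv ℝ f q‖ := by
  have h1 : DifferentiableAt ℝ c.χ (f q) := (c.smooth.differentiable (by simp)).differentiableAt
  have h2 := h1.hasDerivAt.comp_hasFDerivAt q hf.hasFDerivAt
  refine ⟨h2.differentiableAt, ?_⟩
  have h3 : fderiv ℝ (fun p => c.χ (f p)) q = deriv c.χ (f q) • fderiv ℝ f q := h2.fderiv
  rw [h3, norm_smul]
  exact mul_le_mul_of_nonneg_right (hL _) (norm_nonneg _)

/-- Near a point with `|f| < a1` the weight is one. -/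
lemma Cut.ev_one {e : ℝ} (c : Cut e) {X : Type*} [TopologicalSpace X] {f : X → ℝ} {q : X}
    (hf : ContinuousAt f q) (h : |f q| < c.a1) : ∀ᶠ p in 𝓝 q, c.χ (f p) = 1 := by
  have h1 : ∀ᶠ p in 𝓝 q, |f p| < c.a1 := hf.abs.eventually_lt continuousAt_const h
  exact h1.mono fun p hp => c.one _ hp.le

/-- Near a point with `|f| > a2` the weight is zero. -/
lemma Cut.ev_zero {e : ℝ} (c : Cut e) {X : Type*} [TopologicalSpace X] {f : X → ℝ} {q : X}
    (hf : ContinuousAt f q) (h : c.a2 < |f q|) : ∀ᶠ p in 𝓝 q, c.χ (f p) = 0 := by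
  have h1 : ∀ᶠ p in 𝓝 q, c.a2 < |f p| := continuousAt_const.eventually_lt hf.abs h
  exact h1.mono fun p hp => c.zero _ hp.le

end TM
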