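import Pool.Agent.Helper55.TM.Blend1

/-!
# MP_fc8395_an : blending, part 2 (the increments)
-/

set_option autoImplicit false

open scoped ContDiff Topology
open Filter Set

namespace TM

/-- The normalised direction of the level curves of `f`. -/
noncomputable def Gf (NN : (ℝ × ℝ) × ℝ → ℝ) (f : ℝ × ℝ → ℝ) : ℝ × ℝ → ℝ × ℝ := Gam NN (slope f)

/-- The rim updates. -/
noncomputable def rN (e : ℝ) (k : ℕ → ℕ) (χ : ℝ → ℝ) (NN : (ℝ × ℝ) × ℝ → ℝ) (n J : ℕ)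
    (s : ℝ × ℝ → ℝ × ℝ) (q : ℝ × ℝ) : ℝ × ℝ :=
  rimFold (fun j => χ (Ft e k n j q)) (fun j => Gf NN (Ft e k n j) q) J (s q)

/-- The state. -/
noncomputable def sN (e : ℝ) (k : ℕ → ℕ) (χ : ℝ → ℝ) (NN : (ℝ × ℝ) × ℝ → ℝ) (N0 i : ℕ)
    (q : ℝ × ℝ) : ℝ × ℝ :=
  stt k (fun n => χ (F e k n q)) (fun n => Gf NN (F e k n) q) (fun n j => χ (Ft e k n j q))
    (fun n j => Gf NN (Ft e k n j) q) N0 i

section

variable {e : ℝ} {k : ℕ → ℕ} {χ : ℝ → ℝ} {NN : (ℝ × ℝ) × ℝ → ℝ} {N0 : ℕ}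

lemma sN_zero (q : ℝ × ℝ) : sN e k χ NN N0 0 q = Gf NN (F e k N0) q := rfl

lemma sN_succ (i : ℕ) (q : ℝ × ℝ) : sN e k χ NN N0 (i + 1) q
    = χ (F e k (N0 + i + 1) q) • Gf NN (F e k (N0 + i + 1)) q
      + (1 - χ (F e k (N0 + i + 1) q)) •
        rN e k χ NN (N0 + i + 1) (k (N0 + i + 1) - 1) (sN e k χ NN N0 i) q := rfl

lemma rN_zero (n : ℕ) (s : ℝ × ℝ → ℝ × ℝ) : rN e k χ NN n 0 s = s := rfl

lemma rN_succ (n J : ℕ) (s : ℝ × ℝ → ℝ × ℝ) (q : ℝ × ℝ) : rN e k χ NN n (J + 1) s q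
    = χ (Ft e k n (J + 1) q) • Gf NN (Ft e k n (J + 1)) q
      + (1 - χ (Ft e k n (J + 1) q)) • rN e k χ NN n J s q := rfl

lemma rN_congr {n J : ℕ} {s s' : ℝ × ℝ → ℝ × ℝ} {q : ℝ × ℝ} (h : s =ᶠ[𝓝 q] s') :
    rN e k χ NN n J s =ᶠ[𝓝 q] rN e k χ NN n J s' := by
  filter_upwards [h] with p hp
  show rimFold _ _ J (s p) = rimFold _ _ J (s' p)
  rw [hp]

end

section

variable {e : ℝ} {k : ℕ → ℕ} {c : Cut e} {NN : (ℝ × ℝ) × ℝ → ℝ} {N0 : ℕ} {q : ℝ × ℝ}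

lemma contAt_F (hq : q ∈ Dom) (n : ℕ) : ContinuousAt (F e k n) q := (contDiffAt_F hq).continuousAt

lemma contAt_Ft (hq : q ∈ Dom) (n j : ℕ) : ContinuousAt (Ft e k n j) q :=
  (contDiffAt_Ft hq).continuousAt

/-- Update germ with weight one. -/
lemma upd_one {f : ℝ × ℝ → ℝ} (hf : ContinuousAt f q) (h : |f q| < c.a1)
    (s : ℝ × ℝ → ℝ × ℝ) :
    (fun p => c.χ (f p) • Gf NN f p + (1 - c.χ (f p)) • s p) =ᶠ[𝓝 q] Gf NN f := by
  filter_upwards [c.ev_one hf h] with p hp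
  rw [hp]; simp

lemma upd_zero {f : ℝ × ℝ → ℝ} (hf : ContinuousAt f q) (h : c.a2 < |f q|)
    (s : ℝ × ℝ → ℝ × ℝ) :
    (fun p => c.χ (f p) • Gf NN f p + (1 - c.χ (f p)) • s p) =ᶠ[𝓝 q] s := by
  filter_upwards [c.ev_zero hf h] with p hp
  rw [hp]; simp

lemma stateA1 (hq : q ∈ Dom) (i : ℕ) (h : |F e k (N0 + i) q| < c.a1) :
    sN e k c.χ NN N0 i =ᶠ[𝓝 q] Gf NN (F e k (N0 + i)) := by
  cases i with
  | zero => exact EventuallyEq.rfl
  | succ i => exact upd_one (contAt_F hq _) h _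

lemma rim_one (hq : q ∈ Dom) {n J : ℕ} {s : ℝ × ℝ → ℝ × ℝ}
    (hs : s =ᶠ[𝓝 q] Gf NN (Ft e k n 0)) (h : J = 0 ∨ |Ft e k n J q| < c.a1) :
    rN e k c.χ NN n J s =ᶠ[𝓝 q] Gf NN (Ft e k n J) := by
  cases J with
  | zero => exact hs
  | succ J =>
    rcases h with h | h
    · exact absurd h (by omega)
    · exact upd_one (contAt_Ft hq _ _) h _

lemma rim_zero (hq : q ∈ Dom) {n J K : ℕ} (hJK : J ≤ K) (s : ℝ × ℝ → ℝ × ℝ)
    (h : ∀ j, J < j → j ≤ K → c.a2 < |Ft e k n j q|) :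
    rN e k c.χ NN n K s =ᶠ[𝓝 q] rN e k c.χ NN n J s := by
  induction K, hJK using Nat.le_induction with
  | base => exact EventuallyEq.rfl
  | succ K hJK ih =>
    refine EventuallyEq.trans ?_ (ih (fun j hj hj2 => h j hj (by omega)))
    exact upd_zero (contAt_Ft hq _ _) (h (K + 1) (by omega) le_rfl) _

/-- Numeric facts about a value function at `q`. -/
structure GV (e M r Λ : ℝ) (f : ℝ × ℝ → ℝ) (q : ℝ × ℝ) : Prop where
  le_B : |f q| ≤ B e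
  smooth : ContDiffAt ℝ ∞ f q
  sl : |slope f q| ≤ M
  dsl : ‖fderiv ℝ (slope f) q‖ ≤ M
  pos : 0 < |dt f q|
  inv : 1 / |dt f q| ≤ r
  low : Λ ≤ |dt f q|

lemma GV.dif {M r Λ : ℝ} {f : ℝ × ℝ → ℝ} (h : GV e M r Λ f q) : DifferentiableAt ℝ f q :=
  h.smooth.differentiableAt (by simp)

lemma GV.ne {M r Λ : ℝ} {f : ℝ × ℝ → ℝ} (h : GV e M r Λ f q) : dt f q ≠ 0 := abs_pos.1 h.pos

lemma norm_fderiv_le {f : ℝ × ℝ → ℝ} {q : ℝ × ℝ} : ‖fderiv ℝ f q‖ ≤ |dz f q| + |dt f q| := by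
  refine ContinuousLinearMap.opNorm_le_bound _ (by positivity) ?_
  intro v
  have h1 : fderiv ℝ f q v = v.1 * dz f q + v.2 * dt f q := by
    have : v = v.1 • ((1 : ℝ), (0 : ℝ)) + v.2 • ((0 : ℝ), (1 : ℝ)) := by
      ext <;> simp
    conv_lhs => rw [this]
    rw [map_add, map_smul, map_smul]
    rfl
  rw [h1, Real.norm_eq_abs]
  have h2 : |v.1| ≤ ‖v‖ := norm_fst_le v
  have h3 : |v.2| ≤ ‖v‖ := norm_snd_le v
  calc |v.1 * dz f q + v.2 * dt f q| ≤ |v.1 * dz f q| + |v.2 * dt f q| := abs_add_le _ _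
    _ = |v.1| * |dz f q| + |v.2| * |dt f q| := by rw [abs_mul, abs_mul]
    _ ≤ ‖v‖ * |dz f q| + ‖v‖ * |dt f q| := by
        refine add_le_add ?_ ?_
        · exact mul_le_mul_of_nonneg_right h2 (abs_nonneg _)
        · exact mul_le_mul_of_nonneg_right h3 (abs_nonneg _)
    _ = _ := by ring

lemma GV.grad {M r Λ : ℝ} {f : ℝ × ℝ → ℝ} (h : GV e M r Λ f q) :
    ‖fderiv ℝ f q‖ ≤ (1 + M) * |dt f q| := by
  refine norm_fderiv_le.trans ?_
  have h1 : dz f q = - (slope f q * dt f q) := by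
    unfold slope
    have := h.ne
    field_simp
  rw [h1, abs_neg, abs_mul]
  have := mul_le_mul_of_nonneg_right h.sl (abs_nonneg (dt f q))
  linarith

/-- From a link to a C¹ estimate. -/
lemma link_C1c {K : Set (ℝ × ℝ)} {M Cg Cl r0 : ℝ} (hCg : 0 ≤ Cg) (hM : 0 ≤ M) (hCl : 0 ≤ Cl)
    (hlip : ∀ q ∈ K, ∀ m m' : ℝ × ℝ → ℝ, DifferentiableAt ℝ m q → DifferentiableAt ℝ m' q →
        |m q| ≤ M → |m' q| ≤ M → ‖fderiv ℝ m q‖ ≤ M → ‖fderiv ℝ m' q‖ ≤ M →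
        DifferentiableAt ℝ (Gam NN m) q ∧
        ‖Gam NN m q‖ ≤ Cg ∧ ‖fderiv ℝ (Gam NN m) q‖ ≤ Cg ∧ 1 ≤ Cg * (Gam NN m q).1 ∧
        ‖Gam NN m q - Gam NN m' q‖ ≤ Cg * |m q - m' q| ∧
        ‖fderiv ℝ (Gam NN m) q - fderiv ℝ (Gam NN m') q‖
          ≤ Cg * (|m q - m' q| + ‖fderiv ℝ m q - fderiv ℝ m' q‖))
    (hq : q ∈ K) {r Λ : ℝ} (hr : r ≤ r0) {f g : ℝ × ℝ → ℝ} (hf : GV e M r Λ f q)
    (hg : GV e M r Λ g q) (hl : LinkB Cl f g q) :
    C1c q (Gf NN f) (Gf NN g) (Cg * Cl * (r0 + 2 + 4 * M) / (|dt f q| * |dt g q|) )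
      (Cg * Cl * (r0 + 2 + 4 * M) * (1 / |dt f q| + 1 / |dt g q|)) := by
  have hsf : DifferentiableAt ℝ (slope f) q :=
    (contDiffAt_slope hf.smooth hf.ne).differentiableAt (by simp)
  have hsg : DifferentiableAt ℝ (slope g) q :=
    (contDiffAt_slope hg.smooth hg.ne).differentiableAt (by simp)
  obtain ⟨a1, _, _, _, a5, a6⟩ := hlip q hq _ _ hsf hsg hf.sl hg.sl hf.dsl hg.dsl
  obtain ⟨b1, _⟩ := hlip q hq _ _ hsg hsf hg.sl hf.sl hg.dsl hf.dsl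
  obtain ⟨l1, l2, l3⟩ := hl
  have hfp := hf.pos
  have hgp := hg.pos
  have hinvf : 1 / |dt f q| ≤ r0 := hf.inv.trans hr
  have hr0 : 0 ≤ r0 := le_trans (by positivity) hinvf
  have hS : 0 < |dt f q| * |dt g q| := mul_pos hfp hgp
  have d1 : |slope f q - slope g q| ≤ Cl / (|dt f q| * |dt g q|) := by
    rw [le_div_iff₀ hS]; exact l1
  set S : ℝ := 1 / |dt f q| + 1 / |dt g q| with hSdef
  have hS0 : 0 ≤ S := by positivity
  have d2 : Cl / (|dt f q| * |dt g q|) ≤ Cl * r0 * S := by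
    have : Cl / (|dt f q| * |dt g q|) = Cl * (1 / |dt f q|) * (1 / |dt g q|) := by
      field_simp
    rw [this]
    have h1 : Cl * (1 / |dt f q|) ≤ Cl * r0 := mul_le_mul_of_nonneg_left hinvf hCl
    have h2 : 1 / |dt g q| ≤ S := by
      have : 0 ≤ 1 / |dt f q| := by positivity
      linarith
    exact mul_le_mul h1 h2 (by positivity) (by positivity)
  have e1 : fderiv ℝ (slope f) q - fderiv ℝ (slope g) q = fderiv ℝ (fun p => slope f p - slope g p) q :=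
    (fderiv_fun_sub hsf hsg).symm
  have d3 : ‖fderiv ℝ (slope f) q - fderiv ℝ (slope g) q‖ ≤ Cl * (2 + 4 * M) * S := by
    rw [e1]
    refine norm_fderiv_le.trans ?_
    have e2 : dz (fun p => slope f p - slope g p) q = dz (slope f) q - dz (slope g) q := by
      unfold dz; rw [fderiv_fun_sub hsf hsg]; rfl
    have e3 : dt (fun p => slope f p - slope g p) q = dt (slope f) q - dt (slope g) q := by
      unfold dt; rw [fderiv_fun_sub hsf hsg]; rfl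
    rw [e2, e3]
    have hn : ∀ {u : ℝ × ℝ → ℝ}, ‖fderiv ℝ u q‖ ≤ M → |dt u q| ≤ M := by
      intro u hu
      have h5 := (fderiv ℝ u q).le_opNorm ((0 : ℝ), (1 : ℝ))
      have : ‖((0 : ℝ), (1 : ℝ))‖ = 1 := by simp [Prod.norm_def]
      rw [this, mul_one] at h5
      exact (Real.norm_eq_abs _ ▸ h5).trans hu
    have h6 : |dz (slope f) q - dz (slope g) q| ≤ Cl * (1 + 4 * M) * S := by
      refine l3.trans ?_
      refine mul_le_mul_of_nonneg_right ?_ hS0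
      refine mul_le_mul_of_nonneg_left ?_ hCl
      have := hn hf.dsl
      have := hn hg.dsl
      linarith [hf.sl, hg.sl]
    calc _ ≤ Cl * (1 + 4 * M) * S + Cl * S := add_le_add h6 l2
      _ = _ := by ring
  refine ⟨a1, b1, ?_, ?_⟩
  · calc ‖Gf NN f q - Gf NN g q‖ ≤ Cg * |slope f q - slope g q| := a5
      _ ≤ Cg * (Cl / (|dt f q| * |dt g q|)) := mul_le_mul_of_nonneg_left d1 hCg
      _ = Cg * Cl * 1 / (|dt f q| * |dt g q|) := by ring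
      _ ≤ Cg * Cl * (r0 + 2 + 4 * M) / (|dt f q| * |dt g q|) := by
          refine div_le_div_of_nonneg_right ?_ hS.le
          refine mul_le_mul_of_nonneg_left ?_ (by positivity)
          linarith
  · calc ‖fderiv ℝ (Gf NN f) q - fderiv ℝ (Gf NN g) q‖
        ≤ Cg * (|slope f q - slope g q| + ‖fderiv ℝ (slope f) q - fderiv ℝ (slope g) q‖) := a6
      _ ≤ Cg * (Cl * r0 * S + Cl * (2 + 4 * M) * S) :=
          mul_le_mul_of_nonneg_left (add_le_add (d1.trans d2) d3) hCg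
      _ = _ := by ring

end

end TM
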