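import Pool.Agent.Helper55.TM.Blend2

/-!
# MP_fc8395_an : blending, part 3 (the increments are small)
-/

set_option autoImplicit false

open scoped ContDiff Topology
open Filter Set

namespace TM

/-- All the facts needed at the point `q` (time `n ≥ N' ≥ N0`). -/
structure BCtx (e : ℝ) (k : ℕ → ℕ) (c : Cut e) (NN : (ℝ × ℝ) × ℝ → ℝ) (N0 N' i : ℕ)
    (M L C1 cr r Λ : ℝ) (q : ℝ × ℝ) : Prop where
  he : 0 < e
  hk : ∀ i, 1 ≤ k i
  hq : q ∈ Dom
  hN0 : N0 ≤ N'
  hN' : N' ≤ N0 + i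
  ha1 : |F e k N' q| < c.a1
  hM : 0 ≤ M
  hL : 0 ≤ L
  hLb : ∀ y, ‖deriv c.χ y‖ ≤ L
  hC1 : 0 ≤ C1
  hcr : 0 < cr
  hcr1 : cr ≤ 1
  hr : 0 < r
  hΛ : 0 < Λ
  gF : ∀ m, N' ≤ m → N0 + i ≤ m + 1 → |F e k m q| ≤ B e → GV e M r Λ (F e k m) q
  gT : ∀ m, N' < m → N0 + i ≤ m → ∀ j, |Ft e k m j q| ≤ B e → GV e M r Λ (Ft e k m j) q
  lk1 : ∀ n j, (1 ≤ n ∨ 1 ≤ j) → GV e M r Λ (Ft e k n j) q → GV e M r Λ (F e k n) q →
    C1c q (Gf NN (Ft e k n j)) (Gf NN (F e k n)) (C1 / (|dt (Ft e k n j) q| * |dt (F e k n) q|))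
      (C1 * (1 / |dt (Ft e k n j) q| + 1 / |dt (F e k n) q|))
  lk2 : ∀ n j, (1 ≤ n ∨ 1 ≤ j) → GV e M r Λ (Ft e k n j) q → GV e M r Λ (Ft e k n (j + 1)) q →
    C1c q (Gf NN (Ft e k n j)) (Gf NN (Ft e k n (j + 1)))
      (C1 / (|dt (Ft e k n j) q| * |dt (Ft e k n (j + 1)) q|))
      (C1 * (1 / |dt (Ft e k n j) q| + 1 / |dt (Ft e k n (j + 1)) q|))
  grow : ∀ n J, |F e k n q| < 1 → 1 ≤ |F e k (n + 1) q| → |Ft e k (n + 1) J q| ≤ B e → ∀ j ≤ J,
    cr * Real.sqrt (1 + e ^ 2) ^ j * |dt (F e k n) q| ≤ |dt (Ft e k (n + 1) j) q|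
  dS : ∀ i', DifferentiableAt ℝ (sN e k c.χ NN N0 i') q

section

variable {e : ℝ} {k : ℕ → ℕ} {c : Cut e} {NN : (ℝ × ℝ) × ℝ → ℝ} {N0 N' i : ℕ}
  {M L C1 cr r Λ : ℝ} {q : ℝ × ℝ}

lemma sqrtE_pos : 0 < Real.sqrt (1 + e ^ 2) := Real.sqrt_pos.2 (by positivity)

lemma one_lt_sqrtE (he : 0 < e) : 1 < Real.sqrt (1 + e ^ 2) := by
  have := one_lt_V he
  unfold V at this
  exact this

lemma Psi_z_lt (hq : q ∈ Dom) : |(Psi e q.1 q.2).2.2| < 1 := by
  obtain ⟨v, h1, h2, _⟩ := tangent_data (e := e) hq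
  exact h2

lemma BCtx.pair (h : BCtx e k c NN N0 N' i M L C1 cr r Λ q) {n N : ℕ} (hnN : n + 1 < N)
    (hN : |F e k N q| ≤ B e) (h1 : 1 ≤ |F e k (n + 1) q|) : |F e k n q| < 1 :=
  pair_lt h.he h.hk (Psi_mem h.hq) (Psi_z_lt h.hq) hnN (B_lt_V' h.he hN) h1

/-- The same with an intermediate value at the end. -/
lemma BCtx.pairT (h : BCtx e k c NN N0 N' i M L C1 cr r Λ q) {n j : ℕ} (hj : 1 ≤ j)
    (hN : |Ft e k (n + 1) j q| ≤ B e) (h1 : 1 ≤ |F e k (n + 1) q|) : |F e k n q| < 1 := by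
  have h2 := pair_lt (k := Function.update k (n + 1) j) (n := n) (N := n + 2) h.he
    (update_pos h.hk _ hj) (Psi_mem (e := e) h.hq) (Psi_z_lt h.hq) (by omega)
  have e1 : yv (Function.update k (n + 1) j) (n + 2) (Psi e q.1 q.2) = Ft e k (n + 1) j q :=
    (tv_update k (n + 1) j _).symm
  have e2 : yv (Function.update k (n + 1) j) (n + 1) (Psi e q.1 q.2) = F e k (n + 1) q :=
    yv_update le_rfl _
  have e3 : yv (Function.update k (n + 1) j) n (Psi e q.1 q.2) = F e k n q :=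
    yv_update (by omega) _
  rw [e1, e2, e3] at h2
  exact h2 (B_lt_V' h.he hN) h1

lemma BCtx.rim (h : BCtx e k c NN N0 N' i M L C1 cr r Λ q) {n : ℕ} (h0 : |F e k n q| < 1)
    (h1 : 1 ≤ |F e k (n + 1) q|) {J : ℕ} (hJ : |Ft e k (n + 1) J q| ≤ B e) {j : ℕ} (hj : 0 < j)
    (hjJ : j < J) : |Ft e k (n + 1) j q| < 1 := by
  refine rim_lt h.he (Psi_mem h.hq) (n + 1) h1 ?_ (B_lt_V' h.he hJ) hj hjJ
  rw [orb_succ_z]; exact h0

lemma lt_a1 {x : ℝ} (h : |x| < 1) : |x| < c.a1 := h.trans c.one_lt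

/-- (A2) the state at a time with `|y| > 1`. -/
lemma BCtx.stateA2 (h : BCtx e k c NN N0 N' i M L C1 cr r Λ q) {i' : ℕ}
    (h1 : 1 ≤ |F e k (N0 + i' + 1) q|) (h2 : |F e k (N0 + i' + 2) q| ≤ B e) :
    |Ft e k (N0 + i' + 1) (k (N0 + i' + 1) - 1) q| < 1 ∧
    sN e k c.χ NN N0 (i' + 1) =ᶠ[𝓝 q] fun p =>
      c.χ (F e k (N0 + i' + 1) p) • Gf NN (F e k (N0 + i' + 1)) p
        + (1 - c.χ (F e k (N0 + i' + 1) p)) •
          Gf NN (Ft e k (N0 + i' + 1) (k (N0 + i' + 1) - 1)) p := by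
  have h0 : |F e k (N0 + i') q| < 1 := h.pair (by omega) h2 h1
  have hk1 := h.hk (N0 + i' + 1)
  have ht : |Ft e k (N0 + i' + 1) (k (N0 + i' + 1) - 1) q| < 1 := by
    rcases Nat.eq_zero_or_pos (k (N0 + i' + 1) - 1) with h3 | h3
    · rw [h3, Ft_zero]; exact h0
    · refine h.rim h0 h1 (J := k (N0 + i' + 1)) ?_ h3 (by omega)
      rw [Ft_k]; exact h2
  refine ⟨ht, ?_⟩
  have hs : sN e k c.χ NN N0 i' =ᶠ[𝓝 q] Gf NN (Ft e k (N0 + i' + 1) 0) := by
    rw [Ft_zero]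
    exact stateA1 h.hq i' (lt_a1 h0)
  have hr := rim_one (c := c) h.hq (n := N0 + i' + 1) (J := k (N0 + i' + 1) - 1) hs
    (Or.inr (lt_a1 ht))
  filter_upwards [hr] with p hp
  rw [sN_succ, hp]

/-- Constant for the closeness of the state to the next value. -/
noncomputable def K2 (M L C1 : ℝ) : ℝ := L * (1 + M) * C1 + 2 * C1

lemma K2_nonneg (hM : 0 ≤ M) (hL : 0 ≤ L) (hC1 : 0 ≤ C1) : 0 ≤ K2 M L C1 := by
  unfold K2; positivity

lemma div_mul_le {C a b r : ℝ} (hC : 0 ≤ C) (ha : 0 < a) (hb : 0 < b) (h : 1 / a ≤ r) :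
    C / (a * b) ≤ C * r / b := by
  have h1 : C / (a * b) = C * (1 / a) / b := by field_simp
  rw [h1]
  exact div_le_div_of_nonneg_right (mul_le_mul_of_nonneg_left h hC) hb.le

/-- (P) the state is close to the next value. -/
lemma BCtx.close (h : BCtx e k c NN N0 N' i M L C1 cr r Λ q)
    (h2 : |F e k (N0 + i + 1) q| ≤ B e) :
    C1c q (sN e k c.χ NN N0 i) (Gf NN (F e k (N0 + i + 1)))
      (K2 M L C1 * r / |dt (F e k (N0 + i + 1)) q|) (K2 M L C1 * r) := by
  have hC1 := h.hC1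
  have hM := h.hM
  have hL := h.hL
  have hr := h.hr
  have hB1 := c.a1_lt_B
  have g2 : GV e M r Λ (F e k (N0 + i + 1)) q :=
    h.gF _ (by have := h.hN'; omega) (by omega) h2
  have hK : 2 * C1 ≤ K2 M L C1 := by
    unfold K2
    have : 0 ≤ L * (1 + M) * C1 := by positivity
    linarith
  have hK' : C1 ≤ K2 M L C1 := by linarith
  by_cases h1 : |F e k (N0 + i) q| < c.a1
  · have g1 : GV e M r Λ (F e k (N0 + i)) q := h.gF _ h.hN' (by omega) (h1.trans hB1).le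
    have hs := stateA1 (NN := NN) h.hq i h1
    have hl := h.lk1 (N0 + i + 1) 0 (Or.inl (by omega)) (by rw [Ft_zero]; exact g1) g2
    rw [Ft_zero] at hl
    refine (hl.congr hs EventuallyEq.rfl).mono ?_ ?_
    · refine (div_mul_le hC1 g1.pos g2.pos g1.inv).trans ?_
      exact div_le_div_of_nonneg_right (mul_le_mul_of_nonneg_right hK' hr.le) g2.pos.le
    · calc C1 * (1 / |dt (F e k (N0 + i)) q| + 1 / |dt (F e k (N0 + i + 1)) q|)
          ≤ C1 * (r + r) := mul_le_mul_of_nonneg_left (add_le_add g1.inv g2.inv) hC1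
        _ = 2 * C1 * r := by ring
        _ ≤ _ := mul_le_mul_of_nonneg_right hK hr.le
  · have h1' : c.a1 ≤ |F e k (N0 + i) q| := not_lt.1 h1
    have hne : N' ≠ N0 + i := by
      rintro rfl
      exact h1 h.ha1
    have hlt : N' < N0 + i := lt_of_le_of_ne h.hN' hne
    obtain ⟨i', rfl⟩ : ∃ i', i = i' + 1 := ⟨i - 1, by have := h.hN0; omega⟩
    have h11 : 1 ≤ |F e k (N0 + i' + 1) q| := c.one_lt.le.trans h1'
    obtain ⟨ht, hs⟩ := h.stateA2 h11 h2
    set t : ℝ × ℝ → ℝ := Ft e k (N0 + i' + 1) (k (N0 + i' + 1) - 1) with htdef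
    have gt : GV e M r Λ t q := h.gT _ hlt le_rfl _ (ht.trans (one_lt_B h.he)).le
    have hk1 := h.hk (N0 + i' + 1)
    have lt2 : C1c q (Gf NN t) (Gf NN (F e k (N0 + (i' + 1) + 1)))
        (C1 / (|dt t q| * |dt (F e k (N0 + (i' + 1) + 1)) q|))
        (C1 * (1 / |dt t q| + 1 / |dt (F e k (N0 + (i' + 1) + 1)) q|)) := by
      have e1 : k (N0 + i' + 1) - 1 + 1 = k (N0 + i' + 1) := by omega
      have e2 : Ft e k (N0 + i' + 1) (k (N0 + i' + 1) - 1 + 1) = F e k (N0 + (i' + 1) + 1) := by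
        rw [e1, Ft_k]; rfl
      have := h.lk2 (N0 + i' + 1) (k (N0 + i' + 1) - 1) (Or.inl (by omega)) gt
        (by rw [e2]; exact g2)
      rw [e2] at this
      exact this
    by_cases hB : |F e k (N0 + i' + 1) q| ≤ B e
    · have g1 : GV e M r Λ (F e k (N0 + i' + 1)) q := h.gF _ hlt.le (by omega) hB
      have l1 := (h.lk1 (N0 + i' + 1) (k (N0 + i' + 1) - 1) (Or.inl (by omega)) gt g1).symm
      have l2 := h.lk1 (N0 + (i' + 1) + 1) 0 (Or.inl (by omega))
        (by rw [Ft_zero]; exact g1) g2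
      rw [Ft_zero] at l2
      obtain ⟨w1, w2⟩ := c.weight h.hLb g1.dif
      have w3 : ‖fderiv ℝ (fun p => c.χ (F e k (N0 + i' + 1) p)) q‖
          ≤ L * ((1 + M) * |dt (F e k (N0 + i' + 1)) q|) :=
        w2.trans (mul_le_mul_of_nonneg_left g1.grad hL)
      have hu := C1c.update w1 (c.nonneg _) (c.le_one _) w3 l1 l2 lt2
      refine (hu.congr hs EventuallyEq.rfl).mono ?_ ?_
      · refine max_le ?_ ?_
        · refine (div_mul_le hC1 g1.pos g2.pos g1.inv).trans ?_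
          exact div_le_div_of_nonneg_right (mul_le_mul_of_nonneg_right hK' hr.le) g2.pos.le
        · refine (div_mul_le hC1 gt.pos g2.pos gt.inv).trans ?_
          exact div_le_div_of_nonneg_right (mul_le_mul_of_nonneg_right hK' hr.le) g2.pos.le
      · have a1 : L * ((1 + M) * |dt (F e k (N0 + i' + 1)) q|) *
            (C1 / (|dt t q| * |dt (F e k (N0 + i' + 1)) q|)) = L * (1 + M) * C1 * (1 / |dt t q|) := by
          have := g1.pos.ne'
          have := gt.pos.ne'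
          field_simp
        have a2 : L * (1 + M) * C1 * (1 / |dt t q|) ≤ L * (1 + M) * C1 * r :=
          mul_le_mul_of_nonneg_left gt.inv (by positivity)
        have a3 : max (C1 * (1 / |dt (F e k (N0 + i' + 1)) q|
            + 1 / |dt (F e k (N0 + (i' + 1) + 1)) q|))
            (C1 * (1 / |dt t q| + 1 / |dt (F e k (N0 + (i' + 1) + 1)) q|)) ≤ 2 * C1 * r := by
          refine max_le ?_ ?_
          · have := mul_le_mul_of_nonneg_left (add_le_add g1.inv g2.inv) hC1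
            linarith
          · have := mul_le_mul_of_nonneg_left (add_le_add gt.inv g2.inv) hC1
            linarith
        rw [a1]
        refine (add_le_add a2 a3).trans (le_of_eq ?_)
        unfold K2
        ring
    · have hz : c.a2 < |F e k (N0 + i' + 1) q| := c.lt_B.trans (not_le.1 hB)
      have hs' : sN e k c.χ NN N0 (i' + 1) =ᶠ[𝓝 q] Gf NN t :=
        hs.trans (upd_zero (contAt_F h.hq _) hz _)
      refine (lt2.congr hs' EventuallyEq.rfl).mono ?_ ?_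
      · refine (div_mul_le hC1 gt.pos g2.pos gt.inv).trans ?_
        exact div_le_div_of_nonneg_right (mul_le_mul_of_nonneg_right hK' hr.le) g2.pos.le
      · calc C1 * (1 / |dt t q| + 1 / |dt (F e k (N0 + (i' + 1) + 1)) q|)
            ≤ C1 * (r + r) := mul_le_mul_of_nonneg_left (add_le_add gt.inv g2.inv) hC1
          _ = 2 * C1 * r := by ring
          _ ≤ _ := mul_le_mul_of_nonneg_right hK hr.le

/-- Telescoping along a rim. -/
lemma BCtx.tele (h : BCtx e k c NN N0 N' i M L C1 cr r Λ q)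
    (h0 : |F e k (N0 + i) q| < 1) (h1 : 1 ≤ |F e k (N0 + i + 1) q|) (J : ℕ)
    (hJ : |Ft e k (N0 + i + 1) J q| ≤ B e) :
    C1c q (Gf NN (Ft e k (N0 + i + 1) J)) (Gf NN (Ft e k (N0 + i + 1) 0))
      (C1 / cr * (∑ j ∈ Finset.range J, (1 / Real.sqrt (1 + e ^ 2)) ^ j) * r / Λ)
      (2 * C1 / cr * (∑ j ∈ Finset.range J, (1 / Real.sqrt (1 + e ^ 2)) ^ j) * r) := by
  have hC1 := h.hC1
  have hr := h.hr
  have hΛ := h.hΛ
  have hcr := h.hcr
  have hE := one_lt_sqrtE h.he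
  have hE0 : 0 < Real.sqrt (1 + e ^ 2) := sqrtE_pos
  have g0 : GV e M r Λ (F e k (N0 + i)) q :=
    h.gF _ h.hN' (by omega) (h0.trans (one_lt_B h.he)).le
  induction J with
  | zero =>
    have gz := h.gT (N0 + i + 1) (by have := h.hN'; omega) (by omega) 0 hJ
    have hd : DifferentiableAt ℝ (Gf NN (Ft e k (N0 + i + 1) 0)) q := by
      have g2 := h.dS i
      have hs := stateA1 (c := c) (NN := NN) h.hq i (lt_a1 h0)
      rw [Ft_zero]
      exact hs.differentiableAt_iff.1 g2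
    simpa using C1c.refl hd
  | succ J ih =>
    have hJ' : |Ft e k (N0 + i + 1) J q| ≤ B e := by
      rcases Nat.eq_zero_or_pos J with rfl | hJ0
      · rw [Ft_zero]; exact (h0.trans (one_lt_B h.he)).le
      · exact ((h.rim h0 h1 hJ hJ0 (Nat.lt_succ_self J)).trans (one_lt_B h.he)).le
    have ga := h.gT (N0 + i + 1) (by have := h.hN'; omega) (by omega) J hJ'
    have gb := h.gT (N0 + i + 1) (by have := h.hN'; omega) (by omega) (J + 1) hJ
    have hl := (h.lk2 (N0 + i + 1) J (Or.inl (by omega)) ga gb).symm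
    have gr1 := h.grow (N0 + i) (J + 1) h0 h1 hJ J (by omega)
    have gr2 := h.grow (N0 + i) (J + 1) h0 h1 hJ (J + 1) le_rfl
    set ρ : ℝ := 1 / Real.sqrt (1 + e ^ 2) with hρ
    have hρ0 : 0 < ρ := by positivity
    have hρ1 : ρ ≤ 1 := by rw [hρ, div_le_one hE0]; exact hE.le
    have hinv : ∀ {j : ℕ} {G : ℝ}, cr * Real.sqrt (1 + e ^ 2) ^ j * |dt (F e k (N0 + i)) q| ≤ G →
        1 / G ≤ ρ ^ j * r / cr := by
      intro j G hG
      have hp : 0 < cr * Real.sqrt (1 + e ^ 2) ^ j * |dt (F e k (N0 + i)) q| := by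
        have := g0.pos
        positivity
      calc 1 / G ≤ 1 / (cr * Real.sqrt (1 + e ^ 2) ^ j * |dt (F e k (N0 + i)) q|) :=
            one_div_le_one_div_of_le hp hG
        _ = ρ ^ j * (1 / |dt (F e k (N0 + i)) q|) / cr := by
            rw [hρ, one_div_pow]
            have := g0.pos.ne'
            field_simp
        _ ≤ ρ ^ j * r / cr := by
            refine div_le_div_of_nonneg_right ?_ hcr.le
            exact mul_le_mul_of_nonneg_left g0.inv (by positivity)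
    have i1 : 1 / |dt (Ft e k (N0 + i + 1) J) q| ≤ ρ ^ J * r / cr := hinv gr1
    have i2 : 1 / |dt (Ft e k (N0 + i + 1) (J + 1)) q| ≤ ρ ^ J * r / cr := by
      refine (hinv gr2).trans ?_
      refine div_le_div_of_nonneg_right ?_ hcr.le
      refine mul_le_mul_of_nonneg_right ?_ hr.le
      rw [pow_succ]
      have : (0 : ℝ) ≤ ρ ^ J := by positivity
      nlinarith
    have i3 : 1 / |dt (Ft e k (N0 + i + 1) (J + 1)) q| ≤ 1 / Λ :=
      one_div_le_one_div_of_le hΛ gb.low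
    refine (hl.trans (ih hJ')).mono ?_ ?_
    · rw [Finset.sum_range_succ]
      have a1 : C1 / (|dt (Ft e k (N0 + i + 1) J) q| * |dt (Ft e k (N0 + i + 1) (J + 1)) q|)
          ≤ C1 / cr * ρ ^ J * r / Λ := by
        have : C1 / (|dt (Ft e k (N0 + i + 1) J) q| * |dt (Ft e k (N0 + i + 1) (J + 1)) q|)
            = C1 * ((1 / |dt (Ft e k (N0 + i + 1) J) q|) *
              (1 / |dt (Ft e k (N0 + i + 1) (J + 1)) q|)) := by
          have := ga.pos.ne'
          have := gb.pos.ne'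
          field_simp
        rw [this]
        have a2 : (1 / |dt (Ft e k (N0 + i + 1) J) q|) *
              (1 / |dt (Ft e k (N0 + i + 1) (J + 1)) q|) ≤ (ρ ^ J * r / cr) * (1 / Λ) :=
          mul_le_mul i1 i3 (by positivity) (by positivity)
        calc _ ≤ C1 * ((ρ ^ J * r / cr) * (1 / Λ)) := mul_le_mul_of_nonneg_left a2 hC1
          _ = _ := by ring
      have a4 : C1 / (|dt (Ft e k (N0 + i + 1) (J + 1)) q| * |dt (Ft e k (N0 + i + 1) J) q|)
          ≤ C1 / cr * ρ ^ J * r / Λ := by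
        rw [mul_comm (|dt (Ft e k (N0 + i + 1) (J + 1)) q|)]; exact a1
      calc _ ≤ C1 / cr * ρ ^ J * r / Λ
            + C1 / cr * (∑ j ∈ Finset.range J, ρ ^ j) * r / Λ := by
              have := a1
              linarith
        _ = _ := by ring
    · rw [Finset.sum_range_succ]
      have a1 : C1 * (1 / |dt (Ft e k (N0 + i + 1) J) q|
          + 1 / |dt (Ft e k (N0 + i + 1) (J + 1)) q|) ≤ 2 * C1 / cr * ρ ^ J * r := by
        calc _ ≤ C1 * (ρ ^ J * r / cr + ρ ^ J * r / cr) :=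
              mul_le_mul_of_nonneg_left (add_le_add i1 i2) hC1
          _ = _ := by ring
      calc _ ≤ 2 * C1 / cr * ρ ^ J * r
            + 2 * C1 / cr * (∑ j ∈ Finset.range J, ρ ^ j) * r := by
              have := a1
              linarith
        _ = _ := by ring

end

end TM
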