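import Pool.Agent.Helper55.TM.Blend3

/-!
# MP_fc8395_an : blending, part 4 (the increment estimate)
-/

set_option autoImplicit false

open scoped ContDiff Topology
open Filter Set

namespace TM

/-- Bound for the geometric sums. -/
noncomputable def S0 (e : ℝ) : ℝ := 1 / (1 - 1 / Real.sqrt (1 + e ^ 2))

lemma geo_le {e : ℝ} (he : 0 < e) (J : ℕ) :
    (∑ j ∈ Finset.range J, (1 / Real.sqrt (1 + e ^ 2)) ^ j) ≤ S0 e := by
  have hE := one_lt_sqrtE he
  have hE0 : 0 < Real.sqrt (1 + e ^ 2) := sqrtE_pos
  set ρ : ℝ := 1 / Real.sqrt (1 + e ^ 2) with hρ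
  have hρ0 : 0 < ρ := by positivity
  have hρ1 : ρ < 1 := by rw [hρ, div_lt_one hE0]; exact hE
  have h1 : (∑ j ∈ Finset.range J, ρ ^ j) = (1 - ρ ^ J) / (1 - ρ) := by
    rw [geom_sum_eq hρ1.ne, ← neg_div_neg_eq]; ring_nf
  rw [h1]
  unfold S0
  rw [← hρ]
  refine div_le_div_of_nonneg_right ?_ (by linarith)
  have : 0 ≤ ρ ^ J := by positivity
  linarith

lemma S0_nonneg {e : ℝ} (he : 0 < e) : 0 ≤ S0 e := by
  have := geo_le he 0
  simpa using this

/-- The final constant. -/
noncomputable def K4 (e M L C1 cr : ℝ) : ℝ :=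
  L * (1 + M) * K2 M L C1 + L * (1 + M) * C1 + 2 * C1 / cr * S0 e + 2 * C1 + K2 M L C1

section

variable {e : ℝ} {k : ℕ → ℕ} {c : Cut e} {NN : (ℝ × ℝ) × ℝ → ℝ} {N0 N' i : ℕ}
  {M L C1 cr r Λ : ℝ} {q : ℝ × ℝ}

lemma BCtx.tele' (h : BCtx e k c NN N0 N' i M L C1 cr r Λ q)
    (h0 : |F e k (N0 + i) q| < 1) (h1 : 1 ≤ |F e k (N0 + i + 1) q|) (J : ℕ)
    (hJ : |Ft e k (N0 + i + 1) J q| ≤ B e) :
    C1c q (Gf NN (Ft e k (N0 + i + 1) J)) (Gf NN (Ft e k (N0 + i + 1) 0))
      (2 * C1 / cr * S0 e * r / Λ) (2 * C1 / cr * S0 e * r) := by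
  have hC1 := h.hC1
  have hr := h.hr
  have hΛ := h.hΛ
  have hcr := h.hcr
  have hg := geo_le h.he J
  have hs0 : 0 ≤ (∑ j ∈ Finset.range J, (1 / Real.sqrt (1 + e ^ 2)) ^ j) :=
    Finset.sum_nonneg fun j _ => by positivity
  refine (h.tele h0 h1 J hJ).mono ?_ ?_
  · refine div_le_div_of_nonneg_right ?_ hΛ.le
    refine mul_le_mul_of_nonneg_right ?_ hr.le
    refine mul_le_mul ?_ hg hs0 (by positivity)
    refine div_le_div_of_nonneg_right ?_ hcr.le
    linarith
  · refine mul_le_mul_of_nonneg_right ?_ hr.le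
    exact mul_le_mul_of_nonneg_left hg (by positivity)

/-- (Q) the increment. -/
theorem BCtx.inc (h : BCtx e k c NN N0 N' i M L C1 cr r Λ q) :
    C1c q (sN e k c.χ NN N0 (i + 1)) (sN e k c.χ NN N0 i) (K4 e M L C1 cr * r / Λ)
      (K4 e M L C1 cr * r) := by
  have hC1 := h.hC1
  have hM := h.hM
  have hL := h.hL
  have hr := h.hr
  have hΛ := h.hΛ
  have hcr := h.hcr
  have hq := h.hq
  have hS0 := S0_nonneg h.he
  have hB1 := c.a1_lt_B
  have hK2 := K2_nonneg hM hL hC1
  have hT : 0 ≤ 2 * C1 / cr * S0 e := by positivity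
  have hLM : 0 ≤ L * (1 + M) := by positivity
  have p1 : 0 ≤ L * (1 + M) * K2 M L C1 := by positivity
  have p2 : 0 ≤ L * (1 + M) * C1 := by positivity
  -- monotonicity helpers
  have hmx : ∀ {X : ℝ}, X ≤ K4 e M L C1 cr → X * r / Λ ≤ K4 e M L C1 cr * r / Λ := fun hX =>
    div_le_div_of_nonneg_right (mul_le_mul_of_nonneg_right hX hr.le) hΛ.le
  have hmy : ∀ {X : ℝ}, X ≤ K4 e M L C1 cr → X * r ≤ K4 e M L C1 cr * r := fun hX =>
    mul_le_mul_of_nonneg_right hX hr.le
  have hK4a : K2 M L C1 ≤ K4 e M L C1 cr := by unfold K4; linarith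
  have hK4b : 0 ≤ K4 e M L C1 cr := hK2.trans hK4a
  have hGx : ∀ {X G : ℝ}, 0 ≤ X → Λ ≤ G → X * r / G ≤ X * r / Λ := fun {X G} hX hG =>
    div_le_div_of_nonneg_left (mul_nonneg hX hr.le) hΛ hG
  set n' : ℕ := N0 + i + 1 with hn'
  have hsucc : sN e k c.χ NN N0 (i + 1) = fun p => c.χ (F e k n' p) • Gf NN (F e k n') p
      + (1 - c.χ (F e k n' p)) • rN e k c.χ NN n' (k n' - 1) (sN e k c.χ NN N0 i) p := rfl
  by_cases hI : |F e k n' q| < c.a1
  · -- case I
    have g2 : GV e M r Λ (F e k n') q :=
      h.gF _ (by have := h.hN'; omega) (by omega) (hI.trans hB1).le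
    have hP := h.close (hI.trans hB1).le
    have hs : sN e k c.χ NN N0 (i + 1) =ᶠ[𝓝 q] Gf NN (F e k n') := by
      rw [hsucc]; exact upd_one (contAt_F hq _) hI _
    refine (hP.symm.congr hs EventuallyEq.rfl).mono ?_ ?_
    · exact (hGx hK2 g2.low).trans (hmx hK4a)
    · exact hmy hK4a
  have h1 : 1 ≤ |F e k n' q| := c.one_lt.le.trans (not_lt.1 hI)
  by_cases hIIa : |F e k (N0 + i) q| < 1
  · -- case II-a
    have g1 : GV e M r Λ (F e k (N0 + i)) q := h.gF _ h.hN' (by omega)
      (hIIa.trans (one_lt_B h.he)).le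
    have hs : sN e k c.χ NN N0 i =ᶠ[𝓝 q] Gf NN (Ft e k n' 0) := by
      rw [hn', Ft_zero]
      exact stateA1 hq i (lt_a1 hIIa)
    -- the largest active index
    obtain ⟨J, hJK, hJ1, hJ2⟩ : ∃ J, J ≤ k n' - 1 ∧ |Ft e k n' J q| ≤ B e ∧
        ∀ j, J < j → j ≤ k n' - 1 → B e < |Ft e k n' j q| := by
      classical
      set P : ℕ → Prop := fun j => |Ft e k n' j q| ≤ B e with hP
      have hP0 : P 0 := by
        show |Ft e k n' 0 q| ≤ B e
        rw [hn', Ft_zero]; exact g1.le_B
      refine ⟨Nat.findGreatest P (k n' - 1), Nat.findGreatest_le _, ?_, ?_⟩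
      · exact Nat.findGreatest_spec (P := P) (Nat.zero_le _) hP0
      · intro j hj hj2
        exact not_le.1 (Nat.findGreatest_is_greatest hj hj2)
    have hrim := rim_zero (c := c) (NN := NN) hq (n := n') hJK (sN e k c.χ NN N0 i)
      (fun j hj hj2 => c.lt_B.trans (hJ2 j hj hj2))
    set R : ℝ × ℝ → ℝ × ℝ := rN e k c.χ NN n' (k n' - 1) (sN e k c.χ NN N0 i) with hR
    -- facts on the rim part
    have hRs : C1c q R (sN e k c.χ NN N0 i) (2 * C1 / cr * S0 e * r / Λ)
        ((L * (1 + M) * C1 + 2 * C1 / cr * S0 e) * r) ∧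
        (∀ _ : |F e k n' q| ≤ B e, C1c q R (Gf NN (F e k n'))
          (K2 M L C1 * r / |dt (F e k n') q|) (K2 M L C1 * r)) := by
      cases J with
      | zero =>
        have hR0 : R =ᶠ[𝓝 q] sN e k c.χ NN N0 i := hrim
        have hR1 := hR0.trans hs
        constructor
        · have := (h.tele' hIIa h1 0 hJ1).congr hR1 hs
          refine this.mono le_rfl ?_
          refine mul_le_mul_of_nonneg_right ?_ hr.le
          linarith
        · intro hB
          have g2 : GV e M r Λ (F e k n') q :=
            h.gF _ (by have := h.hN'; omega) (by omega) hB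
          have g0 : GV e M r Λ (Ft e k n' 0) q := by rw [hn', Ft_zero]; exact g1
          have hl := h.lk1 n' 0 (Or.inl (by omega)) g0 g2
          refine (hl.congr hR1 EventuallyEq.rfl).mono ?_ ?_
          · refine (div_mul_le hC1 g0.pos g2.pos g0.inv).trans ?_
            refine div_le_div_of_nonneg_right (mul_le_mul_of_nonneg_right ?_ hr.le) g2.pos.le
            unfold K2; linarith
          · have := mul_le_mul_of_nonneg_left (add_le_add g0.inv g2.inv) hC1
            refine this.trans ?_
            have : C1 * (r + r) = 2 * C1 * r := by ring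
            rw [this]
            refine mul_le_mul_of_nonneg_right ?_ hr.le
            unfold K2; linarith
      | succ J =>
        have hJ' : |Ft e k n' J q| ≤ B e ∧ (J = 0 ∨ |Ft e k n' J q| < c.a1) := by
          rcases Nat.eq_zero_or_pos J with rfl | hJ0
          · refine ⟨?_, Or.inl rfl⟩
            rw [hn', Ft_zero]; exact g1.le_B
          · have := h.rim hIIa h1 hJ1 hJ0 (Nat.lt_succ_self J)
            exact ⟨(this.trans (one_lt_B h.he)).le, Or.inr (lt_a1 this)⟩
        have hRJ := rim_one (c := c) (NN := NN) hq (n := n') (J := J) hs hJ'.2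
        have hR1 : R =ᶠ[𝓝 q] fun p => c.χ (Ft e k n' (J + 1) p) • Gf NN (Ft e k n' (J + 1)) p
            + (1 - c.χ (Ft e k n' (J + 1) p)) • Gf NN (Ft e k n' J) p := by
          refine hrim.trans ?_
          filter_upwards [hRJ] with p hp
          rw [rN_succ, hp]
        have ga := h.gT n' (by have := h.hN'; omega) (by omega) J hJ'.1
        have gb := h.gT n' (by have := h.hN'; omega) (by omega) (J + 1) hJ1
        have l1 := (h.lk2 n' J (Or.inl (by omega)) ga gb).symm
        obtain ⟨w1, w2⟩ := c.weight h.hLb gb.dif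
        have w3 : ‖fderiv ℝ (fun p => c.χ (Ft e k n' (J + 1) p)) q‖
            ≤ L * ((1 + M) * |dt (Ft e k n' (J + 1)) q|) :=
          w2.trans (mul_le_mul_of_nonneg_left gb.grad hL)
        have a1 : L * ((1 + M) * |dt (Ft e k n' (J + 1)) q|) *
            (C1 / (|dt (Ft e k n' J) q| * |dt (Ft e k n' (J + 1)) q|))
            = L * (1 + M) * C1 * (1 / |dt (Ft e k n' J) q|) := by
          have := ga.pos.ne'
          have := gb.pos.ne'
          field_simp
        have a2 : L * (1 + M) * C1 * (1 / |dt (Ft e k n' J) q|) ≤ L * (1 + M) * C1 * r :=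
          mul_le_mul_of_nonneg_left ga.inv (by positivity)
        constructor
        · have hu := C1c.update w1 (c.nonneg _) (c.le_one _) w3 l1
            (h.tele' hIIa h1 (J + 1) hJ1) (h.tele' hIIa h1 J hJ'.1)
          refine (hu.congr hR1 hs).mono (by rw [max_self]) ?_
          rw [max_self, a1]
          refine (add_le_add a2 le_rfl).trans (le_of_eq ?_)
          ring
        · intro hB
          have g2 : GV e M r Λ (F e k n') q :=
            h.gF _ (by have := h.hN'; omega) (by omega) hB
          have l2 := h.lk1 n' (J + 1) (Or.inl (by omega)) gb g2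
          have l3 := h.lk1 n' J (Or.inl (by omega)) ga g2
          have hu := C1c.update w1 (c.nonneg _) (c.le_one _) w3 l1 l2 l3
          have hK' : C1 ≤ K2 M L C1 := by unfold K2; linarith
          refine (hu.congr hR1 EventuallyEq.rfl).mono ?_ ?_
          · refine max_le ?_ ?_
            · refine (div_mul_le hC1 gb.pos g2.pos gb.inv).trans ?_
              exact div_le_div_of_nonneg_right (mul_le_mul_of_nonneg_right hK' hr.le) g2.pos.le
            · refine (div_mul_le hC1 ga.pos g2.pos ga.inv).trans ?_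
              exact div_le_div_of_nonneg_right (mul_le_mul_of_nonneg_right hK' hr.le) g2.pos.le
          · rw [a1]
            have a3 : max (C1 * (1 / |dt (Ft e k n' (J + 1)) q| + 1 / |dt (F e k n') q|))
                (C1 * (1 / |dt (Ft e k n' J) q| + 1 / |dt (F e k n') q|)) ≤ 2 * C1 * r := by
              refine max_le ?_ ?_
              · have := mul_le_mul_of_nonneg_left (add_le_add gb.inv g2.inv) hC1
                linarith
              · have := mul_le_mul_of_nonneg_left (add_le_add ga.inv g2.inv) hC1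
                linarith
            refine (add_le_add a2 a3).trans (le_of_eq ?_)
            unfold K2
            ring
    by_cases hB : |F e k n' q| ≤ B e
    · have g2 : GV e M r Λ (F e k n') q :=
        h.gF _ (by have := h.hN'; omega) (by omega) hB
      obtain ⟨w1, w2⟩ := c.weight h.hLb g2.dif
      have w3 : ‖fderiv ℝ (fun p => c.χ (F e k n' p)) q‖ ≤ L * ((1 + M) * |dt (F e k n') q|) :=
        w2.trans (mul_le_mul_of_nonneg_left g2.grad hL)
      have g0 : GV e M r Λ (Ft e k n' 0) q := by rw [hn', Ft_zero]; exact g1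
      have hl := ((h.lk1 n' 0 (Or.inl (by omega)) g0 g2).symm).congr EventuallyEq.rfl hs
      have hu := C1c.update w1 (c.nonneg _) (c.le_one _) w3 (hRs.2 hB).symm hl hRs.1
      refine (hu.congr (by rw [hsucc]) EventuallyEq.rfl).mono ?_ ?_
      · refine max_le ?_ ?_
        · have e1 : C1 / (|dt (Ft e k n' 0) q| * |dt (F e k n') q|) ≤ C1 * r / Λ :=
            (div_mul_le hC1 g0.pos g2.pos g0.inv).trans (hGx hC1 g2.low)
          refine e1.trans (hmx ?_)
          unfold K4; linarith
        · refine hmx ?_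
          unfold K4; linarith
      · have a1 : L * ((1 + M) * |dt (F e k n') q|) * (K2 M L C1 * r / |dt (F e k n') q|)
            = L * (1 + M) * K2 M L C1 * r := by
          have := g2.pos.ne'
          field_simp
        rw [a1]
        have a3 : max (C1 * (1 / |dt (Ft e k n' 0) q| + 1 / |dt (F e k n') q|))
            ((L * (1 + M) * C1 + 2 * C1 / cr * S0 e) * r)
            ≤ (L * (1 + M) * C1 + 2 * C1 / cr * S0 e + 2 * C1) * r := by
          refine max_le ?_ ?_
          · have := mul_le_mul_of_nonneg_left (add_le_add g0.inv g2.inv) hC1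
            refine this.trans ?_
            have h5 : C1 * (r + r) = (2 * C1) * r := by ring
            rw [h5]
            refine mul_le_mul_of_nonneg_right ?_ hr.le
            linarith
          · refine mul_le_mul_of_nonneg_right ?_ hr.le
            linarith
        refine (add_le_add le_rfl a3).trans ?_
        rw [← add_mul]
        refine mul_le_mul_of_nonneg_right ?_ hr.le
        unfold K4
        linarith
    · have hz : c.a2 < |F e k n' q| := c.lt_B.trans (not_le.1 hB)
      have hs' : sN e k c.χ NN N0 (i + 1) =ᶠ[𝓝 q] R := by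
        rw [hsucc]; exact upd_zero (contAt_F hq _) hz _
      refine (hRs.1.congr hs' EventuallyEq.rfl).mono ?_ ?_
      · refine hmx ?_
        unfold K4; linarith
      · refine hmy ?_
        unfold K4; linarith
  · -- case II-b
    have hge : 1 ≤ |F e k (N0 + i) q| := not_lt.1 hIIa
    have hrim : rN e k c.χ NN n' (k n' - 1) (sN e k c.χ NN N0 i)
        =ᶠ[𝓝 q] sN e k c.χ NN N0 i := by
      refine rim_zero (c := c) (NN := NN) hq (n := n') (Nat.zero_le _) _ ?_
      intro j hj hj2
      by_contra hc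
      have hc' : |Ft e k n' j q| ≤ B e := (not_lt.1 hc).trans c.lt_B.le
      exact hIIa (h.pairT hj hc' h1)
    by_cases hB : |F e k n' q| ≤ B e
    · have g2 : GV e M r Λ (F e k n') q :=
        h.gF _ (by have := h.hN'; omega) (by omega) hB
      have hP := h.close hB
      obtain ⟨w1, w2⟩ := c.weight h.hLb g2.dif
      have w3 : ‖fderiv ℝ (fun p => c.χ (F e k n' p)) q‖ ≤ L * ((1 + M) * |dt (F e k n') q|) :=
        w2.trans (mul_le_mul_of_nonneg_left g2.grad hL)
      have hu := C1c.update w1 (c.nonneg _) (c.le_one _) w3 hP.symm hP.symm (C1c.refl hP.1)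
      have hs' : sN e k c.χ NN N0 (i + 1) =ᶠ[𝓝 q] fun p =>
          c.χ (F e k n' p) • Gf NN (F e k n') p
            + (1 - c.χ (F e k n' p)) • sN e k c.χ NN N0 i p := by
        rw [hsucc]
        filter_upwards [hrim] with p hp
        rw [hp]
      refine (hu.congr hs' EventuallyEq.rfl).mono ?_ ?_
      · refine max_le ?_ (by positivity)
        exact (hGx hK2 g2.low).trans (hmx hK4a)
      · have a1 : L * ((1 + M) * |dt (F e k n') q|) * (K2 M L C1 * r / |dt (F e k n') q|)
            = L * (1 + M) * K2 M L C1 * r := by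
          have := g2.pos.ne'
          field_simp
        rw [a1, max_eq_left (by positivity), ← add_mul]
        refine mul_le_mul_of_nonneg_right ?_ hr.le
        unfold K4
        linarith
    · have hz : c.a2 < |F e k n' q| := c.lt_B.trans (not_le.1 hB)
      have hs' : sN e k c.χ NN N0 (i + 1) =ᶠ[𝓝 q] sN e k c.χ NN N0 i := by
        rw [hsucc]; exact (upd_zero (contAt_F hq _) hz _).trans hrim
      refine ((C1c.refl (h.dS i)).congr hs' EventuallyEq.rfl).mono (by positivity)
        (by positivity)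

end

end TM
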