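import Pool.Agent.Helper55.TM.Blend4
import Pool.Agent.Helper14.TM_SC
import Pool.Agent.Helper11.TM_SU

/-!
# MP_fc8395_an : blending, part 5 (the limit)
-/

set_option autoImplicit false

open scoped ContDiff Topology
open Filter Set

namespace TM

/-! ### growth of the degrees -/

lemma dg_sq {k : ℕ → ℕ} (hk : ∀ i, 1 ≤ k i) (n : ℕ) :
    (2 : ℝ) ^ n ≤ 2 * ((dg k n).1 : ℝ) ^ 2 ∧ (2 : ℝ) ^ (n + 1) ≤ 2 * ((dg k (n + 1)).1 : ℝ) ^ 2 := by
  induction n with
  | zero =>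
    have h1 : (1 : ℝ) ≤ (dg k 0).1 := by exact_mod_cast dg_pos hk 0
    have h2 : (1 : ℝ) ≤ (dg k (0 + 1)).1 := by exact_mod_cast dg_pos hk 1
    constructor
    · nlinarith
    · rw [zero_add, pow_one]
      rw [zero_add] at h2
      nlinarith
  | succ n ih =>
    refine ⟨ih.2, ?_⟩
    have h1 : (2 : ℝ) * (dg k n).1 ≤ (dg k (n + 2)).1 := by exact_mod_cast dg_two hk n
    have h2 : (0 : ℝ) ≤ (dg k n).1 := Nat.cast_nonneg _
    calc (2 : ℝ) ^ (n + 1 + 1) = 4 * 2 ^ n := by ring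
      _ ≤ 4 * (2 * ((dg k n).1 : ℝ) ^ 2) := by linarith [ih.1]
      _ = 2 * (2 * ((dg k n).1 : ℝ)) ^ 2 := by ring
      _ ≤ 2 * ((dg k (n + 2)).1 : ℝ) ^ 2 := by
          have := pow_le_pow_left₀ (by positivity : (0 : ℝ) ≤ 2 * (dg k n).1) h1 2
          linarith

/-- `ρ_n = 1/√m_n`. -/
noncomputable def rho (k : ℕ → ℕ) (n : ℕ) : ℝ := 1 / Real.sqrt (dg k n).1

lemma rho_pos {k : ℕ → ℕ} (hk : ∀ i, 1 ≤ k i) (n : ℕ) : 0 < rho k n := by
  have h1 : (0 : ℝ) < (dg k n).1 := by exact_mod_cast dg_pos hk n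
  unfold rho; positivity

lemma rho_le {k : ℕ → ℕ} (hk : ∀ i, 1 ≤ k i) (n : ℕ) : rho k n ≤ 2 * (17 / 20 : ℝ) ^ n := by
  have h1 : (0 : ℝ) < (dg k n).1 := by exact_mod_cast dg_pos hk n
  have h2 := (dg_sq hk n).1
  have h3 : rho k n ^ 4 ≤ (2 * (17 / 20 : ℝ) ^ n) ^ 4 := by
    have e1 : rho k n ^ 4 = 1 / ((dg k n).1 : ℝ) ^ 2 := by
      unfold rho
      rw [div_pow, one_pow]
      congr 1
      calc Real.sqrt (dg k n).1 ^ 4 = (Real.sqrt (dg k n).1 ^ 2) ^ 2 := by ring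
        _ = _ := by rw [Real.sq_sqrt h1.le]
    have e2 : 1 / ((dg k n).1 : ℝ) ^ 2 ≤ 2 / 2 ^ n := by
      rw [div_le_div_iff₀ (by positivity) (by positivity)]
      linarith
    have e3 : (2 : ℝ) / 2 ^ n = 2 * (1 / 2) ^ n := by rw [one_div, inv_pow]; rfl
    have e4 : (2 * (17 / 20 : ℝ) ^ n) ^ 4 = 16 * ((17 / 20) ^ 4) ^ n := by
      rw [mul_pow, ← pow_mul, ← pow_mul, mul_comm n 4]; norm_num
    rw [e1, e4]
    refine e2.trans ?_
    rw [e3]
    have e5 : ((1 : ℝ) / 2) ^ n ≤ ((17 / 20) ^ 4) ^ n :=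
      pow_le_pow_left₀ (by norm_num) (by norm_num) n
    have e6 : (0 : ℝ) ≤ ((17 / 20) ^ 4) ^ n := by positivity
    linarith
  exact (pow_le_pow_iff_left₀ (rho_pos hk n).le (by positivity) (by norm_num)).1 h3

lemma summable_rho {k : ℕ → ℕ} (hk : ∀ i, 1 ≤ k i) (N0 : ℕ) :
    Summable (fun i => rho k (N0 + i - 1)) := by
  have h1 : Summable (fun i => rho k (N0 + (i + 1) - 1)) := by
    refine Summable.of_nonneg_of_le (fun i => (rho_pos hk _).le) (fun i => ?_)
      ((summable_geometric_of_lt_one (by norm_num) (by norm_num : (17 / 20 : ℝ) < 1)).mul_left 2)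
    refine (rho_le hk _).trans ?_
    have : (17 / 20 : ℝ) ^ (N0 + (i + 1) - 1) ≤ (17 / 20 : ℝ) ^ i :=
      pow_le_pow_of_le_one (by norm_num) (by norm_num) (by omega)
    linarith
  exact (summable_nat_add_iff 1).1 h1

lemma dg_le {k : ℕ → ℕ} (hk : ∀ i, 1 ≤ k i) {m n : ℕ} (h : m ≤ n) : (dg k m).1 ≤ (dg k n).1 := by
  induction n, h using Nat.le_induction with
  | base => exact le_rfl
  | succ n _ ih => exact ih.trans (dg_mono hk n)

lemma rho_anti {k : ℕ → ℕ} (hk : ∀ i, 1 ≤ k i) {m : ℕ} {d : ℕ} (h : (dg k m).1 ≤ d) :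
    1 / Real.sqrt d ≤ rho k m := by
  have h1 : (0 : ℝ) < (dg k m).1 := by exact_mod_cast dg_pos hk m
  unfold rho
  refine one_div_le_one_div_of_le (Real.sqrt_pos.2 h1) (Real.sqrt_le_sqrt ?_)
  exact_mod_cast h

/-! ### smoothness of the states -/

section

variable {e : ℝ} {k : ℕ → ℕ} {c : Cut e} {NN : (ℝ × ℝ) × ℝ → ℝ} {N0 : ℕ}

lemma Gf_smooth {O : Set (ℝ × ℝ)} (hO : IsOpen O) (hNN : ContDiffOn ℝ ∞ NN (O ×ˢ univ))
    (hpos : ∀ q ∈ O, ∀ m, 0 < NN (q, m)) {q : ℝ × ℝ} (hq : q ∈ O) {f : ℝ × ℝ → ℝ}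
    (hf : ContDiffAt ℝ ∞ f q) (hne : dt f q ≠ 0) : ContDiffAt ℝ ∞ (Gf NN f) q := by
  have h1 := contDiffAt_slope hf hne
  have h2 : ContDiffAt ℝ ∞ (fun p => NN (p, slope f p)) q := by
    have h3 : ContDiffAt ℝ ∞ NN (q, slope f q) :=
      hNN.contDiffAt ((hO.prod isOpen_univ).mem_nhds ⟨hq, mem_univ _⟩)
    exact h3.comp q (contDiffAt_id.prodMk h1)
  exact (contDiffAt_const.div h2 (hpos q hq _).ne').prodMk (h1.div h2 (hpos q hq _).ne')

lemma upd_smooth {O : Set (ℝ × ℝ)} (hO : IsOpen O) (hNN : ContDiffOn ℝ ∞ NN (O ×ˢ univ))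
    (hpos : ∀ q ∈ O, ∀ m, 0 < NN (q, m)) {q : ℝ × ℝ} (hq : q ∈ O) {f : ℝ × ℝ → ℝ}
    (hf : ContDiffAt ℝ ∞ f q) (hne : |f q| ≤ B e → dt f q ≠ 0) {s : ℝ × ℝ → ℝ × ℝ}
    (hs : ContDiffAt ℝ ∞ s q) :
    ContDiffAt ℝ ∞ (fun p => c.χ (f p) • Gf NN f p + (1 - c.χ (f p)) • s p) q := by
  by_cases h : |f q| ≤ B e
  · have h1 : ContDiffAt ℝ ∞ (fun p => c.χ (f p)) q := c.smooth.contDiffAt.comp q hf
    exact (h1.smul (Gf_smooth hO hNN hpos hq hf (hne h))).add
      ((contDiffAt_const.sub h1).smul hs)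
  · have h1 : c.a2 < |f q| := c.lt_B.trans (not_le.1 h)
    exact hs.congr_of_eventuallyEq (upd_zero hf.continuousAt h1 s)

lemma Ft_ne (he : 0 < e) (hk : ∀ i, 1 ≤ k i) {n j : ℕ} (hj : 1 ≤ n ∨ 1 ≤ j) {q : ℝ × ℝ}
    (hq : q ∈ Dom) (h : |Ft e k n j q| ≤ B e) : dt (Ft e k n j) q ≠ 0 := by
  obtain ⟨k', N, hk', e1⟩ := Ft_rep (e := e) hk hj
  rw [e1] at h ⊢
  exact F_ne he hk' hq (B_lt_V' he h)

lemma sN_smooth (he : 0 < e) (hk : ∀ i, 1 ≤ k i) {O : Set (ℝ × ℝ)} (hO : IsOpen O)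
    (hOD : O ⊆ Dom) (hNN : ContDiffOn ℝ ∞ NN (O ×ˢ univ))
    (hpos : ∀ q ∈ O, ∀ m, 0 < NN (q, m)) {q : ℝ × ℝ} (hq : q ∈ O) (h0 : |F e k N0 q| ≤ B e)
    (i : ℕ) : ContDiffAt ℝ ∞ (sN e k c.χ NN N0 i) q := by
  induction i with
  | zero => exact Gf_smooth hO hNN hpos hq (contDiffAt_F (hOD hq)) (F_ne he hk (hOD hq)
      (B_lt_V' he h0))
  | succ i ih =>
    have hr : ∀ J, ContDiffAt ℝ ∞
        (rN e k c.χ NN (N0 + i + 1) J (sN e k c.χ NN N0 i)) q := by
      intro J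
      induction J with
      | zero => exact ih
      | succ J ihJ =>
        exact upd_smooth hO hNN hpos hq (contDiffAt_Ft (hOD hq))
          (fun h => Ft_ne he hk (Or.inl (by omega)) (hOD hq) h) ihJ
    exact upd_smooth hO hNN hpos hq (contDiffAt_F (hOD hq))
      (fun h => F_ne he hk (hOD hq) (B_lt_V' he h)) (hr _)

end

/-- The state at the value level. -/
lemma state_value {e : ℝ} {k : ℕ → ℕ} {c : Cut e} {NN : (ℝ × ℝ) × ℝ → ℝ} {N0 i : ℕ}
    {q : ℝ × ℝ} (hq : q ∈ Dom) (h : |F e k (N0 + i) q| < c.a1) :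
    sN e k c.χ NN N0 i q = Gf NN (F e k (N0 + i)) q := (stateA1 hq i h).eq_of_nhds

/-- Lower bound for the first component of the states. -/
lemma pos_upd {Cg w : ℝ} (hw0 : 0 ≤ w) (hw1 : w ≤ 1) {u s : ℝ × ℝ} (hs : 1 ≤ Cg * s.1)
    (hu : w ≠ 0 → 1 ≤ Cg * u.1) : 1 ≤ Cg * (w • u + (1 - w) • s).1 := by
  have e1 : (w • u + (1 - w) • s).1 = w * u.1 + (1 - w) * s.1 := rfl
  rw [e1]
  by_cases hw : w = 0
  · rw [hw]; simpa using hs
  · have h1 := hu hw
    nlinarith [mul_le_mul_of_nonneg_left h1 hw0,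
      mul_le_mul_of_nonneg_left hs (sub_nonneg.2 hw1)]

theorem blend {e : ℝ} (he : 0 < e) {k : ℕ → ℕ} (hk : ∀ i, 1 ≤ k i) (c : Cut e)
    {NN : (ℝ × ℝ) × ℝ → ℝ} {O : Set (ℝ × ℝ)} (hO : IsOpen O) (hOD : O ⊆ Dom)
    (hNN : ContDiffOn ℝ ∞ NN (O ×ˢ univ)) (hpos : ∀ q ∈ O, ∀ m, 0 < NN (q, m)) {N0 : ℕ}
    {K U' : Set (ℝ × ℝ)} (hK : IsCompact K) (hKO : K ⊆ O) (hU : IsOpen U') (hUc : Convex ℝ U')
    (hUK : U' ⊆ K) (hN0 : ∀ q ∈ K, |F e k N0 q| < c.a1) :
    ∃ S : ℝ × ℝ → ℝ × ℝ, ContDiffOn ℝ 1 S U' ∧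
      (∀ q ∈ U', Tendsto (fun i => sN e k c.χ NN N0 i q) atTop (𝓝 (S q))) ∧
      (∀ q ∈ U', 0 < (S q).1) ∧
      ∃ rate : ℕ → ℝ, Tendsto rate atTop (𝓝 0) ∧ ∀ N, N0 ≤ N → ∀ q ∈ U', |F e k N q| < c.a1 →
        |dt (F e k N) q| * |(S q).2 / (S q).1 - slope (F e k N) q| ≤ rate N := by
  have hKD : K ⊆ Dom := hKO.trans hOD
  have hB1 := c.a1_lt_B
  have hN0B : ∀ q ∈ K, |F e k N0 q| ≤ B e := fun q hq => ((hN0 q hq).trans hB1).le
  obtain ⟨M, hM, hMb⟩ := slope_unif_of he (slope_close he) hk hK hKD hN0B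
  obtain ⟨L, hL, hLb⟩ := c.bound
  obtain ⟨Cl, hCl, hlink⟩ := link he
  obtain ⟨Cg, hCg, hlip⟩ := Gam_lip hO hNN hpos hK hKO M
  obtain ⟨Cw, hCw, hgrow⟩ := growth_coord he
  obtain ⟨cr0, hcr0, hrim⟩ := rim_coord he
  set r0 : ℝ := 2 / e with hr0
  set C1 : ℝ := Cg * Cl * (r0 + 2 + 4 * M) with hC1
  have hC10 : 0 ≤ C1 := by rw [hC1]; positivity
  set cr : ℝ := min cr0 1 with hcr
  have hcrp : 0 < cr := lt_min hcr0 one_pos
  -- slopes for the values
  have hMF : ∀ m, N0 ≤ m → ∀ q ∈ K, |F e k m q| ≤ B e →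
      |slope (F e k m) q| ≤ M ∧ ‖fderiv ℝ (slope (F e k m)) q‖ ≤ M := fun m hm q hq h =>
    hMb k hk (fun _ _ => rfl) m hm q hq h
  have hMT : ∀ m, N0 < m → ∀ j, ∀ q ∈ K, |Ft e k m j q| ≤ B e →
      |slope (Ft e k m j) q| ≤ M ∧ ‖fderiv ℝ (slope (Ft e k m j)) q‖ ≤ M := by
    intro m hm j q hq h
    rcases Nat.eq_zero_or_pos j with rfl | hj
    · obtain ⟨m', rfl⟩ : ∃ m', m = m' + 1 := ⟨m - 1, by omega⟩
      rw [Ft_zero] at h ⊢
      exact hMF m' (by omega) q hq h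
    · rw [Ft_update] at h ⊢
      exact hMb _ (update_pos hk m hj) (fun i hi => Function.update_of_ne (by omega) _ _)
        (m + 1) (by omega) q hq h
  -- lower bounds for derivatives from the degree
  have hinv : ∀ {k' : ℕ → ℕ} (hk' : ∀ i, 1 ≤ k' i) {n : ℕ} {q : ℝ × ℝ} (hq : q ∈ Dom)
      (hb : |F e k' n q| ≤ B e) {m : ℕ} (hd : (dg k m).1 ≤ (dg k' n).1),
      0 < |dt (F e k' n) q| ∧ 1 / |dt (F e k' n) q| ≤ r0 * rho k m := by
    intro k' hk' n q hq hb m hd
    have h1 := (F_tame he hk' hq hb).2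
    have h2 : (0 : ℝ) < (dg k' n).1 := by exact_mod_cast dg_pos hk' n
    have h3 : e / 2 * Real.sqrt (dg k' n).1 ≤ |dt (F e k' n) q| := by
      have h4 : (e / 2 * Real.sqrt (dg k' n).1) ^ 2 ≤ |dt (F e k' n) q| ^ 2 := by
        rw [mul_pow, Real.sq_sqrt h2.le, sq_abs]
        refine le_trans (le_of_eq ?_) h1
        ring
      exact (pow_le_pow_iff_left₀ (by positivity) (abs_nonneg _) (by norm_num)).1 h4
    have h5 : 0 < e / 2 * Real.sqrt (dg k' n).1 := by positivity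
    refine ⟨h5.trans_le h3, ?_⟩
    calc 1 / |dt (F e k' n) q| ≤ 1 / (e / 2 * Real.sqrt (dg k' n).1) :=
          one_div_le_one_div_of_le h5 h3
      _ = r0 * (1 / Real.sqrt (dg k' n).1) := by rw [hr0]; field_simp
      _ ≤ r0 * rho k m := mul_le_mul_of_nonneg_left (rho_anti hk hd) (by positivity)
  have hdu : ∀ m j, 1 ≤ j → (dg k m).1 ≤ (dg (Function.update k m j) (m + 1)).1 := by
    intro m j hj
    have e1 : (dg (Function.update k m j) (m + 1)).1 = (dg k m).2 + j * (dg k m).1 := by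
      have e2 : dg (Function.update k m j) m = dg k m :=
        dg_congr fun i hi => Function.update_of_ne (by omega) _ _
      show (dg (Function.update k m j) m).2
        + Function.update k m j m * (dg (Function.update k m j) m).1 = _
      rw [e2, Function.update_self]
    rw [e1]
    have := Nat.mul_le_mul_right (dg k m).1 hj
    omega
  -- the context
  have hctx : ∀ (i N' : ℕ) (q : ℝ × ℝ), q ∈ U' → N0 ≤ N' → N' ≤ N0 + i → |F e k N' q| < c.a1 →
      BCtx e k c NN N0 N' i M L C1 cr (r0 * rho k (N0 + i - 1)) (|dt (F e k N') q| / Cw) q := by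
    intro i N' q hqU hN hN' ha1
    have hqK := hUK hqU
    have hqO := hKO hqK
    have hqD := hOD hqO
    have hbN' : |F e k N' q| ≤ B e := (ha1.trans hB1).le
    have hCw0 : 0 < Cw := by linarith
    have hΛ : 0 < |dt (F e k N') q| / Cw := by
      have := (hinv hk hqD hbN' (m := N') le_rfl).1
      positivity
    have hgF : ∀ m, N' ≤ m → N0 + i ≤ m + 1 → |F e k m q| ≤ B e →
        GV e M (r0 * rho k (N0 + i - 1)) (|dt (F e k N') q| / Cw) (F e k m) q := by
      intro m hm hm2 hb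
      obtain ⟨h1, h2⟩ := hMF m (by omega) q hqK hb
      obtain ⟨h3, h4⟩ := hinv hk hqD hb (m := N0 + i - 1) (dg_le hk (by omega))
      refine ⟨hb, contDiffAt_F hqD, h1, h2, h3, h4, ?_⟩
      rw [div_le_iff₀ hCw0, mul_comm]
      exact hgrow k hk q hqD N' m hm hbN' hb
    have hgT : ∀ m, N' < m → N0 + i ≤ m → ∀ j, |Ft e k m j q| ≤ B e →
        GV e M (r0 * rho k (N0 + i - 1)) (|dt (F e k N') q| / Cw) (Ft e k m j) q := by
      intro m hm hm2 j hb
      rcases Nat.eq_zero_or_pos j with rfl | hj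
      · obtain ⟨m', rfl⟩ : ∃ m', m = m' + 1 := ⟨m - 1, by omega⟩
        rw [Ft_zero] at hb ⊢
        exact hgF m' (by omega) (by omega) hb
      · obtain ⟨h1, h2⟩ := hMT m (by omega) j q hqK hb
        have hb' := hb
        rw [Ft_update] at hb'
        obtain ⟨h3, h4⟩ := hinv (update_pos hk m hj) hqD hb' (m := N0 + i - 1)
          ((dg_le hk (by omega)).trans (hdu m j hj))
        rw [← Ft_update] at h3 h4
        refine ⟨hb, contDiffAt_Ft hqD, h1, h2, h3, h4, ?_⟩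
        rw [div_le_iff₀ hCw0, mul_comm]
        have h5 := hgrow (Function.update k m j) (update_pos hk m hj) q hqD N' (m + 1)
          (by omega) (by rw [F_update (by omega)]; exact hbN') hb'
        rw [F_update (by omega), ← Ft_update] at h5
        exact h5
    have hrr0 : r0 * rho k (N0 + i - 1) ≤ r0 := by
      have h1 : rho k (N0 + i - 1) ≤ 1 := by
        unfold rho
        rw [div_le_one (Real.sqrt_pos.2 (by exact_mod_cast dg_pos hk _))]
        rw [Real.one_le_sqrt]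
        exact_mod_cast dg_pos hk _
      have h2 : 0 ≤ r0 := by positivity
      nlinarith
    refine
      { he := he, hk := hk, hq := hqD, hN0 := hN, hN' := hN', ha1 := ha1, hM := hM, hL := hL,
        hLb := hLb, hC1 := hC10, hcr := hcrp, hcr1 := min_le_right _ _,
        hr := mul_pos (by positivity) (rho_pos hk _), hΛ := hΛ, gF := hgF, gT := hgT,
        lk1 := ?_, lk2 := ?_, grow := ?_, dS := ?_ }
    · intro n j hnj g1 g2
      have hl := (hlink k hk q hqD n j hnj g1.le_B).1 g2.le_B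
      exact link_C1c hCg hM hCl hlip hqK hrr0 g1 g2 hl
    · intro n j hnj g1 g2
      have hl := (hlink k hk q hqD n j hnj g1.le_B).2 g2.le_B
      exact link_C1c hCg hM hCl hlip hqK hrr0 g1 g2 hl
    · intro n J h0 h1 hJ j hj
      refine le_trans ?_ (hrim k hk q hqD n J h0 h1 hJ j hj)
      refine mul_le_mul_of_nonneg_right ?_ (abs_nonneg _)
      exact mul_le_mul_of_nonneg_right (min_le_left _ _) (by positivity)
    · intro i'
      exact (sN_smooth he hk hO hOD hNN hpos hqO (hN0B q hqK) i').differentiableAt (by simp)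
  set K4' : ℝ := K4 e M L C1 cr with hK4'
  have hCw0 : 0 < Cw := by linarith
  -- increments
  have hinc : ∀ (i N' : ℕ) (q : ℝ × ℝ), q ∈ U' → N0 ≤ N' → N' ≤ N0 + i → |F e k N' q| < c.a1 →
      ‖sN e k c.χ NN N0 (i + 1) q - sN e k c.χ NN N0 i q‖ * |dt (F e k N') q|
        ≤ K4' * r0 * Cw * rho k (N0 + i - 1) ∧
      ‖fderiv ℝ (sN e k c.χ NN N0 (i + 1)) q - fderiv ℝ (sN e k c.χ NN N0 i) q‖
        ≤ K4' * r0 * rho k (N0 + i - 1) := by
    intro i N' q hqU hN hN' ha1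
    obtain ⟨_, _, h1, h2⟩ := (hctx i N' q hqU hN hN' ha1).inc
    have hp := (hinv hk (hKD (hUK hqU)) (ha1.trans hB1).le (m := N') le_rfl).1
    constructor
    · calc _ ≤ K4' * (r0 * rho k (N0 + i - 1)) / (|dt (F e k N') q| / Cw) * |dt (F e k N') q| :=
            mul_le_mul_of_nonneg_right h1 (abs_nonneg _)
        _ = _ := by
            have := hp.ne'
            field_simp
    · refine h2.trans (le_of_eq ?_)
      ring
  have hK40 : 0 ≤ K4' * r0 := by
    -- from an increment bound or by positivity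
    have h1 : 0 ≤ K2 M L C1 := K2_nonneg hM hL hC10
    have h2 : 0 ≤ S0 e := S0_nonneg he
    have : 0 ≤ K4' := by
      rw [hK4']; unfold K4; positivity
    positivity
  set ε : ℕ → ℝ := fun i => (K4' * r0 * Cw * r0 + K4' * r0) * rho k (N0 + i - 1) with hε
  have hεs : Summable ε := (summable_rho hk N0).mul_left _
  obtain ⟨S, hS1, hS2⟩ := C1_limit hU hUc (s := fun i => sN e k c.χ NN N0 i) (ε := ε)
    (fun i q hq => (((sN_smooth he hk hO hOD hNN hpos (hKO (hUK hq)) (hN0B q (hUK hq)) i).of_le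
      (by exact_mod_cast le_top)).contDiffWithinAt))
    hεs
    (by
      intro i q hq
      obtain ⟨h1, _⟩ := hinc i N0 q hq le_rfl (by omega) (hN0 q (hUK hq))
      obtain ⟨h3, h4⟩ := hinv hk (hKD (hUK hq)) (hN0B q (hUK hq)) (m := N0) le_rfl
      have hrho1 : rho k N0 ≤ 1 := by
        unfold rho
        rw [div_le_one (Real.sqrt_pos.2 (by exact_mod_cast dg_pos hk _))]
        rw [Real.one_le_sqrt]
        exact_mod_cast dg_pos hk _
      have hr00 : 0 < r0 := by positivity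
      have h5 : 1 / |dt (F e k N0) q| ≤ r0 := h4.trans (by nlinarith)
      have hρ := (rho_pos hk (N0 + i - 1)).le
      calc ‖sN e k c.χ NN N0 (i + 1) q - sN e k c.χ NN N0 i q‖
          = ‖sN e k c.χ NN N0 (i + 1) q - sN e k c.χ NN N0 i q‖ * |dt (F e k N0) q|
            * (1 / |dt (F e k N0) q|) := by
              have := h3.ne'
              field_simp
        _ ≤ K4' * r0 * Cw * rho k (N0 + i - 1) * r0 :=
            mul_le_mul h1 h5 (by positivity) (by positivity)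
        _ ≤ ε i := by
            rw [hε]
            have : 0 ≤ K4' * r0 * rho k (N0 + i - 1) := mul_nonneg hK40 hρ
            nlinarith)
    (by
      intro i q hq
      obtain ⟨_, h1⟩ := hinc i N0 q hq le_rfl (by omega) (hN0 q (hUK hq))
      refine h1.trans ?_
      rw [hε]
      have hρ := (rho_pos hk (N0 + i - 1)).le
      have : 0 ≤ K4' * r0 * Cw * r0 * rho k (N0 + i - 1) := by positivity
      nlinarith)
  -- positivity
  have hlow : ∀ q ∈ U', ∀ i, 1 ≤ Cg * (sN e k c.χ NN N0 i q).1 := by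
    intro q hqU i
    have hqK := hUK hqU
    have hqD := hKD hqK
    have hGF : ∀ m, N0 ≤ m → |F e k m q| ≤ B e → 1 ≤ Cg * (Gf NN (F e k m) q).1 := by
      intro m hm hb
      obtain ⟨h1, h2⟩ := hMF m hm q hqK hb
      have hd := (contDiffAt_slope (contDiffAt_F (e := e) (k := k) (n := m) hqD)
        (F_ne he hk hqD (B_lt_V' he hb))).differentiableAt (by simp)
      exact (hlip q hqK _ _ hd hd h1 h1 h2 h2).2.2.2.1
    have hGT : ∀ m, N0 < m → ∀ j, |Ft e k m j q| ≤ B e →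
        1 ≤ Cg * (Gf NN (Ft e k m j) q).1 := by
      intro m hm j hb
      obtain ⟨h1, h2⟩ := hMT m hm j q hqK hb
      have hd := (contDiffAt_slope (contDiffAt_Ft (e := e) (k := k) (n := m) (j := j) hqD)
        (Ft_ne he hk (Or.inl (by omega)) hqD hb)).differentiableAt (by simp)
      exact (hlip q hqK _ _ hd hd h1 h1 h2 h2).2.2.2.1
    have hact : ∀ {y : ℝ}, c.χ y ≠ 0 → |y| ≤ B e := by
      intro y hy
      by_contra h
      exact hy (c.zero y (c.lt_B.trans (not_le.1 h)).le)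
    induction i with
    | zero => exact hGF N0 le_rfl (hN0B q hqK)
    | succ i ih =>
      have hr : ∀ J, 1 ≤ Cg * (rN e k c.χ NN (N0 + i + 1) J (sN e k c.χ NN N0 i) q).1 := by
        intro J
        induction J with
        | zero => exact ih
        | succ J ihJ =>
          exact pos_upd (c.nonneg _) (c.le_one _) ihJ
            (fun h => hGT _ (by omega) _ (hact h))
      exact pos_upd (c.nonneg _) (c.le_one _) (hr _) (fun h => hGF _ (by omega) (hact h))
  have hlowS : ∀ q ∈ U', 1 ≤ Cg * (S q).1 := by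
    intro q hq
    have h1 : Tendsto (fun i => Cg * (sN e k c.χ NN N0 i q).1) atTop (𝓝 (Cg * (S q).1)) :=
      ((continuous_fst.tendsto _).comp (hS2 q hq)).const_mul Cg
    exact ge_of_tendsto' h1 (hlow q hq)
  have hposS : ∀ q ∈ U', 0 < (S q).1 := by
    intro q hq
    have h1 := hlowS q hq
    by_contra h
    have : Cg * (S q).1 ≤ 0 := mul_nonpos_of_nonneg_of_nonpos hCg (not_lt.1 h)
    linarith
  refine ⟨S, hS1, hS2, hposS, ?_⟩
  -- the rate
  set T : ℕ → ℝ := fun m => ∑' i, rho k (N0 + (i + m) - 1) with hT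
  have hT0 : Tendsto T atTop (𝓝 0) := tendsto_sum_nat_add (fun i => rho k (N0 + i - 1))
  refine ⟨fun N => Cg * (1 + M) * (K4' * r0 * Cw * T (N - N0)), ?_, ?_⟩
  · have h1 : Tendsto (fun N => T (N - N0)) atTop (𝓝 0) :=
      hT0.comp (tendsto_sub_atTop_nat N0)
    have h2 := (h1.const_mul (K4' * r0 * Cw)).const_mul (Cg * (1 + M))
    simpa using h2
  · intro N hN q hqU ha1
    obtain ⟨m, rfl⟩ : ∃ m, N = N0 + m := ⟨N - N0, by omega⟩
    have hqK := hUK hqU
    have hqD := hKD hqK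
    have hb : |F e k (N0 + m) q| ≤ B e := (ha1.trans hB1).le
    obtain ⟨hG, _⟩ := hinv hk hqD hb (m := N0 + m) le_rfl
    set G : ℝ := |dt (F e k (N0 + m)) q| with hGdef
    have hval := state_value (c := c) (NN := NN) hqD ha1
    -- distance to the limit
    have hdist : ‖S q - sN e k c.χ NN N0 m q‖ * G ≤ K4' * r0 * Cw * T m := by
      have hpart : ∀ n, ‖sN e k c.χ NN N0 (n + m) q - sN e k c.χ NN N0 m q‖ * G
          ≤ K4' * r0 * Cw * ∑ i ∈ Finset.range n, rho k (N0 + (i + m) - 1) := by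
        intro n
        induction n with
        | zero => simp
        | succ n ih =>
          have h1 := (hinc (n + m) (N0 + m) q hqU (by omega) (by omega) ha1).1
          rw [Finset.sum_range_succ, mul_add]
          have e1 : n + 1 + m = n + m + 1 := by omega
          rw [e1]
          calc ‖sN e k c.χ NN N0 (n + m + 1) q - sN e k c.χ NN N0 m q‖ * G
              ≤ (‖sN e k c.χ NN N0 (n + m + 1) q - sN e k c.χ NN N0 (n + m) q‖
                + ‖sN e k c.χ NN N0 (n + m) q - sN e k c.χ NN N0 m q‖) * G := by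
                refine mul_le_mul_of_nonneg_right ?_ hG.le
                have := norm_add_le (sN e k c.χ NN N0 (n + m + 1) q - sN e k c.χ NN N0 (n + m) q)
                  (sN e k c.χ NN N0 (n + m) q - sN e k c.χ NN N0 m q)
                rwa [sub_add_sub_cancel] at this
            _ ≤ _ := by rw [add_mul]; linarith
      have hT1 : ∀ n, (∑ i ∈ Finset.range n, rho k (N0 + (i + m) - 1)) ≤ T m := by
        intro n
        have hs : Summable (fun i => rho k (N0 + (i + m) - 1)) :=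
          (summable_nat_add_iff m).2 (summable_rho hk N0)
        exact hs.sum_le_tsum _ (fun i _ => (rho_pos hk _).le)
      have h2 : Tendsto (fun n => ‖sN e k c.χ NN N0 (n + m) q - sN e k c.χ NN N0 m q‖ * G) atTop
          (𝓝 (‖S q - sN e k c.χ NN N0 m q‖ * G)) := by
        have h3 : Tendsto (fun n => sN e k c.χ NN N0 (n + m) q) atTop (𝓝 (S q)) :=
          (tendsto_add_atTop_iff_nat m).2 (hS2 q hqU)
        exact ((h3.sub_const _).norm).mul_const G
      refine le_of_tendsto' h2 (fun n => (hpart n).trans ?_)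
      refine mul_le_mul_of_nonneg_left (hT1 n) ?_
      positivity
    rw [hval] at hdist
    have e1 : N0 + m - N0 = m := by omega
    show _ ≤ Cg * (1 + M) * (K4' * r0 * Cw * T (N0 + m - N0))
    rw [e1]
    -- algebra
    obtain ⟨hs1, _⟩ := hMF (N0 + m) (by omega) q hqK hb
    have hv : (Gf NN (F e k (N0 + m)) q).2
        = slope (F e k (N0 + m)) q * (Gf NN (F e k (N0 + m)) q).1 := by
      unfold Gf Gam
      simp only
      ring
    set μ : ℝ := slope (F e k (N0 + m)) q with hμ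
    set v : ℝ × ℝ := Gf NN (F e k (N0 + m)) q with hvdef
    have hS1pos := hposS q hqU
    have hS1low := hlowS q hqU
    have e2 : (S q).2 / (S q).1 - μ = (((S q).2 - v.2) - μ * ((S q).1 - v.1)) / (S q).1 := by
      rw [hv]
      field_simp
      ring
    have h6 : |(S q).2 / (S q).1 - μ| ≤ Cg * (1 + M) * ‖S q - v‖ := by
      rw [e2, abs_div, abs_of_pos hS1pos, div_le_iff₀ hS1pos]
      have a1 : |(S q).2 - v.2| ≤ ‖S q - v‖ := by
        have := norm_snd_le (S q - v)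
        simpa using this
      have a2 : |(S q).1 - v.1| ≤ ‖S q - v‖ := by
        have := norm_fst_le (S q - v)
        simpa using this
      have a3 : |((S q).2 - v.2) - μ * ((S q).1 - v.1)| ≤ (1 + M) * ‖S q - v‖ := by
        calc _ ≤ |(S q).2 - v.2| + |μ * ((S q).1 - v.1)| := abs_sub _ _
          _ = |(S q).2 - v.2| + |μ| * |(S q).1 - v.1| := by rw [abs_mul]
          _ ≤ ‖S q - v‖ + M * ‖S q - v‖ :=
              add_le_add a1 (mul_le_mul hs1 a2 (abs_nonneg _) hM)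
          _ = _ := by ring
      refine a3.trans ?_
      have a4 : 0 ≤ (1 + M) * ‖S q - v‖ := by positivity
      calc (1 + M) * ‖S q - v‖ = (1 + M) * ‖S q - v‖ * 1 := by ring
        _ ≤ (1 + M) * ‖S q - v‖ * (Cg * (S q).1) := mul_le_mul_of_nonneg_left hS1low a4
        _ = _ := by ring
    calc G * |(S q).2 / (S q).1 - μ| ≤ G * (Cg * (1 + M) * ‖S q - v‖) :=
          mul_le_mul_of_nonneg_left h6 hG.le
      _ = Cg * (1 + M) * (‖S q - v‖ * G) := by ring
      _ ≤ _ := mul_le_mul_of_nonneg_left hdist (by positivity)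

end TM
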