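import Pool.Agent.Helper55.TM.Mods

/-!
# MP_fc8395_an : the chain along orbits
-/

set_option autoImplicit false

open scoped ContDiff Topology
open Filter Set

namespace TM

/-! ### swapping the first two coordinates -/

/-- `(x,y,z) ↦ (y,x,z)`. -/
def Qs (p : Pt) : Pt := (p.2.1, p.1, p.2.2)

/-- Its tangent map. -/
def TQ (q : Pt × Pt) : Pt × Pt := (Qs q.1, Qs q.2)

lemma TQ_TP (q : Pt × Pt) : TQ (TP q) = TRh q := rfl

lemma TRh_TU_TQ (q : Pt × Pt) : TRh (TU (TQ q)) = TQ (TU q) := by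
  obtain ⟨⟨x, y, z⟩, ⟨a, b, c⟩⟩ := q
  simp only [TRh, TU, TQ, Qs, Rh, U, dU, Prod.mk.injEq]
  refine ⟨⟨trivial, by ring, trivial⟩, trivial, by ring, trivial⟩

lemma TUinv_TP_TU (q : Pt × Pt) : TUinv (TP (TU q)) = TQ q := by
  obtain ⟨⟨x, y, z⟩, ⟨a, b, c⟩⟩ := q
  simp only [TUinv, TP, P, TU, TQ, Qs, Uinv, dUinv, U, dU, Prod.mk.injEq, true_and]
  exact ⟨by ring, by ring⟩

lemma TU_TUinv (q : Pt × Pt) : TU (TUinv q) = q := by
  obtain ⟨⟨x, y, z⟩, ⟨a, b, c⟩⟩ := q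
  simp only [TU, TUinv, Uinv, dUinv, U, dU, Prod.mk.injEq, and_true]
  exact ⟨by ring, by ring⟩

lemma Tan_TQ {e : ℝ} {q : Pt × Pt} (h : Tan e q) : Tan e (TQ q) := by
  obtain ⟨h1, h2⟩ := h
  obtain ⟨⟨x, y, z⟩, ⟨a, b, c⟩⟩ := q
  have h1' : FV (x, y, z) = 1 + e ^ 2 := h1
  refine ⟨?_, ?_⟩
  · show FV (y, x, z) = 1 + e ^ 2
    rw [← h1']; unfold FV; ring
  · simp only [TQ, Qs, dFV] at h2 ⊢
    linear_combination h2

lemma Base.mono {e L L' : ℝ} {q : Pt × Pt} (h : Base e L' q) (hL : L ≤ L') : Base e L q :=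
  ⟨h.tan, h.y_lt, h.z_lt, h.vy, h.r, h.g,
    (mul_le_mul_of_nonneg_right hL (abs_nonneg _)).trans h.p⟩

/-! ### states -/

/-- The state of an orbit point with `|y| < 1`. -/
def St (e L : ℝ) (q : Pt × Pt) : Prop :=
  |q.1.2.1| < 1 ∧ ((|q.1.2.2| < 1 ∧ Base e L q ∧ 0 ≤ q.2.2.2 * q.2.2.1 * D q.1) ∨
    (1 ≤ |q.1.2.2| ∧ Base e L (TUinv q)))

lemma St.mono {e L L' : ℝ} {q : Pt × Pt} (h : St e L' q) (hL : L ≤ L') : St e L q := by
  refine ⟨h.1, ?_⟩
  rcases h.2 with ⟨h1, h2, h3⟩ | ⟨h1, h2⟩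
  · exact Or.inl ⟨h1, h2.mono hL, h3⟩
  · exact Or.inr ⟨h1, h2.mono hL⟩

lemma St_base {e L : ℝ} {q : Pt × Pt} (h : St e L q) : ∃ (b : Pt × Pt) (a : ℕ), Base e L b ∧
    (∀ j, TU^[a + j] b = TU^[j] q) ∧ (∀ j, 1 ≤ j → okj b (a + j)) ∧ b.2.2.1 = q.2.2.1 ∧
    b.1.2.1 = q.1.2.1 := by
  rcases h.2 with ⟨h1, h2, h3⟩ | ⟨h1, h2⟩
  · refine ⟨q, 0, h2, fun j => by rw [Nat.zero_add], fun j hj => ?_, rfl, rfl⟩
    rw [Nat.zero_add]; exact Or.inl ⟨h3, hj⟩
  · refine ⟨TUinv q, 1, h2, fun j => ?_, fun j hj => Or.inr (by omega), rfl, rfl⟩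
    rw [Nat.add_comm, Function.iterate_succ_apply, TU_TUinv]

/-- The value `z (U^j p)` in terms of the tangent orbit. -/
lemma TU_iter_z {b q : Pt × Pt} {i j : ℕ} (h : TU^[i] b = TU^[j] q) :
    (U^[i] b.1).2.2 = (U^[j] q.1).2.2 := by
  rw [← TU_iter_fst, ← TU_iter_fst, h]

lemma St_E {e L : ℝ} (he : 0 < e) {q : Pt × Pt} (h : St e L q) {j : ℕ} (hj : 1 ≤ j)
    (ht : |(U^[j] q.1).2.2| < 1) : St e (max L (q.2.2.1 ^ 2 / 4)) (TT j q) := by
  obtain ⟨b, a, hb, hbj, hok, hby, hby1⟩ := St_base h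
  have h1 : |(U^[a + j] b.1).2.2| < 1 := by rw [TU_iter_z (hbj j)]; exact ht
  have h2 := mvE he hb (hok j hj) h1
  rw [hbj j, hby] at h2
  have h3 : TT j q = TP (TU^[j] q) := rfl
  rw [h3]
  refine ⟨h2.1.y_lt, Or.inl ⟨h2.1.z_lt, h2.1, h2.2⟩⟩

/-- From a state to the first rim base. -/
lemma St_M {e L : ℝ} (he : 0 < e) {q : Pt × Pt} (h : St e L q) {j : ℕ} (hj : 1 ≤ j)
    (hc : 1 ≤ |(U^[j] q.1).2.2|) (ht : |(U^[j + 1] q.1).2.2| < 1) :
    Base e (max L (q.2.2.1 ^ 2 / 4)) (TQ (TT j q)) := by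
  obtain ⟨b, a, hb, hbj, hok, hby, hby1⟩ := St_base h
  have h1 : 1 ≤ |(U^[a + j] b.1).2.2| := by rw [TU_iter_z (hbj j)]; exact hc
  have h2 : |(U^[a + j + 1] b.1).2.2| < 1 := by
    have := TU_iter_z (hbj (j + 1))
    rw [← Nat.add_assoc] at this
    rw [this]; exact ht
  have h3 := mvM he hb (by omega) h1 h2
  rw [hbj j, hby] at h3
  exact h3

/-- One rim step. -/
lemma rim_step {e L : ℝ} (he : 0 < e) {q : Pt × Pt} (h : Base e L (TQ q))
    (hc : 1 ≤ |q.1.2.1|) (ht : |(TU q).1.1| < 1) :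
    Base e (max L (q.2.1 ^ 2 / 4)) (TQ (TU q)) := by
  have h1 : 1 ≤ |(U^[1] (TQ q).1).2.2| := hc
  have h2 : |(U^[1 + 1] (TQ q).1).2.2| < 1 := by
    have : (U^[1 + 1] (TQ q).1).2.2 = (TU q).1.1 := by
      obtain ⟨⟨x, y, z⟩, ⟨a, b, c⟩⟩ := q
      simp only [Function.iterate_succ_apply', Function.iterate_zero, id, TU, TQ, Qs, U]
      ring
    rw [this]; exact ht
  have h3 := mvM he h le_rfl h1 h2
  have h4 : TRh (TU^[1] (TQ q)) = TQ (TU q) := TRh_TU_TQ q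
  rw [h4] at h3
  exact h3

lemma TU_iter_fst_x (j : ℕ) (q : Pt × Pt) : (TU^[j] q).1.1 = (U^[j + 1] q.1).2.2 := by
  rw [TU_iter_fst, U_iter_x]

lemma TU_iter_fst_y (j : ℕ) (q : Pt × Pt) : (TU^[j] q).1.2.1 = q.1.2.1 := by
  rw [TU_iter_fst, U_iter_y]

lemma rim_iter {e L : ℝ} (he : 0 < e) {q : Pt × Pt} (h : Base e L (TQ q))
    (hc : 1 ≤ |q.1.2.1|) (j : ℕ) (ht : ∀ i, 1 ≤ i → i ≤ j + 1 → |(U^[i] q.1).2.2| < 1) :
    Base e L (TQ (TU^[j] q)) ∧ (1 ≤ j → Base e (max L (q.2.1 ^ 2 / 4)) (TQ (TU^[j] q))) := by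
  induction j with
  | zero => exact ⟨h, fun h => absurd h (by norm_num)⟩
  | succ j ih =>
    have ih' := ih (fun i h1 h2 => ht i h1 (by omega))
    have h1 : 1 ≤ |(TU^[j] q).1.2.1| := by rw [TU_iter_fst_y]; exact hc
    have h2 : |(TU (TU^[j] q)).1.1| < 1 := by
      have : (TU (TU^[j] q)).1.1 = (U^[j + 1 + 1] q.1).2.2 := by
        rw [← TU_iter_fst_x (j + 1) q, Function.iterate_succ_apply']
      rw [this]; exact ht _ (by omega) le_rfl
    have h3 := rim_step he ih'.1 h1 h2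
    rw [Function.iterate_succ_apply']
    refine ⟨h3.mono (le_max_left _ _), fun _ => ?_⟩
    rcases Nat.eq_zero_or_pos j with rfl | hj
    · exact h3
    · exact (rim_step he (ih'.2 hj) h1 h2).mono (le_max_left _ _)

/-- End of the rim. -/
lemma rim_end {e L : ℝ} {q : Pt × Pt} {j : ℕ} (h : Base e L (TQ (TU^[j] q)))
    (hc : 1 ≤ |q.1.2.1|) : St e L (TT (j + 1) q) := by
  have h1 : TUinv (TT (j + 1) q) = TQ (TU^[j] q) := by
    show TUinv (TP (TU^[j + 1] q)) = _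
    rw [Function.iterate_succ_apply', TUinv_TP_TU]
  have h2 := h.y_lt
  have h3 : (TT (j + 1) q).1.2.1 = (TQ (TU^[j] q)).1.2.1 := by
    rw [← h1]; rfl
  have h4 : (TT (j + 1) q).1.2.2 = q.1.2.1 := by
    rw [TT_fst]; exact T_z _ _
  refine ⟨by rw [h3]; exact h2, Or.inr ⟨by rw [h4]; exact hc, by rw [h1]; exact h⟩⟩

/-! ### the chain -/

section

variable {e : ℝ} {k : ℕ → ℕ} {q : Pt × Pt}

lemma torb_y (k : ℕ → ℕ) (n : ℕ) (q : Pt × Pt) : (torb k n q).1.2.1 = yv k n q.1 := by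
  rw [torb_fst]; rfl

lemma torb_z_succ (k : ℕ → ℕ) (n : ℕ) (q : Pt × Pt) :
    (torb k (n + 1) q).1.2.2 = yv k n q.1 := by
  rw [torb_fst]; exact orb_succ_z _ _ _

lemma torb_U_z (k : ℕ → ℕ) (n j : ℕ) (q : Pt × Pt) :
    (U^[j] (torb k n q).1).2.2 = tv k n j q.1 := by
  rw [torb_fst]; rfl

lemma tv_k (k : ℕ → ℕ) (n : ℕ) (p : Pt) : tv k n (k n) p = yv k (n + 1) p := rfl

lemma tv_zero (k : ℕ → ℕ) (n : ℕ) (p : Pt) : tv k (n + 1) 0 p = yv k n p := orb_succ_z _ _ _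

lemma tv_k_succ (k : ℕ → ℕ) (n : ℕ) (p : Pt) : tv k n (k n + 1) p = tv k (n + 1) 1 p := by
  show (U^[k n + 1] (orb k n p)).2.2 = (U^[1] (orb k (n + 1) p)).2.2
  rw [← U_iter_x]; rfl

/-- Two consecutive values: one is `< 1`. -/
lemma pair_lt (he : 0 < e) (hk : ∀ i, 1 ≤ k i) {p : Pt} (hp : p ∈ Surf e) (hz : |p.2.2| < 1)
    {n N : ℕ} (hnN : n + 1 < N) (hN : |yv k N p| < V e) (h : 1 ≤ |yv k (n + 1) p|) :
    |yv k n p| < 1 := by
  have h1 := struct_pair he hk hp (m := 0) (n := n + 1) (N := N) (by omega) hnN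
    (lt_trans hz (one_lt_V he)) hN
  rcases h1 with h1 | h1
  · exact absurd h1 (not_lt.2 h)
  · rwa [orb_succ_z] at h1

/-- Rim values are `< 1`. -/
lemma rim_lt (he : 0 < e) {p : Pt} (hp : p ∈ Surf e) (n : ℕ) (h : 1 ≤ |yv k n p|)
    (hz : |(orb k n p).2.2| < 1) {J : ℕ} (hJ : |tv k n J p| < V e) {j : ℕ} (hj : 0 < j)
    (hjJ : j < J) : |tv k n j p| < 1 :=
  struct_rim he (orb_mem hp k n) h (lt_trans hz (one_lt_V he)) hJ hj hjJ

lemma torb_succ (k : ℕ → ℕ) (n : ℕ) (q : Pt × Pt) : torb k (n + 1) q = TT (k n) (torb k n q) := rfl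

/-- From a state at time `n` through a rim to a state at time `n + 2`. -/
lemma St_two (he : 0 < e) (hk : ∀ i, 1 ≤ k i) (hq : Tan e q) {L : ℝ} {n : ℕ}
    (h : St e L (torb k n q)) (h1 : 1 ≤ |yv k (n + 1) q.1|) (h2 : |yv k (n + 2) q.1| < 1) :
    St e (max L ((torb k n q).2.2.1 ^ 2 / 4)) (torb k (n + 2) q) := by
  have hz : |(orb k (n + 1) q.1).2.2| < 1 := by
    rw [orb_succ_z]
    have := h.1
    rwa [torb_y] at this
  have hall : ∀ i, 1 ≤ i → i ≤ k (n + 1) → |tv k (n + 1) i q.1| < 1 := by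
    intro i hi hi2
    rcases Nat.lt_or_ge i (k (n + 1)) with hlt | hge
    · exact rim_lt he hq.1 (n + 1) h1 hz (lt_trans h2 (one_lt_V he)) (by omega) hlt
    · have : i = k (n + 1) := le_antisymm hi2 hge
      rw [this]; exact h2
  have hM := St_M he h (hk n) (by rw [torb_U_z]; exact h1)
    (by rw [torb_U_z, tv_k_succ]; exact hall 1 le_rfl (hk _))
  obtain ⟨K, hK⟩ : ∃ K, k (n + 1) = K + 1 := ⟨k (n + 1) - 1, by have := hk (n + 1); omega⟩
  have hR := (rim_iter (e := e) he (q := torb k (n + 1) q) hM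
    (by rw [torb_y]; exact h1) K
    (fun i hi hi2 => by rw [torb_U_z]; exact hall i hi (by omega))).1
  have hE := rim_end hR (by rw [torb_y]; exact h1)
  have : torb k (n + 2) q = TT (K + 1) (torb k (n + 1) q) := by
    rw [torb_succ k (n + 1) q, hK]
  rw [this]
  exact hE

/-- The chain: states propagate. -/
lemma chain (he : 0 < e) (hk : ∀ i, 1 ≤ k i) (hq : Tan e q) (hz : |q.1.2.2| < 1) {L : ℝ} {m : ℕ}
    (h : St e L (torb k m q)) (n : ℕ) (hmn : m < n) (hn : |yv k n q.1| < 1) :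
    St e (max L ((torb k m q).2.2.1 ^ 2 / 4)) (torb k n q) := by
  induction n using Nat.strong_induction_on with
  | _ n ih =>
    obtain ⟨n, rfl⟩ : ∃ n', n = n' + 1 := ⟨n - 1, by omega⟩
    rcases lt_or_ge |yv k n q.1| 1 with h1 | h1
    · rcases Nat.eq_or_lt_of_le (Nat.lt_succ_iff.1 hmn) with rfl | hlt
      · exact St_E he h (hk m) (by rw [torb_U_z]; exact hn)
      · have h2 := ih n (by omega) hlt h1
        exact (St_E he h2 (hk n) (by rw [torb_U_z]; exact hn)).mono (le_max_left _ _)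
    · have hmn' : m < n := by
        rcases Nat.eq_or_lt_of_le (Nat.lt_succ_iff.1 hmn) with rfl | hlt
        · have := h.1
          rw [torb_y] at this
          exact absurd this (not_lt.2 h1)
        · exact hlt
      obtain ⟨n, rfl⟩ : ∃ n', n = n' + 1 := ⟨n - 1, by omega⟩
      have h2 : |yv k n q.1| < 1 :=
        pair_lt he hk hq.1 hz (by omega) (lt_trans hn (one_lt_V he)) h1
      rcases Nat.eq_or_lt_of_le (Nat.lt_succ_iff.1 hmn') with rfl | hlt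
      · exact St_two he hk hq h h1 hn
      · exact (St_two he hk hq (ih n (by omega) hlt h2) h1 hn).mono (le_max_left _ _)

/-- Every value `< V` is reached from a base. -/
lemma reach (he : 0 < e) (hk : ∀ i, 1 ≤ k i) (hq : Tan e q) (hz : |q.1.2.2| < 1) {L : ℝ} {m : ℕ}
    (h : St e L (torb k m q)) {N : ℕ} (hmN : m < N) (hN : |yv k N q.1| < V e) :
    ∃ (L' : ℝ) (b : Pt × Pt) (j : ℕ), Base e L' b ∧ okj b j ∧
      (U^[j] b.1).2.2 = yv k N q.1 ∧ (TU^[j] b).2.2.2 = (torb k N q).2.2.1 ∧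
      max L ((torb k m q).2.2.1 ^ 2 / 4) ≤ max L' (b.2.2.1 ^ 2 / 4) := by
  obtain ⟨N, rfl⟩ : ∃ N', N = N' + 1 := ⟨N - 1, by omega⟩
  have hval : ∀ (b : Pt × Pt) (a : ℕ), (∀ j, TU^[a + j] b = TU^[j] (torb k N q)) →
      (U^[a + k N] b.1).2.2 = yv k (N + 1) q.1 ∧
      (TU^[a + k N] b).2.2.2 = (torb k (N + 1) q).2.2.1 := by
    intro b a hb
    refine ⟨?_, ?_⟩
    · rw [TU_iter_z (hb (k N)), torb_U_z]; rfl
    · rw [hb (k N)]; rfl
  rcases lt_or_ge |yv k N q.1| 1 with h1 | h1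
  · rcases Nat.eq_or_lt_of_le (Nat.lt_succ_iff.1 hmN) with rfl | hlt
    · obtain ⟨b, a, hb, hbj, hok, hby, hby1⟩ := St_base h
      obtain ⟨h2, h3⟩ := hval b a hbj
      exact ⟨L, b, a + k m, hb, hok _ (hk m), h2, h3, by rw [hby]⟩
    · obtain ⟨b, a, hb, hbj, hok, hby, hby1⟩ := St_base (chain he hk hq hz h N hlt h1)
      obtain ⟨h2, h3⟩ := hval b a hbj
      exact ⟨_, b, a + k N, hb, hok _ (hk N), h2, h3, le_max_left _ _⟩
  · have hmN' : m < N := by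
      rcases Nat.eq_or_lt_of_le (Nat.lt_succ_iff.1 hmN) with rfl | hlt
      · have := h.1
        rw [torb_y] at this
        exact absurd this (not_lt.2 h1)
      · exact hlt
    obtain ⟨n, rfl⟩ : ∃ n', N = n' + 1 := ⟨N - 1, by omega⟩
    have h2 : |yv k n q.1| < 1 := pair_lt he hk hq.1 hz (by omega) hN h1
    -- state at time `n`
    obtain ⟨L', hL', hS⟩ : ∃ L', max L ((torb k m q).2.2.1 ^ 2 / 4) ≤
        max L' ((torb k n q).2.2.1 ^ 2 / 4) ∧ St e L' (torb k n q) := by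
      rcases Nat.eq_or_lt_of_le (Nat.lt_succ_iff.1 hmN') with rfl | hlt
      · exact ⟨L, le_rfl, h⟩
      · exact ⟨_, le_max_left _ _, chain he hk hq hz h n hlt h2⟩
    have hz' : |(orb k (n + 1) q.1).2.2| < 1 := by rw [orb_succ_z]; exact h2
    have hrim : ∀ i, 1 ≤ i → i < k (n + 1) → |tv k (n + 1) i q.1| < 1 := fun i hi hi2 =>
      rim_lt he hq.1 (n + 1) h1 hz' hN (by omega) hi2
    rcases Nat.lt_or_ge 1 (k (n + 1)) with hK | hK
    · -- long rim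
      obtain ⟨K, hK'⟩ : ∃ K, k (n + 1) = K + 2 := ⟨k (n + 1) - 2, by omega⟩
      have hM := St_M he hS (hk n) (by rw [torb_U_z]; exact h1)
        (by rw [torb_U_z, tv_k_succ]; exact hrim 1 le_rfl hK)
      have hR := (rim_iter (e := e) he (q := torb k (n + 1) q) hM
        (by rw [torb_y]; exact h1) K
        (fun i hi hi2 => by rw [torb_U_z]; exact hrim i hi (by omega))).1
      refine ⟨_, TQ (TU^[K] (torb k (n + 1) q)), 2, hR, Or.inr le_rfl, ?_, ?_,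
        hL'.trans (le_max_left _ _)⟩
      · have e1 : (U^[2] (TQ (TU^[K] (torb k (n + 1) q))).1).2.2
            = (TU (TU^[K] (torb k (n + 1) q))).1.1 := by
          generalize TU^[K] (torb k (n + 1) q) = w
          obtain ⟨⟨x, y, z⟩, ⟨a, b, c⟩⟩ := w
          simp only [Function.iterate_succ_apply', Function.iterate_zero, id, TU, TQ, Qs, U]
          ring
        have e2 : (TU (TU^[K] (torb k (n + 1) q))).1.1 = tv k (n + 1) (K + 2) q.1 := by
          rw [← Function.iterate_succ_apply' TU K, TU_iter_fst_x, torb_U_z]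
        rw [e1, e2, ← hK']; rfl
      · have e1 : (TU^[2] (TQ (TU^[K] (torb k (n + 1) q)))).2.2.2
            = (TU (TU^[K] (torb k (n + 1) q))).2.1 := by
          generalize TU^[K] (torb k (n + 1) q) = w
          obtain ⟨⟨x, y, z⟩, ⟨a, b, c⟩⟩ := w
          simp only [Function.iterate_succ_apply', Function.iterate_zero, id, TU, TQ, Qs, U, dU]
          ring
        have e2 : (TU (TU^[K] (torb k (n + 1) q))).2.1
            = (TU^[K + 2] (torb k (n + 1) q)).2.2.2 := by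
          rw [← Function.iterate_succ_apply' TU K, TU_iter_vx]
        rw [e1, e2, ← hK']; rfl
    · -- rim of length one
      have hK1 : k (n + 1) = 1 := le_antisymm hK (hk _)
      obtain ⟨b, a, hb, hbj, hok, hby, hby1⟩ := St_base hS
      refine ⟨L', b, a + (k n + 1), hb, hok _ (by omega), ?_, ?_, ?_⟩
      · rw [TU_iter_z (hbj (k n + 1)), torb_U_z, tv_k_succ]
        show tv k (n + 1) 1 q.1 = tv k (n + 1) (k (n + 1)) q.1
        rw [hK1]
      · rw [hbj (k n + 1), ← TU_iter_vx]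
        have : (torb k (n + 1 + 1) q).2.2.1 = (TU^[k (n + 1)] (torb k (n + 1) q)).2.2.2 := rfl
        rw [this, hK1]
        rfl
      · rw [hby]; exact hL'

end

end TM
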