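import Pool.Agent.Helper55.TM.Chain

/-!
# MP_fc8395_an : nonvanishing, monotone growth, growth along rims
-/

set_option autoImplicit false

open scoped ContDiff Topology
open Filter Set

namespace TM

section

variable {e : ℝ} {k : ℕ → ℕ} {q : Pt × Pt}

lemma B_lt_V' (he : 0 < e) {x : ℝ} (h : |x| ≤ B e) : |x| < V e := lt_of_le_of_lt h (B_lt_V he)

lemma sq_le_of_B {x : ℝ} (h : |x| ≤ B e) : x ^ 2 ≤ 1 + e ^ 2 / 2 := by
  rw [← B_sq, ← sq_abs x]
  exact pow_le_pow_left₀ (abs_nonneg _) h 2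

/-- A horizontal tangent vector has nonzero `y`-component if `|y| < V`. -/
lemma start_vy (he : 0 < e) (hq : Tan e q) (hz : |q.1.2.2| < 1) (hv : q.2.2.2 = 0)
    (hv0 : q.2 ≠ 0) (hy : |q.1.2.1| < V e) : q.2.2.1 ≠ 0 := by
  intro h
  have hD : D q.1 ≠ 0 := by
    intro h0
    have h1 := D_sq hq.1
    rw [h0] at h1
    have hy2 : q.1.2.1 ^ 2 < 1 + e ^ 2 := by
      rw [← V_sq, ← sq_abs]; exact pow_lt_pow_left₀ hy (abs_nonneg _) (by norm_num)
    have hz2 : q.1.2.2 ^ 2 < 1 := by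
      rw [← sq_abs]; exact pow_lt_one₀ (abs_nonneg _) hz (by norm_num)
    nlinarith [sq_nonneg q.1.2.2, mul_pos (sub_pos.2 hy2) (sub_pos.2 hz2),
      mul_nonneg (sq_nonneg e) (sq_nonneg q.1.2.2), pow_pos he 2]
  have h2 := hq.2
  apply hv0
  obtain ⟨⟨x, y, z⟩, ⟨a, b, c⟩⟩ := q
  simp only at h hv
  subst h hv
  simp only [dFV] at h2
  have h3 : D (x, y, z) * a = 0 := by
    unfold D; simp only; linarith
  rcases mul_eq_zero.1 h3 with h4 | h4
  · exact absurd h4 hD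
  · rw [h4]; rfl

lemma start_St (he : 0 < e) (hq : Tan e q) (hz : |q.1.2.2| < 1) (hv : q.2.2.2 = 0)
    (hv0 : q.2 ≠ 0) (hy : |q.1.2.1| < 1) : St e 0 q := by
  have h1 := start_vy he hq hz hv hv0 (lt_trans hy (one_lt_V he))
  have h2 : 0 ≤ q.2.2.2 * q.2.2.1 * D q.1 := by rw [hv]; simp
  refine ⟨hy, Or.inl ⟨hz, ⟨hq, hy, hz, h1, Or.inl h2, ?_, ?_⟩, h2⟩⟩
  · rw [hv, abs_zero, mul_zero]; positivity
  · rw [zero_mul]; positivity

/-- The start with `|y| ≥ 1`. -/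
lemma start_rim (he : 0 < e) (hq : Tan e q) (hz : |q.1.2.2| < 1) (hv : q.2.2.2 = 0)
    (hv0 : q.2 ≠ 0) (hx : |q.1.1| < V e) : (TQ q).2.2.1 ≠ 0 := by
  refine start_vy he (Tan_TQ hq) hz hv ?_ hx
  intro h
  apply hv0
  obtain ⟨⟨x, y, z⟩, ⟨a, b, c⟩⟩ := q
  simp only [TQ, Qs] at h
  have h1 := congrArg Prod.fst h
  have h2 := congrArg (fun p : Pt => p.2.1) h
  have h3 := congrArg (fun p : Pt => p.2.2) h
  simp only at h1 h2 h3
  show (a, b, c) = 0
  rw [h1, h2, h3]; rfl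

lemma start_rim_base (he : 0 < e) (hq : Tan e q) (hz : |q.1.2.2| < 1) (hv : q.2.2.2 = 0)
    (hv0 : q.2 ≠ 0) (hx : |q.1.1| < 1) : Base e 0 (TQ q) := by
  have h1 := start_rim he hq hz hv hv0 (lt_trans hx (one_lt_V he))
  have hv' : (TQ q).2.2.2 = 0 := hv
  have h2 : 0 ≤ (TQ q).2.2.2 * (TQ q).2.2.1 * D (TQ q).1 := by rw [hv']; simp
  refine ⟨Tan_TQ hq, hx, hz, h1, Or.inl h2, ?_, ?_⟩
  · rw [hv', abs_zero, mul_zero]; positivity
  · rw [zero_mul]; positivity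

lemma tv_zero_one (k : ℕ → ℕ) (p : Pt) : tv k 0 1 p = p.1 := rfl

/-- States at all times with `|y_n| < 1`. -/
lemma St_all (he : 0 < e) (hk : ∀ i, 1 ≤ k i) (hq : Tan e q) (hz : |q.1.2.2| < 1)
    (hv : q.2.2.2 = 0) (hv0 : q.2 ≠ 0) (n : ℕ) (hn : |yv k n q.1| < 1) :
    St e 0 (torb k n q) := by
  rcases Nat.eq_zero_or_pos n with rfl | hn0
  · exact start_St he hq hz hv hv0 hn
  rcases lt_or_ge |yv k 0 q.1| 1 with h0 | h0
  · exact (chain he hk hq hz (m := 0) (start_St he hq hz hv hv0 h0) n hn0 hn).mono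
      (le_max_left _ _)
  · -- start with a rim
    have h1 : |yv k 1 q.1| < 1 := by
      rcases Nat.eq_or_lt_of_le hn0 with h | h
      · rw [← h] at hn; exact hn
      · by_contra hc
        exact absurd (pair_lt he hk hq.1 hz h (lt_trans hn (one_lt_V he)) (not_lt.1 hc))
          (not_lt.2 h0)
    have hall : ∀ i, 1 ≤ i → i ≤ k 0 → |tv k 0 i q.1| < 1 := by
      intro i hi hi2
      rcases Nat.lt_or_ge i (k 0) with hlt | hge
      · exact rim_lt he hq.1 0 h0 hz (lt_trans h1 (one_lt_V he)) (by omega) hlt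
      · have : i = k 0 := le_antisymm hi2 hge
        rw [this]; exact h1
    have hB := start_rim_base he hq hz hv hv0 (hall 1 le_rfl (hk 0))
    obtain ⟨K, hK⟩ : ∃ K, k 0 = K + 1 := ⟨k 0 - 1, by have := hk 0; omega⟩
    have hR := (rim_iter he hB h0 K (fun i hi hi2 => hall i hi (by omega))).1
    have hE := rim_end hR h0
    have hS : St e 0 (torb k 1 q) := by
      have : torb k 1 q = TT (K + 1) q := by
        show TT (k 0) q = _
        rw [hK]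
      rw [this]; exact hE
    rcases Nat.eq_or_lt_of_le hn0 with h | h
    · have : n = 1 := h.symm
      rw [this]; exact hS
    · exact (chain he hk hq hz hS n h hn).mono (le_max_left _ _)

/-- Every value `< V` is reached from a base, or is the first rim value. -/
lemma reach_start (he : 0 < e) (hk : ∀ i, 1 ≤ k i) (hq : Tan e q) (hz : |q.1.2.2| < 1)
    (hv : q.2.2.2 = 0) (hv0 : q.2 ≠ 0) {N : ℕ} (hN : |yv k N q.1| < V e) :
    (torb k N q).2.2.1 ≠ 0 := by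
  rcases Nat.eq_zero_or_pos N with rfl | hN0
  · exact start_vy he hq hz hv hv0 hN
  have hfin : ∀ {m : ℕ}, m < N → St e 0 (torb k m q) → (torb k N q).2.2.1 ≠ 0 := by
    intro m hm hS
    obtain ⟨L', b, j, hb, hok, h1, h2, _⟩ := reach he hk hq hz hS hm hN
    rw [← h2]
    exact mv_ne he hb hok (by rw [h1]; exact hN)
  rcases lt_or_ge |yv k 0 q.1| 1 with h0 | h0
  · exact hfin hN0 (start_St he hq hz hv hv0 h0)
  rcases Nat.eq_or_lt_of_le hN0 with h | h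
  · have hN1 : N = 1 := h.symm
    subst hN1
    rcases Nat.lt_or_ge 1 (k 0) with hK | hK
    · obtain ⟨K, hK'⟩ : ∃ K, k 0 = K + 2 := ⟨k 0 - 2, by omega⟩
      have hrim : ∀ i, 1 ≤ i → i < k 0 → |tv k 0 i q.1| < 1 := fun i hi hi2 =>
        rim_lt he hq.1 0 h0 hz hN (by omega) hi2
      have hB := start_rim_base he hq hz hv hv0 (hrim 1 le_rfl hK)
      have hR := (rim_iter he hB h0 K (fun i hi hi2 => hrim i hi (by omega))).1
      have e0 : (U^[2] (TQ (TU^[K] q)).1).2.2 = (TU (TU^[K] q)).1.1 := by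
        generalize TU^[K] q = w
        obtain ⟨⟨x, y, z⟩, ⟨a, b, c⟩⟩ := w
        simp only [Function.iterate_succ_apply', Function.iterate_zero, id, TU, TQ, Qs, U]
        ring
      have e1 : (TU^[2] (TQ (TU^[K] q))).2.2.2 = (TU (TU^[K] q)).2.1 := by
        generalize TU^[K] q = w
        obtain ⟨⟨x, y, z⟩, ⟨a, b, c⟩⟩ := w
        simp only [Function.iterate_succ_apply', Function.iterate_zero, id, TU, TQ, Qs, U, dU]
        ring
      have e2 : (TU (TU^[K] q)).2.1 = (torb k 1 q).2.2.1 := by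
        rw [← Function.iterate_succ_apply' TU K, TU_iter_vx]
        show (TU^[K + 2] q).2.2.2 = (TU^[k 0] q).2.2.2
        rw [hK']
      have e3 : (TU (TU^[K] q)).1.1 = yv k 1 q.1 := by
        rw [← Function.iterate_succ_apply' TU K, TU_iter_fst_x]
        show (U^[K + 2] q.1).2.2 = (U^[k 0] q.1).2.2
        rw [hK']
      rw [← e2, ← e1]
      exact mv_ne he hR (Or.inr le_rfl) (by rw [e0, e3]; exact hN)
    · have hK1 : k 0 = 1 := le_antisymm hK (hk _)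
      have hx : yv k 1 q.1 = q.1.1 := by
        show (U^[k 0] q.1).2.2 = _
        rw [hK1]; rfl
      have hvx : (torb k 1 q).2.2.1 = q.2.1 := by
        show (TU^[k 0] q).2.2.2 = _
        rw [hK1]; rfl
      rw [hvx]
      exact start_rim he hq hz hv hv0 (by rw [← hx]; exact hN)
  · have h1 : |yv k 1 q.1| < 1 := by
      by_contra hc
      exact absurd (pair_lt he hk hq.1 hz h hN (not_lt.1 hc)) (not_lt.2 h0)
    exact hfin h (St_all he hk hq hz hv hv0 1 h1)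

/-- (T1) nonvanishing. -/
theorem nonvanish (he : 0 < e) (hk : ∀ i, 1 ≤ k i) (hq : Tan e q) (hz : |q.1.2.2| < 1)
    (hv : q.2.2.2 = 0) (hv0 : q.2 ≠ 0) {N : ℕ} (hN : |yv k N q.1| < V e) :
    (torb k N q).2.2.1 ≠ 0 := reach_start he hk hq hz hv hv0 hN

lemma rho_ident {p : Pt} : (p.2.1 - p.1 * p.2.2) = - D (Qs p) := by
  unfold D Qs; ring

/-- Comparison at the start. -/
lemma start_prev (he : 0 < e) (hq : Tan e q) (hz : |q.1.2.2| < 1) (hv : q.2.2.2 = 0)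
    (hy : 1 ≤ |q.1.2.1|) (hx : |q.1.1| ≤ B e) :
    q.2.2.1 ^ 2 ≤ 2 * q.2.1 ^ 2 := by
  have h1 := D_sq hq.1
  have h2 := D_sq (Tan_TQ hq).1
  have h3 : D q.1 * q.2.1 + D (TQ q).1 * q.2.2.1 = 0 := by
    have h := hq.2
    obtain ⟨⟨x, y, z⟩, ⟨a, b, c⟩⟩ := q
    simp only at hv
    subst hv
    simp only [dFV, D, TQ, Qs] at h ⊢
    linarith
  have hz2 : q.1.2.2 ^ 2 < 1 := by
    rw [← sq_abs]; exact pow_lt_one₀ (abs_nonneg _) hz (by norm_num)
  have hy2 : 1 ≤ q.1.2.1 ^ 2 := by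
    rw [← sq_abs]; exact one_le_pow₀ hy
  have hx2 : q.1.1 ^ 2 ≤ 1 + e ^ 2 / 2 := sq_le_of_B hx
  have h4 : D q.1 ^ 2 ≤ e ^ 2 := by nlinarith
  have h5 : e ^ 2 / 2 ≤ D (TQ q).1 ^ 2 := by
    have : D (TQ q).1 ^ 2 = e ^ 2 + (1 - q.1.1 ^ 2) * (1 - q.1.2.2 ^ 2) := h2
    rw [this]
    nlinarith [sq_nonneg q.1.2.2, mul_nonneg (sq_nonneg e) (sq_nonneg q.1.2.2)]
  have h6 : D (TQ q).1 ^ 2 * q.2.2.1 ^ 2 = D q.1 ^ 2 * q.2.1 ^ 2 := by
    have : D (TQ q).1 * q.2.2.1 = - (D q.1 * q.2.1) := by linarith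
    rw [← mul_pow, this]; ring
  have h7 : e ^ 2 / 2 * q.2.2.1 ^ 2 ≤ e ^ 2 * q.2.1 ^ 2 := by
    calc e ^ 2 / 2 * q.2.2.1 ^ 2 ≤ D (TQ q).1 ^ 2 * q.2.2.1 ^ 2 :=
          mul_le_mul_of_nonneg_right h5 (sq_nonneg _)
      _ = D q.1 ^ 2 * q.2.1 ^ 2 := h6
      _ ≤ e ^ 2 * q.2.1 ^ 2 := mul_le_mul_of_nonneg_right h4 (sq_nonneg _)
  have he2 : 0 < e ^ 2 := pow_pos he 2
  have h8 : e ^ 2 * (q.2.2.1 ^ 2) ≤ e ^ 2 * (2 * q.2.1 ^ 2) := by linarith
  exact le_of_mul_le_mul_left h8 he2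

end

end TM
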