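import Pool.Agent.Helper55.TM.Chain2

/-!
# MP_fc8395_an : monotone growth, growth along rims
-/

set_option autoImplicit false

open scoped ContDiff Topology
open Filter Set

namespace TM

section

variable {e : ℝ} {k : ℕ → ℕ} {q : Pt × Pt}

lemma fin_of_St (he : 0 < e) (hk : ∀ i, 1 ≤ k i) (hq : Tan e q) (hz : |q.1.2.2| < 1) {L : ℝ}
    {m : ℕ} (h : St e L (torb k m q)) {n : ℕ} (hmn : m < n) (hn : |yv k n q.1| ≤ B e) :
    e ^ 2 / 8 * max L ((torb k m q).2.2.1 ^ 2 / 4) ≤ (torb k n q).2.2.1 ^ 2 := by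
  obtain ⟨L', b, j, hb, hok, h1, h2, h3⟩ := reach he hk hq hz h hmn (B_lt_V' he hn)
  have h4 := mv_fin he hb hok (by rw [h1]; exact sq_le_of_B hn)
  rw [h2] at h4
  refine le_trans ?_ h4
  exact mul_le_mul_of_nonneg_left h3 (by positivity)

lemma two_step_z (q : Pt × Pt) (K : ℕ) :
    (U^[2] (TQ (TU^[K] q)).1).2.2 = (U^[K + 2] q.1).2.2 ∧
    (TU^[2] (TQ (TU^[K] q))).2.2.2 = (TU^[K + 2] q).2.2.2 := by
  have e0 : (U^[2] (TQ (TU^[K] q)).1).2.2 = (TU (TU^[K] q)).1.1 := by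
    generalize TU^[K] q = w
    obtain ⟨⟨x, y, z⟩, ⟨a, b, c⟩⟩ := w
    simp only [Function.iterate_succ_apply', Function.iterate_zero, id, TU, TQ, Qs, U]
    ring
  have e1 : (TU^[2] (TQ (TU^[K] q))).2.2.2 = (TU (TU^[K] q)).2.1 := by
    generalize TU^[K] q = w
    obtain ⟨⟨x, y, z⟩, ⟨a, b, c⟩⟩ := w
    simp only [Function.iterate_succ_apply', Function.iterate_zero, id, TU, TQ, Qs, U, dU]
    ring
  have e2 : (TU (TU^[K] q)).2.1 = (TU^[K + 2] q).2.2.2 := by
    rw [← Function.iterate_succ_apply' TU K, TU_iter_vx]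
  have e3 : (TU (TU^[K] q)).1.1 = (U^[K + 2] q.1).2.2 := by
    rw [← Function.iterate_succ_apply' TU K, TU_iter_fst_x]
  exact ⟨e0.trans e3, e1.trans e2⟩

/-- From the beginning of a rim to a later value. -/
lemma rim_fin (he : 0 < e) (hk : ∀ i, 1 ≤ k i) (hq : Tan e q) (hz : |q.1.2.2| < 1) {m : ℕ}
    (hzm : |(orb k m q.1).2.2| < 1) (hy : 1 ≤ |yv k m q.1|)
    (hB : |tv k m 1 q.1| < 1 → Base e 0 (TQ (torb k m q))) {n : ℕ} (hmn : m < n)
    (hn : |yv k n q.1| ≤ B e) :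
    |tv k m 1 q.1| ≤ B e ∧
      (torb k m q).2.1 ^ 2 ≤ max 1 (32 / e ^ 2) * (torb k n q).2.2.1 ^ 2 := by
  have hsuc : |yv k (m + 1) q.1| ≤ B e := by
    rcases Nat.eq_or_lt_of_le hmn with h | h
    · rw [Nat.succ_eq_add_one] at h; rw [h]; exact hn
    · by_contra hc
      have hc' : 1 ≤ |yv k (m + 1) q.1| := (one_lt_B he).le.trans (not_le.1 hc).le
      exact absurd (pair_lt he hk hq.1 hz h (B_lt_V' he hn) hc') (not_lt.2 hy)
  have hrim : ∀ i, 1 ≤ i → i < k m → |tv k m i q.1| < 1 := fun i hi hi2 =>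
    rim_lt he hq.1 m hy hzm (J := k m) (by rw [tv_k]; exact B_lt_V' he hsuc) (by omega) hi2
  have he2 : 0 < e ^ 2 := pow_pos he 2
  have hx : |tv k m 1 q.1| ≤ B e := by
    rcases Nat.lt_or_ge 1 (k m) with h | h
    · exact ((hrim 1 le_rfl h).trans (one_lt_B he)).le
    · have : k m = 1 := le_antisymm h (hk _)
      have h2 : tv k m 1 q.1 = yv k (m + 1) q.1 := by rw [← tv_k, this]
      rw [h2]; exact hsuc
  refine ⟨hx, ?_⟩
  have hcon : ∀ {a b : ℝ}, e ^ 2 / 32 * a ≤ b → 0 ≤ b → a ≤ max 1 (32 / e ^ 2) * b := by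
    intro a b h hb
    have h1 : a ≤ 32 / e ^ 2 * b := by
      rw [div_mul_eq_mul_div, le_div_iff₀ he2]
      linarith
    exact h1.trans (mul_le_mul_of_nonneg_right (le_max_right _ _) hb)
  rcases Nat.eq_or_lt_of_le hmn with h | h
  · -- `n = m + 1`
    rw [Nat.succ_eq_add_one] at h
    subst h
    rcases Nat.lt_or_ge 1 (k m) with hK | hK
    · obtain ⟨K, hK'⟩ : ∃ K, k m = K + 2 := ⟨k m - 2, by omega⟩
      have hB' := hB (hrim 1 le_rfl hK)
      have hR := rim_iter (e := e) he (q := torb k m q) hB' (by rw [torb_y]; exact hy) K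
        (fun i hi hi2 => by rw [torb_U_z]; exact hrim i hi (by omega))
      obtain ⟨e0, e1⟩ := two_step_z (torb k m q) K
      have e2 : (U^[K + 2] (torb k m q).1).2.2 = yv k (m + 1) q.1 := by
        rw [torb_U_z, ← hK']; rfl
      have e3 : (TU^[K + 2] (torb k m q)).2.2.2 = (torb k (m + 1) q).2.2.1 := by
        rw [← hK']; rfl
      have hval : (U^[2] (TQ (TU^[K] (torb k m q))).1).2.2 ^ 2 ≤ 1 + e ^ 2 / 2 := by
        rw [e0, e2]; exact sq_le_of_B hn
      rcases Nat.eq_zero_or_pos K with hK0 | hK0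
      · subst hK0
        have h4 := mv_fin he hR.1 (Or.inr le_rfl) hval
        rw [e1, e3] at h4
        have h5 : (TQ (TU^[0] (torb k m q))).2.2.1 = (torb k m q).2.1 := rfl
        rw [h5] at h4
        refine hcon ?_ (sq_nonneg _)
        refine le_trans ?_ h4
        have := le_max_right (0 : ℝ) ((torb k m q).2.1 ^ 2 / 4)
        nlinarith
      · have h4 := mv_fin he (hR.2 hK0) (Or.inr le_rfl) hval
        rw [e1, e3] at h4
        refine hcon ?_ (sq_nonneg _)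
        refine le_trans ?_ h4
        have h6 : (torb k m q).2.1 ^ 2 / 4 ≤ max (max 0 ((torb k m q).2.1 ^ 2 / 4))
            ((TQ (TU^[K] (torb k m q))).2.2.1 ^ 2 / 4) :=
          (le_max_right _ _).trans (le_max_left _ _)
        nlinarith
    · have hK1 : k m = 1 := le_antisymm hK (hk _)
      have h5 : (torb k (m + 1) q).2.2.1 = (torb k m q).2.1 := by
        show (TU^[k m] (torb k m q)).2.2.2 = _
        rw [hK1]; rfl
      rw [h5]
      have : (1 : ℝ) ≤ max 1 (32 / e ^ 2) := le_max_left _ _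
      nlinarith [sq_nonneg (torb k m q).2.1]
  · -- `n > m + 1`
    have h1 : |yv k (m + 1) q.1| < 1 := by
      by_contra hc
      exact absurd (pair_lt he hk hq.1 hz h (B_lt_V' he hn) (not_lt.1 hc)) (not_lt.2 hy)
    have hall : ∀ i, 1 ≤ i → i ≤ k m → |tv k m i q.1| < 1 := by
      intro i hi hi2
      rcases Nat.lt_or_ge i (k m) with hlt | hge
      · exact hrim i hi hlt
      · have : i = k m := le_antisymm hi2 hge
        rw [this]; exact h1
    obtain ⟨K, hK'⟩ : ∃ K, k m = K + 1 := ⟨k m - 1, by have := hk m; omega⟩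
    have hB' := hB (hall 1 le_rfl (hk m))
    have hR := rim_iter (e := e) he (q := torb k m q) hB' (by rw [torb_y]; exact hy) K
      (fun i hi hi2 => by rw [torb_U_z]; exact hall i hi (by omega))
    have ht : torb k (m + 1) q = TT (K + 1) (torb k m q) := by
      rw [torb_succ, hK']
    have hyy : 1 ≤ |(torb k m q).1.2.1| := by rw [torb_y]; exact hy
    rcases Nat.eq_zero_or_pos K with hK0 | hK0
    · subst hK0
      have hS : St e 0 (torb k (m + 1) q) := by rw [ht]; exact rim_end hR.1 hyy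
      have h4 := fin_of_St he hk hq hz hS h hn
      have h5 : (torb k (m + 1) q).2.2.1 = (torb k m q).2.1 := by rw [ht]; rfl
      rw [h5] at h4
      refine hcon ?_ (sq_nonneg _)
      refine le_trans ?_ h4
      have := le_max_right (0 : ℝ) ((torb k m q).2.1 ^ 2 / 4)
      nlinarith
    · have hS : St e (max 0 ((torb k m q).2.1 ^ 2 / 4)) (torb k (m + 1) q) := by
        rw [ht]; exact rim_end (hR.2 hK0) hyy
      have h4 := fin_of_St he hk hq hz hS h hn
      refine hcon ?_ (sq_nonneg _)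
      refine le_trans ?_ h4
      have h6 : (torb k m q).2.1 ^ 2 / 4 ≤ max (max 0 ((torb k m q).2.1 ^ 2 / 4))
          ((torb k (m + 1) q).2.2.1 ^ 2 / 4) :=
        (le_max_right _ _).trans (le_max_left _ _)
      nlinarith

end

/-- (T2) monotone growth. -/
theorem growth_mono {e : ℝ} (he : 0 < e) : ∃ C : ℝ, 1 ≤ C ∧ ∀ (k : ℕ → ℕ), (∀ i, 1 ≤ k i) →
    ∀ q : Pt × Pt, Tan e q → |q.1.2.2| < 1 → q.2.2.2 = 0 → q.2 ≠ 0 → ∀ m n : ℕ, m ≤ n →
      |yv k m q.1| ≤ B e → |yv k n q.1| ≤ B e →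
      (torb k m q).2.2.1 ^ 2 ≤ C * (torb k n q).2.2.1 ^ 2 := by
  obtain ⟨C1, hC1, hprev⟩ := mv_prev he
  have he2 : 0 < e ^ 2 := pow_pos he 2
  set C0 : ℝ := max 1 (32 / e ^ 2) with hC0
  have hC01 : 1 ≤ C0 := le_max_left _ _
  set C2 : ℝ := max 2 C1 with hC2
  have hC22 : 2 ≤ C2 := le_max_left _ _
  refine ⟨C2 * C0, by nlinarith, ?_⟩
  intro k hk q hq hz hv hv0 m n hmn hm hn
  rcases Nat.eq_or_lt_of_le hmn with rfl | hlt
  · have : (1 : ℝ) ≤ C2 * C0 := by nlinarith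
    nlinarith [sq_nonneg (torb k m q).2.2.1]
  rcases lt_or_ge |yv k m q.1| 1 with h1 | h1
  · have hS := St_all he hk hq hz hv hv0 m h1
    have h4 := fin_of_St he hk hq hz hS hlt hn
    have h5 : (torb k m q).2.2.1 ^ 2 ≤ 32 / e ^ 2 * (torb k n q).2.2.1 ^ 2 := by
      rw [div_mul_eq_mul_div, le_div_iff₀ he2]
      have := le_max_right (0 : ℝ) ((torb k m q).2.2.1 ^ 2 / 4)
      nlinarith
    have h6 : 32 / e ^ 2 * (torb k n q).2.2.1 ^ 2 ≤ C0 * (torb k n q).2.2.1 ^ 2 :=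
      mul_le_mul_of_nonneg_right (le_max_right _ _) (sq_nonneg _)
    have h7 : C0 * (torb k n q).2.2.1 ^ 2 ≤ C2 * C0 * (torb k n q).2.2.1 ^ 2 := by
      refine mul_le_mul_of_nonneg_right ?_ (sq_nonneg _)
      nlinarith
    linarith
  · -- `|y_m| ≥ 1`
    rcases Nat.eq_zero_or_pos m with rfl | hm0
    · obtain ⟨hx, hx2⟩ := rim_fin he hk hq hz (m := 0) hz h1
        (fun h => start_rim_base he hq hz hv hv0 h) hlt hn
      have h3 := start_prev he hq hz hv h1 hx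
      have h3' : (torb k 0 q).2.2.1 ^ 2 ≤ 2 * (torb k 0 q).2.1 ^ 2 := h3
      have h4 : 2 * (torb k 0 q).2.1 ^ 2 ≤ C2 * (C0 * (torb k n q).2.2.1 ^ 2) := by
        have := mul_le_mul hC22 hx2 (sq_nonneg _) (by positivity)
        exact this
      rw [mul_assoc]
      exact h3'.trans h4
    · obtain ⟨m, rfl⟩ : ∃ m', m = m' + 1 := ⟨m - 1, by omega⟩
      have h2 : |yv k m q.1| < 1 := pair_lt he hk hq.1 hz hlt (B_lt_V' he hn) h1
      have hS := St_all he hk hq hz hv hv0 m h2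
      have hz' : |(orb k (m + 1) q.1).2.2| < 1 := by rw [orb_succ_z]; exact h2
      obtain ⟨hx, hx2⟩ := rim_fin he hk hq hz (m := m + 1) hz' h1
        (fun h => (St_M he hS (hk m) (by rw [torb_U_z]; exact h1)
          (by rw [torb_U_z, tv_k_succ]; exact h)).mono (le_max_left _ _)) hlt hn
      obtain ⟨b, a, hb, hbj, hok, hby, hby1⟩ := St_base hS
      have h3 := hprev 0 b hb (a + k m) (by have := hk m; omega)
        (by rw [TU_iter_z (hbj (k m)), torb_U_z]; exact h1)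
        (by
          have := TU_iter_z (hbj (k m + 1))
          rw [← Nat.add_assoc] at this
          rw [this, torb_U_z, tv_k_succ]; exact sq_le_of_B hx)
      rw [hbj (k m), Nat.add_assoc, hbj (k m + 1), ← TU_iter_vx] at h3
      have h4 : (torb k (m + 1) q).2.2.1 ^ 2 ≤ C1 * (torb k (m + 1) q).2.1 ^ 2 := h3
      have h5 : C1 * (torb k (m + 1) q).2.1 ^ 2 ≤ C2 * (C0 * (torb k n q).2.2.1 ^ 2) :=
        mul_le_mul (le_max_right _ _) hx2 (sq_nonneg _) (by positivity)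
      rw [mul_assoc]
      exact h4.trans h5

/-- (T3) growth along rims. -/
theorem rim_growth {e : ℝ} (he : 0 < e) : ∃ c : ℝ, 0 < c ∧ ∀ (k : ℕ → ℕ), (∀ i, 1 ≤ k i) →
    ∀ q : Pt × Pt, Tan e q → |q.1.2.2| < 1 → q.2.2.2 = 0 → q.2 ≠ 0 → ∀ n J : ℕ,
      |yv k n q.1| < 1 → 1 ≤ |yv k (n + 1) q.1| → |tv k (n + 1) J q.1| ≤ B e → ∀ j ≤ J,
      c * (1 + e ^ 2) ^ j * (torb k n q).2.2.1 ^ 2
        ≤ (TU^[j] (torb k (n + 1) q)).2.2.2 ^ 2 := by
  have he2 : 0 < e ^ 2 := pow_pos he 2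
  refine ⟨min 1 (e ^ 2 / 2 / (1 + e ^ 2)), by positivity, ?_⟩
  intro k hk q hq hz hv hv0 n J hn hn1 hJ
  set c : ℝ := min 1 (e ^ 2 / 2 / (1 + e ^ 2)) with hc
  have hc0 : 0 < c := by rw [hc]; positivity
  have hc1 : c ≤ 1 := min_le_left _ _
  have hc2 : c * (1 + e ^ 2) ≤ e ^ 2 / 2 := by
    have : c ≤ e ^ 2 / 2 / (1 + e ^ 2) := min_le_right _ _
    rwa [le_div_iff₀ (by positivity)] at this
  have hS := St_all he hk hq hz hv hv0 n hn
  have hz' : |(orb k (n + 1) q.1).2.2| < 1 := by rw [orb_succ_z]; exact hn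
  have hrim : ∀ i, 1 ≤ i → i < J → |tv k (n + 1) i q.1| < 1 := fun i hi hi2 =>
    rim_lt he hq.1 (n + 1) hn1 hz' (B_lt_V' he hJ) (by omega) hi2
  obtain ⟨b, a, hb, hbj, hok, hby, hby1⟩ := St_base hS
  have hcr : 1 ≤ |(U^[a + k n] b.1).2.2| := by rw [TU_iter_z (hbj (k n)), torb_U_z]; exact hn1
  have hpos : 0 < a + k n := by have := hk n; omega
  have hb1 : 0 ≤ 1 - b.1.2.1 ^ 2 ∧ 1 - b.1.2.1 ^ 2 ≤ 1 := by
    have h1 : b.1.2.1 ^ 2 < 1 := by
      rw [← sq_abs]; exact pow_lt_one₀ (abs_nonneg _) hb.y_lt (by norm_num)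
    constructor
    · linarith
    · linarith [sq_nonneg b.1.2.1]
  have hx1 : (U^[a + k n + 1] b.1).2.2 = tv k (n + 1) 1 q.1 := by
    have := TU_iter_z (hbj (k n + 1))
    rw [← Nat.add_assoc] at this
    rw [this, torb_U_z, tv_k_succ]
  have hx2 : (TU^[a + k n + 1] b).2.2.2 = (TU^[1] (torb k (n + 1) q)).2.2.2 := by
    rw [Nat.add_assoc, hbj (k n + 1), ← TU_iter_vx]; rfl
  set η : ℕ → ℝ := fun j => (TU^[j] (torb k (n + 1) q)).2.2.2 with hη
  set t : ℕ → ℝ := fun j => tv k (n + 1) j q.1 with ht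
  set g : ℝ := (torb k n q).2.2.1 with hg
  have hE : (0 : ℝ) < 1 + e ^ 2 := by positivity
  -- bases on the rim
  have hbase : ∀ j, (∀ i, 1 ≤ i → i ≤ j + 1 → |t i| < 1) →
      Base e 0 (TQ (TU^[j] (torb k (n + 1) q))) := by
    intro j hj
    have hM := (St_M he hS (hk n) (by rw [torb_U_z]; exact hn1)
      (by rw [torb_U_z, tv_k_succ]; exact hj 1 le_rfl (by omega))).mono (le_max_left _ _)
    exact (rim_iter (e := e) he (q := torb k (n + 1) q) hM (by rw [torb_y]; exact hn1) j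
      (fun i hi hi2 => by rw [torb_U_z]; exact hj i hi hi2)).1
  have hbase_y : ∀ j, (TQ (TU^[j] (torb k (n + 1) q))).1.2.1 = t (j + 1) := by
    intro j
    show (TU^[j] (torb k (n + 1) q)).1.1 = _
    rw [TU_iter_fst_x, torb_U_z]
  have hbase_vy : ∀ j, (TQ (TU^[j] (torb k (n + 1) q))).2.2.1 = η (j + 1) := by
    intro j
    show (TU^[j] (torb k (n + 1) q)).2.1 = _
    rw [TU_iter_vx]
  have hbase_c : ∀ j, 1 ≤ |(U^[1] (TQ (TU^[j] (torb k (n + 1) q))).1).2.2| := by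
    intro j
    show 1 ≤ |(TU^[j] (torb k (n + 1) q)).1.2.1|
    rw [TU_iter_fst_y, torb_y]; exact hn1
  have hbase_t : ∀ j, (U^[2] (TQ (TU^[j] (torb k (n + 1) q))).1).2.2 = t (j + 2) := by
    intro j
    rw [(two_step_z _ _).1, torb_U_z]
  have hbase_η : ∀ j, (TU^[2] (TQ (TU^[j] (torb k (n + 1) q)))).2.2.2 = η (j + 2) := by
    intro j
    rw [(two_step_z _ _).2]
  -- the strong inequality
  have key : ∀ j, 1 ≤ j → (∀ i, 1 ≤ i → i ≤ j → |t i| < 1) →
      (1 + e ^ 2) ^ j * g ^ 2 * (1 - t j ^ 2) ≤ η j ^ 2 := by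
    intro j hj
    induction j, hj using Nat.le_induction with
    | base =>
      intro h
      have h1 := mv_rim2 he hb hpos (Nat.lt_succ_self _) hcr
        (by rw [Nat.succ_eq_add_one, hx1]; exact h 1 le_rfl le_rfl)
      rw [Nat.succ_eq_add_one, hx1, hx2, hby] at h1
      have h2 : (1 - b.1.2.1 ^ 2) * η 1 ^ 2 ≤ 1 * η 1 ^ 2 :=
        mul_le_mul_of_nonneg_right hb1.2 (sq_nonneg _)
      have h3 : (1 + e ^ 2) ^ 1 * g ^ 2 * (1 - t 1 ^ 2)
          = (1 + e ^ 2) * (g ^ 2 * (1 - t 1 ^ 2)) := by ring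
      rw [h3]
      calc _ ≤ _ := h1
        _ ≤ _ := h2
        _ = _ := one_mul _
    | succ j hj ih =>
      intro h
      have ih' := ih (fun i hi hi2 => h i hi (by omega))
      obtain ⟨j', rfl⟩ : ∃ j', j = j' + 1 := ⟨j - 1, by omega⟩
      have hbb := hbase j' (fun i hi hi2 => h i hi (by omega))
      have h1 := mv_rim2 he hbb (i := 1) (j := 2) one_pos one_lt_two (hbase_c j')
        (by rw [hbase_t]; exact h (j' + 2) (by omega) (by omega))
      rw [hbase_t, hbase_η, hbase_y, hbase_vy] at h1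
      have ht1 : 0 < 1 - t (j' + 1) ^ 2 := by
        have : t (j' + 1) ^ 2 < 1 := by
          rw [← sq_abs]
          exact pow_lt_one₀ (abs_nonneg _) (h (j' + 1) (by omega) (by omega)) (by norm_num)
        linarith
      have ht2 : 0 ≤ 1 - t (j' + 2) ^ 2 := by
        have : t (j' + 2) ^ 2 < 1 := by
          rw [← sq_abs]
          exact pow_lt_one₀ (abs_nonneg _) (h (j' + 2) (by omega) (by omega)) (by norm_num)
        linarith
      have h2 : (1 - t (j' + 1) ^ 2) * ((1 + e ^ 2) ^ (j' + 1 + 1) * g ^ 2 * (1 - t (j' + 2) ^ 2))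
          ≤ (1 - t (j' + 1) ^ 2) * η (j' + 2) ^ 2 := by
        calc (1 - t (j' + 1) ^ 2) * ((1 + e ^ 2) ^ (j' + 1 + 1) * g ^ 2 * (1 - t (j' + 2) ^ 2))
            = (1 + e ^ 2) * (((1 + e ^ 2) ^ (j' + 1) * g ^ 2 * (1 - t (j' + 1) ^ 2))
                * (1 - t (j' + 2) ^ 2)) := by ring
          _ ≤ (1 + e ^ 2) * (η (j' + 1) ^ 2 * (1 - t (j' + 2) ^ 2)) := by
              refine mul_le_mul_of_nonneg_left ?_ hE.le
              exact mul_le_mul_of_nonneg_right ih' ht2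
          _ ≤ _ := h1
      exact le_of_mul_le_mul_left h2 ht1
  intro j hj
  rcases Nat.eq_zero_or_pos j with rfl | hj0
  · have : (TU^[0] (torb k (n + 1) q)).2.2.2 = g := torb_succ_vz k n q
    rw [this, pow_zero, mul_one]
    nlinarith [sq_nonneg g]
  have hall : ∀ i, 1 ≤ i → i < j → |t i| < 1 := fun i hi hi2 => hrim i hi (by omega)
  have htj : |t j| ≤ B e := by
    rcases Nat.eq_or_lt_of_le hj with rfl | h
    · exact hJ
    · exact ((hrim j hj0 h).trans (one_lt_B he)).le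
  -- the weak inequality
  have hweak : e ^ 2 / 2 * ((1 + e ^ 2) ^ (j - 1) * g ^ 2) ≤ η j ^ 2 := by
    rcases Nat.eq_or_lt_of_le hj0 with h | h
    · have hj1 : j = 1 := h.symm
      subst hj1
      have h1 := mv_rim1 he hb hpos (Nat.lt_succ_self _) hcr
        (by rw [Nat.succ_eq_add_one, hx1]; exact sq_le_of_B htj)
      rw [Nat.succ_eq_add_one, hx2, hby] at h1
      have h2 : (1 - b.1.2.1 ^ 2) ^ 2 * η 1 ^ 2 ≤ 1 * η 1 ^ 2 :=
        mul_le_mul_of_nonneg_right (pow_le_one₀ hb1.1 hb1.2) (sq_nonneg _)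
      rw [one_mul] at h2
      simpa using h1.trans h2
    · obtain ⟨j', rfl⟩ : ∃ j', j = j' + 2 := ⟨j - 2, by omega⟩
      have hbb := hbase j' (fun i hi hi2 => hall i hi (by omega))
      have h1 := mv_rim1 he hbb (i := 1) (j := 2) one_pos one_lt_two (hbase_c j')
        (by rw [hbase_t]; exact sq_le_of_B htj)
      rw [hbase_η, hbase_y, hbase_vy] at h1
      have h3 := key (j' + 1) (by omega) (fun i hi hi2 => hall i hi (by omega))
      have ht1 : 0 < 1 - t (j' + 1) ^ 2 := by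
        have : t (j' + 1) ^ 2 < 1 := by
          rw [← sq_abs]
          exact pow_lt_one₀ (abs_nonneg _) (hall (j' + 1) (by omega) (by omega)) (by norm_num)
        linarith
      have ht2 : 1 - t (j' + 1) ^ 2 ≤ 1 := by linarith [sq_nonneg (t (j' + 1))]
      have h4 : (1 - t (j' + 1) ^ 2) * (e ^ 2 / 2 * ((1 + e ^ 2) ^ (j' + 1) * g ^ 2))
          ≤ (1 - t (j' + 1) ^ 2) * η (j' + 2) ^ 2 := by
        calc (1 - t (j' + 1) ^ 2) * (e ^ 2 / 2 * ((1 + e ^ 2) ^ (j' + 1) * g ^ 2))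
            = e ^ 2 / 2 * ((1 + e ^ 2) ^ (j' + 1) * g ^ 2 * (1 - t (j' + 1) ^ 2)) := by ring
          _ ≤ e ^ 2 / 2 * η (j' + 1) ^ 2 := mul_le_mul_of_nonneg_left h3 (by positivity)
          _ ≤ (1 - t (j' + 1) ^ 2) ^ 2 * η (j' + 2) ^ 2 := h1
          _ = (1 - t (j' + 1) ^ 2) * ((1 - t (j' + 1) ^ 2) * η (j' + 2) ^ 2) := by ring
          _ ≤ (1 - t (j' + 1) ^ 2) * (1 * η (j' + 2) ^ 2) := by
              refine mul_le_mul_of_nonneg_left ?_ ht1.le
              exact mul_le_mul_of_nonneg_right ht2 (sq_nonneg _)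
          _ = _ := by rw [one_mul]
      have h5 := le_of_mul_le_mul_left h4 ht1
      have h6 : j' + 2 - 1 = j' + 1 := by omega
      rw [h6]; exact h5
  have h7 : c * (1 + e ^ 2) ^ j * g ^ 2 ≤ e ^ 2 / 2 * ((1 + e ^ 2) ^ (j - 1) * g ^ 2) := by
    have h8 : (1 + e ^ 2) ^ j = (1 + e ^ 2) ^ (j - 1) * (1 + e ^ 2) := by
      rw [← pow_succ]; congr 1; omega
    rw [h8]
    have h9 : 0 ≤ (1 + e ^ 2) ^ (j - 1) * g ^ 2 := by positivity
    nlinarith
  exact h7.trans hweak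

end TM
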