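import Mathlib

/-!
# MP_fc8395_an : common definitions for the module files

Sturmian trace maps on the cubic surface `x² + y² + z² - 2xyz = 1 + e²` (`e = λ/2`).
-/

set_option autoImplicit false

open scoped ContDiff

namespace TM

/-- Points `(x, y, z)`. -/
abbrev Pt := ℝ × ℝ × ℝ

/-- The Fricke-Vogt function `x² + y² + z² - 2xyz`. -/
def FV (p : Pt) : ℝ := p.1 ^ 2 + p.2.1 ^ 2 + p.2.2 ^ 2 - 2 * p.1 * p.2.1 * p.2.2

/-- The cubic surface. -/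
def Surf (e : ℝ) : Set Pt := {p | FV p = 1 + e ^ 2}

/-- `U (x,y,z) = (2xy - z, y, x)`. -/
def U (p : Pt) : Pt := (2 * p.1 * p.2.1 - p.2.2, p.2.1, p.1)

/-- `U⁻¹ (x,y,z) = (z, y, 2yz - x)`. -/
def Uinv (p : Pt) : Pt := (p.2.2, p.2.1, 2 * p.2.1 * p.2.2 - p.1)

/-- `P (x,y,z) = (x, z, y)`. -/
def P (p : Pt) : Pt := (p.1, p.2.2, p.2.1)

/-- The reversing involution `(x,y,z) ↦ (2yz - x, z, y)`. -/
def sg (p : Pt) : Pt := (2 * p.2.1 * p.2.2 - p.1, p.2.2, p.2.1)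

/-- The `k`-th trace map `T_k = P ∘ U^k`. -/
def T (k : ℕ) (p : Pt) : Pt := P (U^[k] p)

/-- The orbit `Φ_n = T_{k (n-1)} ∘ ⋯ ∘ T_{k 0}`. -/
def orb (k : ℕ → ℕ) : ℕ → Pt → Pt
  | 0, p => p
  | n + 1, p => T (k n) (orb k n p)

/-- The reversed sequence `i ↦ k (N - 1 - i)`. -/
def rev (k : ℕ → ℕ) (N : ℕ) : ℕ → ℕ := fun i => k (N - 1 - i)

/-- The inverse of `orb k n`. -/
def orbInv (k : ℕ → ℕ) (n : ℕ) (p : Pt) : Pt := sg (orb (rev k n) n (sg p))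

/-- `D = y z - x`. -/
def D (p : Pt) : ℝ := p.2.1 * p.2.2 - p.1

/-- `x̄ = 2 y z - x`. -/
def xb (p : Pt) : ℝ := 2 * p.2.1 * p.2.2 - p.1

/-- The threshold `V = √(1 + e²)`. -/
noncomputable def V (e : ℝ) : ℝ := Real.sqrt (1 + e ^ 2)

/-- The soft threshold `B = √(1 + e²/2)`. -/
noncomputable def B (e : ℝ) : ℝ := Real.sqrt (1 + e ^ 2 / 2)

/-- The set of points of the surface with bounded forward orbit. -/
def W (e : ℝ) (k : ℕ → ℕ) : Set Pt := {p | p ∈ Surf e ∧ ∃ C : ℝ, ∀ n, ‖orb k n p‖ ≤ C}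

/-- Chebyshev polynomials of the second kind, evaluated. -/
noncomputable def Ch (n : ℤ) (y : ℝ) : ℝ := (Polynomial.Chebyshev.U ℝ n).eval y

/-! ### tangent vectors -/

/-- The differential of `FV`. -/
def dFV (p v : Pt) : ℝ :=
  2 * (p.1 - p.2.1 * p.2.2) * v.1 + 2 * (p.2.1 - p.1 * p.2.2) * v.2.1
    + 2 * (p.2.2 - p.1 * p.2.1) * v.2.2

/-- The differential of `U`. -/
def dU (p v : Pt) : Pt := (2 * v.1 * p.2.1 + 2 * p.1 * v.2.1 - v.2.2, v.2.1, v.1)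

/-- The differential of `U⁻¹`. -/
def dUinv (p v : Pt) : Pt := (v.2.2, v.2.1, 2 * v.2.1 * p.2.2 + 2 * p.2.1 * v.2.2 - v.1)

/-- The tangent map of `U`. -/
def TU (q : Pt × Pt) : Pt × Pt := (U q.1, dU q.1 q.2)

/-- The tangent map of `U⁻¹`. -/
def TUinv (q : Pt × Pt) : Pt × Pt := (Uinv q.1, dUinv q.1 q.2)

/-- The tangent map of `P`. -/
def TP (q : Pt × Pt) : Pt × Pt := (P q.1, P q.2)

/-- The tangent map of `T_k`. -/
def TT (k : ℕ) (q : Pt × Pt) : Pt × Pt := TP (TU^[k] q)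

/-- The tangent orbit. -/
def torb (k : ℕ → ℕ) : ℕ → Pt × Pt → Pt × Pt
  | 0, q => q
  | n + 1, q => TT (k n) (torb k n q)

/-- `q = (p, v)` is a tangent vector of the surface. -/
def Tan (e : ℝ) (q : Pt × Pt) : Prop := q.1 ∈ Surf e ∧ dFV q.1 q.2 = 0

/-! ### the slices `z = cos ζ` -/

/-- The amplitude `√(1 + e²/sin² ζ)`. -/
noncomputable def Amp (e ζ : ℝ) : ℝ := Real.sqrt (1 + e ^ 2 / Real.sin ζ ^ 2)

/-- The parametrisation of `{|z| < 1}`. -/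
noncomputable def Psi (e ζ τ : ℝ) : Pt :=
  (Amp e ζ * Real.cos (τ + ζ), Amp e ζ * Real.cos τ, Real.cos ζ)

/-- The level function `y_N`, in the coordinates `(ζ, τ)`. -/
noncomputable def F (e : ℝ) (k : ℕ → ℕ) (N : ℕ) (q : ℝ × ℝ) : ℝ :=
  (orb k N (Psi e q.1 q.2)).2.1

/-- The coordinate domain. -/
def Dom : Set (ℝ × ℝ) := {q | 0 < q.1 ∧ q.1 < Real.pi}

/-- Partial derivative in `ζ`. -/
noncomputable def dz (f : ℝ × ℝ → ℝ) (q : ℝ × ℝ) : ℝ := fderiv ℝ f q (1, 0)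

/-- Partial derivative in `τ`. -/
noncomputable def dt (f : ℝ × ℝ → ℝ) (q : ℝ × ℝ) : ℝ := fderiv ℝ f q (0, 1)

/-- Slope of the level curves of `f`. -/
noncomputable def slope (f : ℝ × ℝ → ℝ) (q : ℝ × ℝ) : ℝ := - dz f q / dt f q

/-- `(m_N, m_{N-1})`, the degrees of `y_N`, `y_{N-1}` as trigonometric polynomials in `τ`. -/
def dg (k : ℕ → ℕ) : ℕ → ℕ × ℕ
  | 0 => (1, 0)
  | n + 1 => ((dg k n).2 + k n * (dg k n).1, (dg k n).1)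

/-- `f` is a trigonometric polynomial of degree `m` such that all solutions of `f = v`, `|v| < c`,
are real. -/
def RT (c : ℝ) (m : ℕ) (f : ℝ → ℝ) : Prop :=
  ∃ Q : Polynomial ℂ, Q.natDegree = 2 * m ∧ Q.coeff 0 ≠ 0 ∧
    (∀ τ : ℝ, (f τ : ℂ) * Complex.exp (Complex.I * m * τ) = Q.eval (Complex.exp (Complex.I * τ))) ∧
    ∀ v : ℝ, |v| < c → ∀ z : ℂ, Q.eval z = v * z ^ m → ‖z‖ = 1

/-! ### intermediate values, fans, bases -/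

/-- The value `t_{n,j} = z (U^j p_n)`; `t_{n+1,0} = y_n`, `t_{n,k_n} = y_{n+1}`. -/
def tv (k : ℕ → ℕ) (n j : ℕ) (p : Pt) : ℝ := (U^[j] (orb k n p)).2.2

/-- The value `y_n`. -/
def yv (k : ℕ → ℕ) (n : ℕ) (p : Pt) : ℝ := (orb k n p).2.1

/-- The level function `t_{n,j}`, in the coordinates `(ζ, τ)`. -/
noncomputable def Ft (e : ℝ) (k : ℕ → ℕ) (n j : ℕ) (q : ℝ × ℝ) : ℝ := tv k n j (Psi e q.1 q.2)

/-- Degree of `t_{n,j}`. -/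
def dgt (k : ℕ → ℕ) (n j : ℕ) : ℕ := (dg k n).2 + j * (dg k n).1

/-- `κ_j = j - e² y U_{j-1}(y) / (D_0 D_j)`. -/
noncomputable def kap (e : ℝ) (p : Pt) (j : ℕ) : ℝ :=
  j - e ^ 2 * p.2.1 * Ch (j - 1) p.2.1 / (D p * D (U^[j] p))

/-- The cyclic symmetry `(x,y,z) ↦ (z,x,y)`. -/
def Rh (p : Pt) : Pt := (p.2.2, p.1, p.2.1)

/-- Its tangent map. -/
def TRh (q : Pt × Pt) : Pt × Pt := (Rh q.1, Rh q.2)

/-- The invariant of the chain (see the plan, section C). -/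
structure Base (e L : ℝ) (q : Pt × Pt) : Prop where
  tan : Tan e q
  y_lt : |q.1.2.1| < 1
  z_lt : |q.1.2.2| < 1
  vy : q.2.2.1 ≠ 0
  r : 0 ≤ q.2.2.2 * q.2.2.1 * D q.1 ∨
    (-(q.2.2.1 ^ 2 * D q.1 ^ 2) ≤ (1 - q.1.2.1 ^ 2) * (q.2.2.2 * q.2.2.1 * D q.1) ∧ 1 ≤ |q.1.1|)
  g : e ^ 2 / 8 * |q.2.2.2| ≤ |D q.1| * |q.2.2.1|
  p : L * |D q.1| ≤ |q.2.2.1 * q.2.2.2|

/-- Admissible indices: `j ≥ 1` for a base of type `E`, `j ≥ 2` for a base of type `M`. -/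
def okj (q : Pt × Pt) (j : ℕ) : Prop := (0 ≤ q.2.2.2 * q.2.2.1 * D q.1 ∧ 1 ≤ j) ∨ 2 ≤ j

/-! ### blending -/

/-- A smooth cut-off. -/
structure Cut (e : ℝ) where
  χ : ℝ → ℝ
  a1 : ℝ
  a2 : ℝ
  one_lt : 1 < a1
  lt12 : a1 < a2
  lt_B : a2 < B e
  smooth : ContDiff ℝ ∞ χ
  nonneg : ∀ y, 0 ≤ χ y
  le_one : ∀ y, χ y ≤ 1
  one : ∀ y, |y| ≤ a1 → χ y = 1
  zero : ∀ y, a2 ≤ |y| → χ y = 0

/-- Successive updates with the vectors `u 1, …, u j` and the weights `w 1, …, w j`. -/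
def rimFold {E : Type*} [AddCommGroup E] [Module ℝ E] (w : ℕ → ℝ) (u : ℕ → E) : ℕ → E → E
  | 0, s => s
  | j + 1, s => w (j + 1) • u (j + 1) + (1 - w (j + 1)) • rimFold w u j s

/-- The state after the update number `N0 + i`. -/
def stt {E : Type*} [AddCommGroup E] [Module ℝ E] (k : ℕ → ℕ) (wy : ℕ → ℝ) (uy : ℕ → E)
    (wt : ℕ → ℕ → ℝ) (ut : ℕ → ℕ → E) (N0 : ℕ) : ℕ → E
  | 0 => uy N0
  | i + 1 => wy (N0 + i + 1) • uy (N0 + i + 1) + (1 - wy (N0 + i + 1)) •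
      rimFold (wt (N0 + i + 1)) (ut (N0 + i + 1)) (k (N0 + i + 1) - 1) (stt k wy uy wt ut N0 i)

/-- Euclidean inner product. -/
def dot (p q : Pt) : ℝ := p.1 * q.1 + p.2.1 * q.2.1 + p.2.2 * q.2.2

/-- `u` is a unit tangent vector at `p` which spans the kernel of `df` on the tangent plane. -/
def Kills (f : Pt → ℝ) (p u : Pt) : Prop :=
  dot u u = 1 ∧ dFV p u = 0 ∧ fderiv ℝ f p u = 0 ∧ ∃ w, dFV p w = 0 ∧ fderiv ℝ f p w ≠ 0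

/-- The canonical direction at `p`. -/
def IsCan (k : ℕ → ℕ) (χ : ℝ → ℝ) (p v : Pt) : Prop :=
  ∃ (N0 : ℕ) (uy : ℕ → Pt) (ut : ℕ → ℕ → Pt) (Act : Set Pt),
    χ (yv k N0 p) = 1 ∧
    (∀ n, N0 ≤ n → χ (yv k n p) ≠ 0 → Kills (yv k n) p (uy n) ∧ uy n ∈ Act) ∧
    (∀ n, N0 < n → ∀ j, 1 ≤ j → j < k n → χ (tv k n j p) ≠ 0 →
      Kills (tv k n j) p (ut n j) ∧ ut n j ∈ Act) ∧
    (∀ u ∈ Act, ∀ u' ∈ Act, 0 < dot u u') ∧
    Filter.Tendsto (stt k (fun n => χ (yv k n p)) uy (fun n j => χ (tv k n j p)) ut N0)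
      Filter.atTop (nhds v)

/-- Charts of the surface. -/
structure Chart0 (e : ℝ) (φ : ℝ × ℝ → Pt) : Prop where
  smooth : ContDiff ℝ 1 φ
  inj : Function.Injective φ
  imm : ∀ z, Function.Injective (fderiv ℝ φ z)
  mem : ∀ z, φ z ∈ Surf e

end TM
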