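import Pool.Agent.Helper55.TM.Chain3

/-!
# MP_fc8395_an : level functions in coordinates, links
-/

set_option autoImplicit false

open scoped ContDiff Topology
open Filter Set

namespace TM

/-! ### partial derivatives -/

lemma isOpen_Dom : IsOpen Dom := by
  have : Dom = {q : ℝ × ℝ | 0 < q.1} ∩ {q : ℝ × ℝ | q.1 < Real.pi} := rfl
  rw [this]
  exact (isOpen_lt continuous_const continuous_fst).inter
    (isOpen_lt continuous_fst continuous_const)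

lemma Dom_nhds {q : ℝ × ℝ} (hq : q ∈ Dom) : Dom ∈ 𝓝 q := isOpen_Dom.mem_nhds hq

lemma hasDerivAt_vert {f : ℝ × ℝ → ℝ} {q : ℝ × ℝ} (hf : DifferentiableAt ℝ f q) :
    HasDerivAt (fun t => f (q.1, t)) (dt f q) q.2 := by
  have h1 : HasDerivAt (fun t : ℝ => ((q.1, t) : ℝ × ℝ)) ((0 : ℝ), (1 : ℝ)) q.2 :=
    (hasDerivAt_const q.2 q.1).prodMk (hasDerivAt_id q.2)
  exact hf.hasFDerivAt.comp_hasDerivAt q.2 h1

lemma dt_eq {f : ℝ × ℝ → ℝ} {q : ℝ × ℝ} (hf : DifferentiableAt ℝ f q) :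
    dt f q = deriv (fun t => f (q.1, t)) q.2 := (hasDerivAt_vert hf).deriv.symm

lemma contDiffAt_F {e : ℝ} {k : ℕ → ℕ} {n : ℕ} {q : ℝ × ℝ} (hq : q ∈ Dom) :
    ContDiffAt ℝ ∞ (F e k n) q := (contDiffOn_F e k n).contDiffAt (Dom_nhds hq)

lemma contDiffAt_Ft {e : ℝ} {k : ℕ → ℕ} {n j : ℕ} {q : ℝ × ℝ} (hq : q ∈ Dom) :
    ContDiffAt ℝ ∞ (Ft e k n j) q := (contDiffOn_Ft e k n j).contDiffAt (Dom_nhds hq)

lemma contDiffAt_dt {f : ℝ × ℝ → ℝ} {q : ℝ × ℝ} (hf : ContDiffAt ℝ ∞ f q) :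
    ContDiffAt ℝ ∞ (dt f) q := by
  have h1 : ContDiffAt ℝ ∞ (fderiv ℝ f) q := hf.fderiv_right (m := ∞) (by simp)
  exact h1.clm_apply contDiffAt_const

lemma contDiffAt_dz {f : ℝ × ℝ → ℝ} {q : ℝ × ℝ} (hf : ContDiffAt ℝ ∞ f q) :
    ContDiffAt ℝ ∞ (dz f) q := by
  have h1 : ContDiffAt ℝ ∞ (fderiv ℝ f) q := hf.fderiv_right (m := ∞) (by simp)
  exact h1.clm_apply contDiffAt_const

lemma contDiffAt_slope {f : ℝ × ℝ → ℝ} {q : ℝ × ℝ} (hf : ContDiffAt ℝ ∞ f q)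
    (h : dt f q ≠ 0) : ContDiffAt ℝ ∞ (slope f) q :=
  (contDiffAt_dz hf).neg.div (contDiffAt_dt hf) h

lemma dt_dt_eq {e : ℝ} {k : ℕ → ℕ} {n : ℕ} {q : ℝ × ℝ} (hq : q ∈ Dom) :
    dt (dt (F e k n)) q = deriv (deriv (fun t => F e k n (q.1, t))) q.2 := by
  rw [dt_eq ((contDiffAt_dt (contDiffAt_F hq)).differentiableAt (by simp))]
  congr 1
  ext t
  have : (q.1, t) ∈ Dom := hq
  rw [dt_eq ((contDiffAt_F this).differentiableAt (by simp))]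

/-! ### identification of the values -/

lemma tv_update (k : ℕ → ℕ) (n j : ℕ) (p : Pt) :
    tv k n j p = yv (Function.update k n j) (n + 1) p := by
  show (U^[j] (orb k n p)).2.2
    = (U^[Function.update k n j n] (orb (Function.update k n j) n p)).2.2
  rw [Function.update_self]
  rw [orb_congr (k := Function.update k n j) (k' := k) (n := n)
    (fun i hi => Function.update_of_ne (by omega) _ _)]

lemma yv_update {k : ℕ → ℕ} {n j m : ℕ} (hm : m ≤ n) (p : Pt) :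
    yv (Function.update k n j) m p = yv k m p := by
  unfold yv
  rw [orb_congr (k := Function.update k n j) (k' := k) (n := m)
    (fun i hi => Function.update_of_ne (by omega) _ _)]

lemma F_update {e : ℝ} {k : ℕ → ℕ} {n j m : ℕ} (hm : m ≤ n) :
    F e (Function.update k n j) m = F e k m := by
  ext q; exact yv_update hm _

lemma Ft_update (e : ℝ) (k : ℕ → ℕ) (n j : ℕ) :
    Ft e k n j = F e (Function.update k n j) (n + 1) := by
  ext q; exact tv_update k n j _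

lemma Ft_zero (e : ℝ) (k : ℕ → ℕ) (n : ℕ) : Ft e k (n + 1) 0 = F e k n := by
  ext q; exact tv_zero k n _

lemma Ft_k (e : ℝ) (k : ℕ → ℕ) (n : ℕ) : Ft e k n (k n) = F e k (n + 1) := by
  ext q; exact tv_k k n _

lemma Ft_k_succ (e : ℝ) (k : ℕ → ℕ) (n : ℕ) : Ft e k n (k n + 1) = Ft e k (n + 1) 1 := by
  ext q; exact tv_k_succ k n _

lemma update_pos {k : ℕ → ℕ} (hk : ∀ i, 1 ≤ k i) (n : ℕ) {j : ℕ} (hj : 1 ≤ j) (i : ℕ) :
    1 ≤ Function.update k n j i := by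
  rcases eq_or_ne i n with rfl | h
  · rw [Function.update_self]; exact hj
  · rw [Function.update_of_ne h]; exact hk i

lemma dg_congr {k k' : ℕ → ℕ} {n : ℕ} (h : ∀ i < n, k i = k' i) : dg k n = dg k' n := by
  induction n with
  | zero => rfl
  | succ n ih =>
    have := ih (fun i hi => h i (by omega))
    simp only [dg, this, h n (by omega)]

lemma dg_pos {k : ℕ → ℕ} (hk : ∀ i, 1 ≤ k i) (n : ℕ) : 1 ≤ (dg k n).1 := by
  induction n with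
  | zero => exact le_rfl
  | succ n ih =>
    show 1 ≤ (dg k n).2 + k n * (dg k n).1
    have := Nat.mul_le_mul (hk n) ih
    omega

lemma dg_snd (k : ℕ → ℕ) (n : ℕ) : (dg k (n + 1)).2 = (dg k n).1 := rfl

lemma dg_mono {k : ℕ → ℕ} (hk : ∀ i, 1 ≤ k i) (n : ℕ) : (dg k n).1 ≤ (dg k (n + 1)).1 := by
  show (dg k n).1 ≤ (dg k n).2 + k n * (dg k n).1
  have := Nat.mul_le_mul_right (dg k n).1 (hk n)
  omega

lemma dg_two {k : ℕ → ℕ} (hk : ∀ i, 1 ≤ k i) (n : ℕ) : 2 * (dg k n).1 ≤ (dg k (n + 2)).1 := by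
  show 2 * (dg k n).1 ≤ (dg k n).1 + k (n + 1) * (dg k (n + 1)).1
  have h1 := Nat.mul_le_mul_right (dg k (n + 1)).1 (hk (n + 1))
  have h2 := dg_mono hk n
  omega

/-! ### real-rootedness of the level functions -/

/-- The tangent data at a point of the domain. -/
lemma tangent_data {e : ℝ} {q : ℝ × ℝ} (hq : q ∈ Dom) : ∃ v : Pt,
    Tan e (Psi e q.1 q.2, v) ∧ |(Psi e q.1 q.2).2.2| < 1 ∧ v.2.2 = 0 ∧ v ≠ 0 ∧
    (∀ k n, dt (F e k n) q = (torb k n (Psi e q.1 q.2, v)).2.2.1) ∧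
    (∀ k n j, dt (Ft e k n j) q = (TU^[j] (torb k n (Psi e q.1 q.2, v))).2.2.2) := by
  obtain ⟨v, h1, h2, h3, h4⟩ := Psi_tangent (e := e) hq.1 hq.2 q.2
  have hFt : ∀ k n j, dt (Ft e k n j) q = (TU^[j] (torb k n (Psi e q.1 q.2, v))).2.2.2 := by
    intro k n j
    have h5 := hasDerivAt_orb h1 k n
    have h6 := hasDerivAt_U_iter h5 j
    have e1 : (orb k n (Psi e q.1 q.2), (torb k n (Psi e q.1 q.2, v)).2)
        = torb k n (Psi e q.1 q.2, v) := by rw [← torb_fst k n (Psi e q.1 q.2, v)]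
    rw [e1] at h6
    have h7 : HasDerivAt (fun t => (U^[j] (orb k n (Psi e q.1 t))).2.2)
        (TU^[j] (torb k n (Psi e q.1 q.2, v))).2.2.2 q.2 := by
      have h8 := (hasFDerivAt_snd (𝕜 := ℝ) (E := ℝ) (F := ℝ × ℝ)
        (p := U^[j] (orb k n (Psi e q.1 q.2)))).comp_hasDerivAt q.2 h6
      have h9 := (hasFDerivAt_snd (𝕜 := ℝ) (E := ℝ) (F := ℝ)
        (p := (U^[j] (orb k n (Psi e q.1 q.2))).2)).comp_hasDerivAt q.2 h8
      exact h9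
    rw [dt_eq ((contDiffAt_Ft hq).differentiableAt (by simp))]
    exact h7.deriv
  refine ⟨v, h4, ?_, h2, h3, ?_, hFt⟩
  · show |Real.cos q.1| < 1
    rw [abs_lt]
    constructor
    · have := Real.cos_lt_cos_of_nonneg_of_le_pi hq.1.le le_rfl hq.2
      rwa [Real.cos_pi] at this
    · have := Real.cos_lt_cos_of_nonneg_of_le_pi le_rfl hq.2.le hq.1
      rwa [Real.cos_zero] at this
  · intro k n
    rw [← Ft_zero, hFt]
    exact torb_succ_vz _ _ _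

theorem RT_F {e : ℝ} (he : 0 < e) {k : ℕ → ℕ} (hk : ∀ i, 1 ≤ k i) {ζ : ℝ} (h0 : 0 < ζ)
    (h1 : ζ < Real.pi) (N : ℕ) : RT (V e) (dg k N).1 (fun τ => F e k N (ζ, τ)) := by
  refine RT_of_crit one_pos (dg_pos hk N) (poly_repr he hk h0 h1 N) ?_
  intro τ hτ
  have hq : ((ζ, τ) : ℝ × ℝ) ∈ Dom := ⟨h0, h1⟩
  obtain ⟨v, t1, t2, t3, t4, t5, t6⟩ := tangent_data (e := e) hq
  have h2 := dt_eq ((contDiffAt_F (e := e) (k := k) (n := N) hq).differentiableAt (by simp))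
  rw [← h2, t5]
  exact nonvanish he hk t1 t2 t3 t4 hτ

/-- Consequences of real-rootedness for `F`. -/
lemma F_ne {e : ℝ} (he : 0 < e) {k : ℕ → ℕ} (hk : ∀ i, 1 ≤ k i) {n : ℕ} {q : ℝ × ℝ} (hq : q ∈ Dom)
    (h : |F e k n q| < V e) : dt (F e k n) q ≠ 0 := by
  obtain ⟨v, t1, t2, t3, t4, t5, t6⟩ := tangent_data (e := e) hq
  rw [t5]
  exact nonvanish he hk t1 t2 t3 t4 h

lemma F_tame {e : ℝ} (he : 0 < e) {k : ℕ → ℕ} (hk : ∀ i, 1 ≤ k i) {n : ℕ} {q : ℝ × ℝ}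
    (hq : q ∈ Dom) (h : |F e k n q| ≤ B e) :
    |dt (dt (F e k n)) q| ≤ 1 / (V e - B e) * dt (F e k n) q ^ 2 ∧
      e ^ 2 / 4 * (dg k n).1 ≤ dt (F e k n) q ^ 2 := by
  have h1 := RT_tame (RT_F he hk hq.1 hq.2 n) (τ := q.2) (B_lt_V' he h)
  have e1 : deriv (fun t => F e k n (q.1, t)) q.2 = dt (F e k n) q :=
    (dt_eq ((contDiffAt_F hq).differentiableAt (by simp))).symm
  have e2 := dt_dt_eq (e := e) (k := k) (n := n) hq
  rw [e1, ← e2] at h1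
  have hVB : 0 < V e - B e := sub_pos.2 (B_lt_V he)
  have e3 : F e k n (q.1, q.2) = F e k n q := rfl
  rw [e3] at h1
  constructor
  · rw [div_mul_eq_mul_div, one_mul, le_div_iff₀ hVB]
    refine le_trans ?_ h1.1
    exact mul_le_mul_of_nonneg_left (by linarith) (abs_nonneg _)
  · refine le_trans ?_ h1.2
    have h2 := sq_le_of_B h
    rw [V_sq]
    have h3 : (0 : ℝ) ≤ (dg k n).1 := Nat.cast_nonneg _
    nlinarith

/-! ### growth in coordinates -/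

theorem growth_coord {e : ℝ} (he : 0 < e) : ∃ C : ℝ, 1 ≤ C ∧ ∀ (k : ℕ → ℕ), (∀ i, 1 ≤ k i) →
    ∀ q ∈ Dom, ∀ m n : ℕ, m ≤ n → |F e k m q| ≤ B e → |F e k n q| ≤ B e →
      |dt (F e k m) q| ≤ C * |dt (F e k n) q| := by
  obtain ⟨C, hC, h⟩ := growth_mono he
  refine ⟨C, hC, ?_⟩
  intro k hk q hq m n hmn hm hn
  obtain ⟨v, t1, t2, t3, t4, t5, t6⟩ := tangent_data (e := e) hq
  have h1 := h k hk _ t1 t2 t3 t4 m n hmn hm hn
  rw [← t5, ← t5] at h1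
  have h2 : dt (F e k m) q ^ 2 ≤ (C * |dt (F e k n) q|) ^ 2 := by
    rw [mul_pow, sq_abs]
    refine h1.trans (mul_le_mul_of_nonneg_right ?_ (sq_nonneg _))
    nlinarith
  rw [← sq_abs] at h2
  exact (pow_le_pow_iff_left₀ (abs_nonneg _) (by positivity) (by norm_num)).1 h2

theorem rim_coord {e : ℝ} (he : 0 < e) : ∃ c : ℝ, 0 < c ∧ ∀ (k : ℕ → ℕ), (∀ i, 1 ≤ k i) →
    ∀ q ∈ Dom, ∀ n J : ℕ, |F e k n q| < 1 → 1 ≤ |F e k (n + 1) q| →
      |Ft e k (n + 1) J q| ≤ B e → ∀ j ≤ J,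
      c * Real.sqrt (1 + e ^ 2) ^ j * |dt (F e k n) q| ≤ |dt (Ft e k (n + 1) j) q| := by
  obtain ⟨c, hc, h⟩ := rim_growth he
  refine ⟨Real.sqrt c, Real.sqrt_pos.2 hc, ?_⟩
  intro k hk q hq n J hn hn1 hJ j hj
  obtain ⟨v, t1, t2, t3, t4, t5, t6⟩ := tangent_data (e := e) hq
  have h1 := h k hk _ t1 t2 t3 t4 n J hn hn1 hJ j hj
  rw [← t5, ← t6] at h1
  have h2 : (Real.sqrt c * Real.sqrt (1 + e ^ 2) ^ j * |dt (F e k n) q|) ^ 2
      ≤ |dt (Ft e k (n + 1) j) q| ^ 2 := by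
    rw [mul_pow, mul_pow, sq_abs, sq_abs, ← pow_mul, mul_comm j 2, pow_mul,
      Real.sq_sqrt hc.le, Real.sq_sqrt (by positivity : (0 : ℝ) ≤ 1 + e ^ 2)]
    exact h1
  exact (pow_le_pow_iff_left₀ (by positivity) (abs_nonneg _) (by norm_num)).1 h2

/-! ### links -/

/-- The link estimate between two level functions at `q`. -/
def LinkB (C : ℝ) (f g : ℝ × ℝ → ℝ) (q : ℝ × ℝ) : Prop :=
  |slope f q - slope g q| * (|dt f q| * |dt g q|) ≤ C ∧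
  |dt (slope f) q - dt (slope g) q| ≤ C * (1 / |dt f q| + 1 / |dt g q|) ∧
  |dz (slope f) q - dz (slope g) q| ≤
    C * (1 + |slope f q| + |slope g q| + |dt (slope f) q| + |dt (slope g) q|)
      * (1 / |dt f q| + 1 / |dt g q|)

lemma Ft_rep {e : ℝ} {k : ℕ → ℕ} (hk : ∀ i, 1 ≤ k i) {n j : ℕ} (h : 1 ≤ n ∨ 1 ≤ j) :
    ∃ (k' : ℕ → ℕ) (N : ℕ), (∀ i, 1 ≤ k' i) ∧ Ft e k n j = F e k' N := by
  rcases Nat.eq_zero_or_pos j with rfl | hj
  · obtain ⟨n, rfl⟩ : ∃ n', n = n' + 1 := ⟨n - 1, by omega⟩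
    exact ⟨k, n, hk, Ft_zero e k n⟩
  · exact ⟨Function.update k n j, n + 1, update_pos hk n hj, Ft_update e k n j⟩

lemma prod_lower {e a b : ℝ} (ha : a ^ 2 ≤ 1 + e ^ 2 / 2) (hb : b ^ 2 ≤ 1 + e ^ 2 / 2) :
    e ^ 2 / 2 ≤ e ^ 2 + (1 - a ^ 2) * (1 - b ^ 2) := by
  have ha0 := sq_nonneg a
  have hb0 := sq_nonneg b
  rcases le_total (a ^ 2) 1 with h | h
  · rcases le_total (b ^ 2) 1 with h' | h'
    · nlinarith [mul_nonneg (sub_nonneg.2 h) (sub_nonneg.2 h'), sq_nonneg e]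
    · nlinarith [mul_nonneg ha0 (sub_nonneg.2 h'), mul_nonneg (sub_nonneg.2 h) (sub_nonneg.2 h')]
  · rcases le_total (b ^ 2) 1 with h' | h'
    · nlinarith [mul_nonneg hb0 (sub_nonneg.2 h), mul_nonneg (sub_nonneg.2 h) (sub_nonneg.2 h')]
    · nlinarith [mul_nonneg (sub_nonneg.2 h) (sub_nonneg.2 h'), sq_nonneg e]

lemma contDiffAt_orb_Psi {e : ℝ} (k : ℕ → ℕ) (n j : ℕ) {q : ℝ × ℝ} (hq : q ∈ Dom) :
    ContDiffAt ℝ ∞ (fun q : ℝ × ℝ => U^[j] (orb k n (Psi e q.1 q.2))) q := by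
  have h1 := (contDiffOn_Psi e).contDiffAt (Dom_nhds hq)
  exact ((contDiff_U_iter j).comp (contDiff_orb k n)).contDiffAt.comp q h1

lemma le3 {f : ℝ × ℝ → ℝ} {q : ℝ × ℝ} (h : ContDiffAt ℝ ∞ f q) : ContDiffAt ℝ 3 f q := by
  have := contDiffAt_infty.1 h 3
  exact_mod_cast this

theorem link {e : ℝ} (he : 0 < e) : ∃ C : ℝ, 0 ≤ C ∧ ∀ (k : ℕ → ℕ), (∀ i, 1 ≤ k i) →
    ∀ q ∈ Dom, ∀ n j : ℕ, (1 ≤ n ∨ 1 ≤ j) → |Ft e k n j q| ≤ B e →
      (|F e k n q| ≤ B e → LinkB C (Ft e k n j) (F e k n) q) ∧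
      (|Ft e k n (j + 1) q| ≤ B e → LinkB C (Ft e k n j) (Ft e k n (j + 1)) q) := by
  have hVB : 0 < V e - B e := sub_pos.2 (B_lt_V he)
  have hB : 0 ≤ B e := Real.sqrt_nonneg _
  obtain ⟨C, hC, h⟩ := link_abs e (B e) (e / 2) (1 / (V e - B e)) (e / 2)
    (by positivity) (by positivity) hB (by positivity)
  refine ⟨C, hC, ?_⟩
  -- lower bound for the derivative
  have hlow : ∀ {k' : ℕ → ℕ} (hk' : ∀ i, 1 ≤ k' i) {N : ℕ} {q : ℝ × ℝ} (hq : q ∈ Dom)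
      (hb : |F e k' N q| ≤ B e), e / 2 ≤ |dt (F e k' N) q| ∧
        |dt (dt (F e k' N)) q| ≤ 1 / (V e - B e) * dt (F e k' N) q ^ 2 := by
    intro k' hk' N q hq hb
    obtain ⟨h1, h2⟩ := F_tame he hk' hq hb
    refine ⟨?_, h1⟩
    have h3 : (1 : ℝ) ≤ (dg k' N).1 := by exact_mod_cast dg_pos hk' N
    have h4 : (e / 2) ^ 2 ≤ |dt (F e k' N) q| ^ 2 := by
      rw [sq_abs]; nlinarith [sq_nonneg e]
    exact (pow_le_pow_iff_left₀ (by positivity) (abs_nonneg _) (by norm_num)).1 h4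
  have hd : ∀ {a b d : ℝ}, |a| ≤ B e → |b| ≤ B e →
      d ^ 2 = e ^ 2 + (1 - a ^ 2) * (1 - b ^ 2) → e / 2 ≤ |d| := by
    intro a b d ha hb hd
    have h1 := prod_lower (sq_le_of_B ha) (sq_le_of_B hb)
    rw [← hd] at h1
    have h4 : (e / 2) ^ 2 ≤ |d| ^ 2 := by
      rw [sq_abs]; nlinarith [sq_nonneg e]
    exact (pow_le_pow_iff_left₀ (by positivity) (abs_nonneg _) (by norm_num)).1 h4
  intro k hk q hq n j hnj hz
  obtain ⟨k1, N1, hk1, e1⟩ := Ft_rep (e := e) hk hnj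
  have hs : ((-1 : ℝ) ^ n) ^ 2 = 1 := by
    rw [← pow_mul, mul_comm, pow_mul]; norm_num
  have hev : ∀ᶠ q' in 𝓝 q, q' ∈ Dom := Dom_nhds hq
  have hmem : ∀ q' ∈ Dom, U^[j] (orb k n (Psi e q'.1 q'.2)) ∈ Surf e := fun q' hq' =>
    U_iter_mem (orb_mem (Psi_mem hq') k n) j
  have hy : ∀ q', (U^[j] (orb k n (Psi e q'.1 q'.2))).2.1 = F e k n q' := fun q' => U_iter_y _ _
  have hx : ∀ q', (U^[j] (orb k n (Psi e q'.1 q'.2))).1 = Ft e k n (j + 1) q' := fun q' =>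
    U_iter_x _ _
  have hzz : ∀ q', (U^[j] (orb k n (Psi e q'.1 q'.2))).2.2 = Ft e k n j q' := fun q' => rfl
  have hz1 := hlow hk1 hq (N := N1) (by rw [← e1]; exact hz)
  rw [← e1] at hz1
  constructor
  · intro hyb
    have hDl : ∀ q' ∈ Dom, D (U^[j] (orb k n (Psi e q'.1 q'.2))) ^ 2
        = e ^ 2 + (1 - Ft e k n j q' ^ 2) * (1 - F e k n q' ^ 2) := by
      intro q' hq'
      rw [D_sq (hmem q' hq'), hy, hzz]; ring
    have hy1 := hlow hk hq (N := n) hyb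
    have hDsm : ContDiffAt ℝ ∞ (fun q' : ℝ × ℝ => D (U^[j] (orb k n (Psi e q'.1 q'.2)))) q := by
      have h5 : ContDiff ℝ ∞ D := by unfold D; fun_prop
      exact h5.contDiffAt.comp q (contDiffAt_orb_Psi k n j hq)
    exact h (Ft e k n j) (F e k n) (fun q' => D (U^[j] (orb k n (Psi e q'.1 q'.2)))) q
      ((-1) ^ n) hs (le3 (contDiffAt_Ft hq)) (le3 (contDiffAt_F hq))
      (hDsm.of_le (by exact_mod_cast le_top)) hz hyb
      (hev.mono hDl) (hev.mono fun q' hq' => jac_zy k n j hq')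
      (hd hz hyb (hDl q hq)) hz1.1 hy1.1 hz1.2 hy1.2
  · intro hxb
    obtain ⟨k2, N2, hk2, e2⟩ := Ft_rep (e := e) hk (n := n) (j := j + 1) (Or.inr (by omega))
    have hDl : ∀ q' ∈ Dom, (F e k n q' - Ft e k n (j + 1) q' * Ft e k n j q') ^ 2
        = e ^ 2 + (1 - Ft e k n j q' ^ 2) * (1 - Ft e k n (j + 1) q' ^ 2) := by
      intro q' hq'
      have h5 : FV (U^[j] (orb k n (Psi e q'.1 q'.2))) = 1 + e ^ 2 := hmem q' hq'
      unfold FV at h5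
      rw [hx, hy, hzz] at h5
      linear_combination h5
    have hx1 := hlow hk2 hq (N := N2) (by rw [← e2]; exact hxb)
    rw [← e2] at hx1
    have hDsm : ContDiffAt ℝ ∞
        (fun q' : ℝ × ℝ => F e k n q' - Ft e k n (j + 1) q' * Ft e k n j q') q :=
      (contDiffAt_F hq).sub ((contDiffAt_Ft hq).mul (contDiffAt_Ft hq))
    exact h (Ft e k n j) (Ft e k n (j + 1))
      (fun q' => F e k n q' - Ft e k n (j + 1) q' * Ft e k n j q') q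
      ((-1) ^ n) hs (le3 (contDiffAt_Ft hq)) (le3 (contDiffAt_Ft hq))
      (hDsm.of_le (by exact_mod_cast le_top)) hz hxb
      (hev.mono hDl) (hev.mono fun q' hq' => jac_zx k n j hq')
      (hd hz hxb (hDl q hq)) hz1.1 hx1.1 hz1.2 hx1.2

end TM
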