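import Pool.Agent.Helper55.TM.Blend5

/-!
# MP_fc8395_an : local theorem, part 1 (preparations)
-/

set_option autoImplicit false

open scoped ContDiff Topology
open Filter Set

namespace TM

/-! ### a cut-off exists -/

theorem exists_cut {e : ℝ} (he : 0 < e) : Nonempty (Cut e) := by
  have hB := one_lt_B he
  set a1 : ℝ := (2 + B e) / 3 with ha1
  set a2 : ℝ := (1 + 2 * B e) / 3 with ha2
  have h1 : 1 < a1 := by rw [ha1]; linarith
  have h2 : a1 < a2 := by rw [ha1, ha2]; linarith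
  have h3 : a2 < B e := by rw [ha2]; linarith
  let b : ContDiffBump (0 : ℝ) := ⟨a1, a2, by linarith, h2⟩
  refine ⟨⟨b, a1, a2, h1, h2, h3, b.contDiff, fun y => b.nonneg, fun y => b.le_one, ?_, ?_⟩⟩
  · intro y hy
    refine b.one_of_mem_closedBall ?_
    rw [mem_closedBall_zero_iff]; exact hy
  · intro y hy
    refine b.zero_of_le_dist ?_
    rw [dist_zero_right]; exact hy

/-! ### shifts of `W` -/

lemma orb_shift (k : ℕ → ℕ) (m n : ℕ) (p : Pt) :
    orb (fun i => k (m + i)) n (orb k m p) = orb k (m + n) p := (orb_add k m n p).symm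

lemma W_shift {e : ℝ} {k : ℕ → ℕ} (m : ℕ) {p : Pt} (hp : p ∈ Surf e) :
    p ∈ W e k ↔ orb k m p ∈ W e (fun i => k (m + i)) := by
  constructor
  · rintro ⟨_, C, hC⟩
    exact ⟨orb_mem hp k m, C, fun n => by rw [orb_shift]; exact hC _⟩
  · rintro ⟨_, C, hC⟩
    refine ⟨hp, max C (∑ i ∈ Finset.range m, ‖orb k i p‖), fun n => ?_⟩
    rcases Nat.lt_or_ge n m with h | h
    · refine le_trans ?_ (le_max_right _ _)
      exact Finset.single_le_sum (f := fun i => ‖orb k i p‖) (fun i _ => norm_nonneg _)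
        (Finset.mem_range.2 h)
    · obtain ⟨j, rfl⟩ : ∃ j, n = m + j := ⟨n - m, by omega⟩
      refine le_trans ?_ (le_max_left _ _)
      rw [← orb_shift]; exact hC j

/-! ### the derivative of `FV` -/

lemma fderiv_FV (p v : Pt) : fderiv ℝ FV p v = dFV p v := by
  have h1 : HasDerivAt (fun t : ℝ => p + t • v) v 0 := by
    simpa using ((hasDerivAt_id (0 : ℝ)).smul_const v).const_add p
  have h0 : (p + (0 : ℝ) • v) = p := by simp
  have h2 : HasDerivAt (fun t : ℝ => FV (p + t • v)) (fderiv ℝ FV p v) 0 := by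
    have := (contDiff_FV.differentiable (by simp)).differentiableAt (x := p + (0 : ℝ) • v)
    have h3 := this.hasFDerivAt.comp_hasDerivAt (0 : ℝ) h1
    rw [h0] at h3
    exact h3
  obtain ⟨x, y, z⟩ := p
  obtain ⟨a, b, c⟩ := v
  have h3 : HasDerivAt (fun t : ℝ => FV ((x, y, z) + t • (a, b, c))) (dFV (x, y, z) (a, b, c)) 0 := by
    have hx : HasDerivAt (fun t : ℝ => x + t * a) a 0 := by
      simpa using ((hasDerivAt_id (0 : ℝ)).mul_const a).const_add x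
    have hy : HasDerivAt (fun t : ℝ => y + t * b) b 0 := by
      simpa using ((hasDerivAt_id (0 : ℝ)).mul_const b).const_add y
    have hz : HasDerivAt (fun t : ℝ => z + t * c) c 0 := by
      simpa using ((hasDerivAt_id (0 : ℝ)).mul_const c).const_add z
    have e1 := (((hx.pow 2).add (hy.pow 2)).add (hz.pow 2)).sub
      (((hx.const_mul 2).mul hy).mul hz)
    refine e1.congr_deriv ?_
    simp [dFV]
    ring
  exact h2.unique h3

/-! ### linear maps and the recursion -/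

lemma rimFold_map {E E' : Type*} [AddCommGroup E] [Module ℝ E] [AddCommGroup E'] [Module ℝ E']
    (T : E →ₗ[ℝ] E') (w : ℕ → ℝ) (u : ℕ → E) (u' : ℕ → E') (s : E) (J : ℕ)
    (h : ∀ j, 1 ≤ j → j ≤ J → u' j = T (u j)) :
    rimFold w u' J (T s) = T (rimFold w u J s) := by
  induction J with
  | zero => rfl
  | succ J ih =>
    show w (J + 1) • u' (J + 1) + (1 - w (J + 1)) • rimFold w u' J (T s)
      = T (w (J + 1) • u (J + 1) + (1 - w (J + 1)) • rimFold w u J s)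
    rw [ih (fun j hj hj2 => h j hj (by omega)), h (J + 1) (by omega) le_rfl, map_add, map_smul,
      map_smul]

lemma rimFold_w {E : Type*} [AddCommGroup E] [Module ℝ E] {w w' : ℕ → ℝ} {u : ℕ → E} {s : E}
    {J : ℕ} (h : ∀ j, 1 ≤ j → j ≤ J → w j = w' j) : rimFold w u J s = rimFold w' u J s := by
  induction J with
  | zero => rfl
  | succ J ih =>
    show w (J + 1) • u (J + 1) + (1 - w (J + 1)) • rimFold w u J s
      = w' (J + 1) • u (J + 1) + (1 - w' (J + 1)) • rimFold w' u J s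
    rw [ih (fun j hj hj2 => h j hj (by omega)), h (J + 1) (by omega) le_rfl]

/-- The recursion at time `m + N0 + i` for `k` and at time `N0 + i` for the shifted sequence. -/
lemma stt_shift {E E' : Type*} [AddCommGroup E] [Module ℝ E] [AddCommGroup E'] [Module ℝ E']
    (T : E →ₗ[ℝ] E') (k : ℕ → ℕ) (m N0 : ℕ) (wy : ℕ → ℝ) (uy : ℕ → E) (wt : ℕ → ℕ → ℝ)
    (ut : ℕ → ℕ → E) (wy' : ℕ → ℝ) (uy' : ℕ → E') (wt' : ℕ → ℕ → ℝ) (ut' : ℕ → ℕ → E')
    (h1 : ∀ n, wy' (m + n) = wy n) (h2 : ∀ n, uy' (m + n) = T (uy n))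
    (h3 : ∀ n j, wt' (m + n) j = wt n j) (h4 : ∀ n j, ut' (m + n) j = T (ut n j)) (i : ℕ) :
    stt k wy' uy' wt' ut' (m + N0) i
      = T (stt (fun i => k (m + i)) wy uy wt ut N0 i) := by
  induction i with
  | zero => exact h2 N0
  | succ i ih =>
    have e1 : m + N0 + i + 1 = m + (N0 + i + 1) := by omega
    show wy' (m + N0 + i + 1) • uy' (m + N0 + i + 1) + (1 - wy' (m + N0 + i + 1)) •
        rimFold (wt' (m + N0 + i + 1)) (ut' (m + N0 + i + 1)) (k (m + N0 + i + 1) - 1)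
          (stt k wy' uy' wt' ut' (m + N0) i)
      = T (wy (N0 + i + 1) • uy (N0 + i + 1) + (1 - wy (N0 + i + 1)) •
        rimFold (wt (N0 + i + 1)) (ut (N0 + i + 1)) (k (m + (N0 + i + 1)) - 1)
          (stt (fun i => k (m + i)) wy uy wt ut N0 i))
    rw [ih, e1, h1, h2, map_add, map_smul, map_smul]
    congr 2
    rw [rimFold_w (w' := wt (N0 + i + 1)) (fun j _ _ => h3 _ j)]
    exact rimFold_map T _ _ _ _ _ (fun j _ _ => h4 _ j)

/-! ### the local parametrisation `Θ` -/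

/-- `Θ = orbInv ∘ Psi`. -/
noncomputable def Th (e : ℝ) (k : ℕ → ℕ) (m : ℕ) (q : ℝ × ℝ) : Pt := orbInv k m (Psi e q.1 q.2)

section

variable {e : ℝ} {k : ℕ → ℕ} {m : ℕ}

lemma Th_mem {q : ℝ × ℝ} (hq : q ∈ Dom) : Th e k m q ∈ Surf e := orbInv_mem (Psi_mem hq) k m

lemma Th_smooth {q : ℝ × ℝ} (hq : q ∈ Dom) : ContDiffAt ℝ ∞ (Th e k m) q :=
  (contDiff_orbInv k m).contDiffAt.comp q ((contDiffOn_Psi e).contDiffAt (Dom_nhds hq))

lemma orb_Th (q : ℝ × ℝ) : orb k m (Th e k m q) = Psi e q.1 q.2 := orb_orbInv _ _ _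

lemma yv_Th (n : ℕ) (q : ℝ × ℝ) : yv k (m + n) (Th e k m q) = F e (fun i => k (m + i)) n q := by
  unfold yv
  rw [← orb_shift, orb_Th]; rfl

lemma tv_Th (n j : ℕ) (q : ℝ × ℝ) :
    tv k (m + n) j (Th e k m q) = Ft e (fun i => k (m + i)) n j q := by
  unfold tv
  rw [← orb_shift, orb_Th]; rfl

lemma Th_inj {q : ℝ × ℝ} (hq : q ∈ Dom) : Function.Injective (fderiv ℝ (Th e k m) q) := by
  have h1 := ((Th_smooth (e := e) (k := k) (m := m) hq).differentiableAt (by simp)).hasFDerivAt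
  have h2 := ((contDiff_orb k m).differentiable (by simp)).differentiableAt
    (x := Th e k m q)
  have h3 := h2.hasFDerivAt.comp q h1
  have h4 : (orb k m ∘ Th e k m) = fun q : ℝ × ℝ => Psi e q.1 q.2 := by
    ext1 q'; exact orb_Th q'
  rw [h4] at h3
  have h5 := Psi_fderiv_inj (e := e) hq
  rw [h3.fderiv] at h5
  intro v w hvw
  apply h5
  show fderiv ℝ (orb k m) (Th e k m q) (fderiv ℝ (Th e k m) q v)
    = fderiv ℝ (orb k m) (Th e k m q) (fderiv ℝ (Th e k m) q w)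
  rw [hvw]

lemma Th_W {q : ℝ × ℝ} (hq : q ∈ Dom) :
    Th e k m q ∈ W e k ↔ Psi e q.1 q.2 ∈ W e (fun i => k (m + i)) := by
  rw [W_shift m (Th_mem hq), orb_Th]

/-! ### the Euclidean norm -/

lemma dot_self_pos {v : Pt} (h : v ≠ 0) : 0 < dot v v := by
  unfold dot
  by_contra hc
  apply h
  have h1 := mul_self_nonneg v.1
  have h2 := mul_self_nonneg v.2.1
  have h3 := mul_self_nonneg v.2.2
  have e1 : v.1 * v.1 = 0 := by linarith
  have e2 : v.2.1 * v.2.1 = 0 := by linarith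
  have e3 : v.2.2 * v.2.2 = 0 := by linarith
  have e1' := mul_self_eq_zero.1 e1
  have e2' := mul_self_eq_zero.1 e2
  have e3' := mul_self_eq_zero.1 e3
  ext <;> simp_all

lemma dot_smul (a b : ℝ) (v w : Pt) : dot (a • v) (b • w) = a * b * dot v w := by
  unfold dot
  simp only [Prod.smul_fst, Prod.smul_snd, smul_eq_mul]
  ring

/-- The norm of `DΘ (1, m)`. -/
noncomputable def NT (e : ℝ) (k : ℕ → ℕ) (m : ℕ) (x : (ℝ × ℝ) × ℝ) : ℝ :=
  Real.sqrt (dot (fderiv ℝ (Th e k m) x.1 (1, x.2)) (fderiv ℝ (Th e k m) x.1 (1, x.2)))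

lemma DTh_ne {q : ℝ × ℝ} (hq : q ∈ Dom) (a : ℝ) : fderiv ℝ (Th e k m) q (1, a) ≠ 0 := by
  intro h
  have h1 := Th_inj (e := e) (k := k) (m := m) hq (h.trans (map_zero _).symm)
  have h2 := congrArg Prod.fst h1
  simp at h2

lemma NT_pos {q : ℝ × ℝ} (hq : q ∈ Dom) (a : ℝ) : 0 < NT e k m (q, a) :=
  Real.sqrt_pos.2 (dot_self_pos (DTh_ne hq a))

lemma NT_sq {q : ℝ × ℝ} (hq : q ∈ Dom) (a : ℝ) : NT e k m (q, a) ^ 2
    = dot (fderiv ℝ (Th e k m) q (1, a)) (fderiv ℝ (Th e k m) q (1, a)) :=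
  Real.sq_sqrt (dot_self_pos (DTh_ne hq a)).le

lemma contDiffOn_Th (e : ℝ) (k : ℕ → ℕ) (m : ℕ) : ContDiffOn ℝ ∞ (Th e k m) Dom :=
  fun _ hq => (Th_smooth hq).contDiffWithinAt

lemma contDiffOn_DTh (e : ℝ) (k : ℕ → ℕ) (m : ℕ) :
    ContDiffOn ℝ ∞ (fderiv ℝ (Th e k m)) Dom :=
  ((contDiffOn_infty_iff_fderiv_of_isOpen isOpen_Dom).1 (contDiffOn_Th e k m)).2

lemma contDiff_dot : ContDiff ℝ ∞ (fun v : Pt × Pt => dot v.1 v.2) := by
  unfold dot; fun_prop

lemma contDiffOn_NT (e : ℝ) (k : ℕ → ℕ) (m : ℕ) :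
    ContDiffOn ℝ ∞ (NT e k m) (Dom ×ˢ (univ : Set ℝ)) := by
  intro x hx
  have hq : x.1 ∈ Dom := hx.1
  refine ContDiffAt.contDiffWithinAt ?_
  have h1 : ContDiffAt ℝ ∞ (fun x : (ℝ × ℝ) × ℝ => fderiv ℝ (Th e k m) x.1) x :=
    ((contDiffOn_DTh e k m).contDiffAt (Dom_nhds hq)).comp x contDiffAt_fst
  have h2 : ContDiffAt ℝ ∞ (fun x : (ℝ × ℝ) × ℝ => ((1 : ℝ), x.2)) x :=
    contDiffAt_const.prodMk contDiffAt_snd
  have h3 := h1.clm_apply h2
  have h4 : ContDiffAt ℝ ∞ (fun x : (ℝ × ℝ) × ℝ =>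
      dot (fderiv ℝ (Th e k m) x.1 (1, x.2)) (fderiv ℝ (Th e k m) x.1 (1, x.2))) x :=
    contDiff_dot.contDiffAt.comp x (h3.prodMk h3)
  exact h4.sqrt (dot_self_pos (DTh_ne hq x.2)).ne'

end

end TM
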