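import Pool.Agent.Helper55.TM.Local1

/-!
# MP_fc8395_an : local theorem, part 2 (the box, the canonical direction)
-/

set_option autoImplicit false

open scoped ContDiff Topology
open Filter Set

namespace TM

/-- `f` is a value function with index `≥ N0`, active at `q`. -/
def ActF (e : ℝ) (k : ℕ → ℕ) (N0 : ℕ) (q : ℝ × ℝ) (f : ℝ × ℝ → ℝ) : Prop :=
  |f q| ≤ B e ∧ ((∃ n, N0 ≤ n ∧ f = F e k n) ∨ ∃ n j, N0 < n ∧ f = Ft e k n j)

lemma F_congr {e : ℝ} {k k' : ℕ → ℕ} {n : ℕ} (h : ∀ i < n, k' i = k i) : F e k' n = F e k n := by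
  ext q
  show (orb k' n (Psi e q.1 q.2)).2.1 = (orb k n (Psi e q.1 q.2)).2.1
  rw [orb_congr h]

lemma ActF.rep {e : ℝ} {k : ℕ → ℕ} (hk : ∀ i, 1 ≤ k i) {N0 : ℕ} {q : ℝ × ℝ} {f : ℝ × ℝ → ℝ}
    (h : ActF e k N0 q f) : ∃ (k' : ℕ → ℕ) (n : ℕ), (∀ i, 1 ≤ k' i) ∧ N0 ≤ n ∧ f = F e k' n ∧
      ∀ i < N0, k' i = k i := by
  obtain ⟨_, ⟨n, hn, rfl⟩ | ⟨n, j, hn, rfl⟩⟩ := h
  · exact ⟨k, n, hk, hn, rfl, fun _ _ => rfl⟩
  · rcases Nat.eq_zero_or_pos j with rfl | hj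
    · obtain ⟨n', rfl⟩ : ∃ n', n = n' + 1 := ⟨n - 1, by omega⟩
      exact ⟨k, n', hk, by omega, Ft_zero e k n', fun _ _ => rfl⟩
    · exact ⟨Function.update k n j, n + 1, update_pos hk n hj, by omega, Ft_update e k n j,
        fun i hi => Function.update_of_ne (by omega) _ _⟩

lemma ActF.smooth {e : ℝ} {k : ℕ → ℕ} {N0 : ℕ} {q : ℝ × ℝ} (hq : q ∈ Dom) {f : ℝ × ℝ → ℝ}
    (h : ActF e k N0 q f) : ContDiffAt ℝ ∞ f q := by
  obtain ⟨_, ⟨n, hn, rfl⟩ | ⟨n, j, hn, rfl⟩⟩ := h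
  · exact contDiffAt_F hq
  · exact contDiffAt_Ft hq

lemma ActF.ne {e : ℝ} (he : 0 < e) {k : ℕ → ℕ} (hk : ∀ i, 1 ≤ k i) {N0 : ℕ} {q : ℝ × ℝ}
    (hq : q ∈ Dom) {f : ℝ × ℝ → ℝ} (h : ActF e k N0 q f) : dt f q ≠ 0 := by
  obtain ⟨k', n, hk', _, e1, _⟩ := h.rep hk
  have h1 := h.1
  rw [e1] at h1 ⊢
  exact F_ne he hk' hq (B_lt_V' he h1)

/-- Slopes of active values are close to the slope of `F_{N0}`. -/
lemma act_close {e : ℝ} (he : 0 < e) : ∃ C : ℝ, 0 ≤ C ∧ ∀ (k : ℕ → ℕ), (∀ i, 1 ≤ k i) →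
    ∀ (N0 : ℕ), ∀ q ∈ Dom, |F e k N0 q| ≤ B e → ∀ f, ActF e k N0 q f →
      |slope f q - slope (F e k N0) q| ≤ C * rho k N0 ^ 2 := by
  obtain ⟨C, hC, h⟩ := slope_close he
  refine ⟨C * (2 / e), by positivity, ?_⟩
  intro k hk N0 q hq h0 f hf
  obtain ⟨k', n, hk', hn, e1, e3⟩ := hf.rep hk
  have e2 : F e k' N0 = F e k N0 := F_congr e3
  have e4 : dg k' N0 = dg k N0 := dg_congr e3
  have hb := hf.1
  rw [e1] at hb ⊢
  have h1 := (h k' hk' N0 n hn q hq (by rw [e2]; exact h0) hb).1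
  rw [e2, e4] at h1
  have hm : (0 : ℝ) < (dg k N0).1 := by exact_mod_cast dg_pos hk N0
  have h2 := (F_tame he hk hq (n := N0) h0).2
  have h3 : e / 2 * Real.sqrt (dg k N0).1 ≤ |dt (F e k N0) q| := by
    have h4 : (e / 2 * Real.sqrt (dg k N0).1) ^ 2 ≤ |dt (F e k N0) q| ^ 2 := by
      rw [mul_pow, Real.sq_sqrt hm.le, sq_abs]
      refine le_trans (le_of_eq ?_) h2
      ring
    exact (pow_le_pow_iff_left₀ (by positivity) (abs_nonneg _) (by norm_num)).1 h4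
  have h6 : e / 2 * (dg k N0).1 ≤ |dt (F e k N0) q| * Real.sqrt (dg k N0).1 := by
    have h7 := mul_le_mul_of_nonneg_right h3 (Real.sqrt_nonneg ((dg k N0).1 : ℝ))
    have h8 : e / 2 * Real.sqrt (dg k N0).1 * Real.sqrt (dg k N0).1
        = e / 2 * (dg k N0).1 := by
      rw [mul_assoc, Real.mul_self_sqrt hm.le]
    rwa [h8] at h7
  have h9 : rho k N0 ^ 2 = 1 / ((dg k N0).1 : ℝ) := by
    unfold rho
    rw [div_pow, one_pow, Real.sq_sqrt hm.le]
  refine h1.trans ?_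
  rw [h9]
  calc C / (|dt (F e k N0) q| * Real.sqrt (dg k N0).1) ≤ C / (e / 2 * (dg k N0).1) :=
        div_le_div_of_nonneg_left hC (by positivity) h6
    _ = _ := by field_simp

lemma rho_le_one {k : ℕ → ℕ} (hk : ∀ i, 1 ≤ k i) (n : ℕ) : rho k n ≤ 1 := by
  unfold rho
  rw [div_le_one (Real.sqrt_pos.2 (by exact_mod_cast dg_pos hk _))]
  rw [Real.one_le_sqrt]
  exact_mod_cast dg_pos hk _

lemma tendsto_rho {k : ℕ → ℕ} (hk : ∀ i, 1 ≤ k i) : Tendsto (rho k) atTop (𝓝 0) := by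
  refine squeeze_zero (fun n => (rho_pos hk n).le) (fun n => rho_le hk n) ?_
  have := (tendsto_pow_atTop_nhds_zero_of_lt_one (by norm_num : (0 : ℝ) ≤ 17 / 20)
    (by norm_num)).const_mul (2 : ℝ)
  simpa using this

/-- The box around a point of `W`. -/
theorem exists_box {e : ℝ} (he : 0 < e) {k : ℕ → ℕ} (hk : ∀ i, 1 ≤ k i) (c : Cut e) (m : ℕ)
    {q0 : ℝ × ℝ} (hq0 : q0 ∈ Dom) (hW : Psi e q0.1 q0.2 ∈ W e (fun i => k (m + i))) :
    ∃ (N0 : ℕ) (δ : ℝ), 0 < δ ∧ δ ≤ 1 ∧ Metric.closedBall q0 δ ⊆ Dom ∧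
      (∀ q ∈ Metric.closedBall q0 δ, |F e (fun i => k (m + i)) N0 q| < c.a1) ∧
      ∀ q ∈ Metric.closedBall q0 δ, ∀ f g, ActF e (fun i => k (m + i)) N0 q f →
        ActF e (fun i => k (m + i)) N0 q g →
        0 < dot (fderiv ℝ (Th e k m) q (1, slope f q)) (fderiv ℝ (Th e k m) q (1, slope g q)) := by
  set k' : ℕ → ℕ := fun i => k (m + i) with hk'def
  have hk' : ∀ i, 1 ≤ k' i := fun i => hk _
  obtain ⟨C, hC, hclose⟩ := act_close he
  have hB1 := one_lt_B he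
  -- a first index
  obtain ⟨N1, _, hN1⟩ := W_inf he hk' hW 0
  have hN1' : |F e k' N1 q0| < 1 := hN1
  set M0 : ℝ := |slope (F e k' N1) q0| + C with hM0
  -- the open set and the compact set
  set G : (ℝ × ℝ) × ℝ × ℝ → ℝ := fun x =>
    dot (fderiv ℝ (Th e k m) x.1 (1, x.2.1)) (fderiv ℝ (Th e k m) x.1 (1, x.2.2)) with hG
  have hGc : ContinuousOn G (Dom ×ˢ (univ : Set (ℝ × ℝ))) := by
    intro x hx
    have hq : x.1 ∈ Dom := hx.1
    refine ContinuousAt.continuousWithinAt ?_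
    have h1 : ContinuousAt (fun x : (ℝ × ℝ) × ℝ × ℝ => fderiv ℝ (Th e k m) x.1) x :=
      ((contDiffOn_DTh e k m).contDiffAt (Dom_nhds hq)).continuousAt.comp continuousAt_fst
    have h2 : ContinuousAt (fun x : (ℝ × ℝ) × ℝ × ℝ => ((1 : ℝ), x.2.1)) x :=
      continuousAt_const.prodMk (continuousAt_fst.comp continuousAt_snd)
    have h3 : ContinuousAt (fun x : (ℝ × ℝ) × ℝ × ℝ => ((1 : ℝ), x.2.2)) x :=
      continuousAt_const.prodMk (continuousAt_snd.comp continuousAt_snd)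
    exact (contDiff_dot.continuous.continuousAt).comp ((h1.clm_apply h2).prodMk (h1.clm_apply h3))
  set W0 : Set ((ℝ × ℝ) × ℝ × ℝ) := (Dom ×ˢ (univ : Set (ℝ × ℝ))) ∩ G ⁻¹' Ioi 0 with hW0
  have hW0o : IsOpen W0 := hGc.isOpen_inter_preimage (isOpen_Dom.prod isOpen_univ) isOpen_Ioi
  set D0 : Set ((ℝ × ℝ) × ℝ × ℝ) := (fun a : ℝ => (q0, a, a)) '' Icc (-M0) M0 with hD0
  have hD0c : IsCompact D0 := isCompact_Icc.image (by fun_prop)
  have hD0W : D0 ⊆ W0 := by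
    rintro _ ⟨a, _, rfl⟩
    exact ⟨⟨hq0, mem_univ _⟩, dot_self_pos (DTh_ne hq0 a)⟩
  obtain ⟨ε, hε, hεW⟩ := hD0c.exists_thickening_subset_open hW0o hD0W
  -- choose N0
  have hev : ∀ᶠ n in atTop, C * rho k' n ^ 2 < ε / 2 := by
    have h1 : Tendsto (fun n => C * rho k' n ^ 2) atTop (𝓝 0) := by
      simpa using ((tendsto_rho hk').pow 2).const_mul C
    exact h1.eventually_lt_const (by linarith)
  obtain ⟨n1, hn1⟩ := eventually_atTop.1 hev
  obtain ⟨N0, hN0n, hN0⟩ := W_inf he hk' hW (max n1 N1)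
  have hN0' : |F e k' N0 q0| < 1 := hN0
  have hN0n1 : n1 ≤ N0 := (le_max_left _ _).trans hN0n
  have hN01 : N1 ≤ N0 := (le_max_right _ _).trans hN0n
  set a0 : ℝ := slope (F e k' N0) q0 with ha0
  have ha0M : a0 ∈ Icc (-M0) M0 := by
    have h1 := hclose k' hk' N1 q0 hq0 (hN1'.trans hB1).le (F e k' N0)
      ⟨(hN0'.trans hB1).le, Or.inl ⟨N0, hN01, rfl⟩⟩
    have h2 : C * rho k' N1 ^ 2 ≤ C := by
      have := rho_le_one hk' N1
      have h3 : rho k' N1 ^ 2 ≤ 1 := pow_le_one₀ (rho_pos hk' N1).le this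
      nlinarith
    have h4 : |a0| ≤ M0 := by
      have h5 : |a0| ≤ |slope (F e k' N1) q0| + |a0 - slope (F e k' N1) q0| := by
        have := abs_add_le (slope (F e k' N1) q0) (a0 - slope (F e k' N1) q0)
        simpa using this
      linarith
    exact abs_le.1 h4
  have hcF : ContinuousAt (F e k' N0) q0 := (contDiffAt_F hq0).continuousAt
  have hcS : ContinuousAt (slope (F e k' N0)) q0 :=
    (contDiffAt_slope (contDiffAt_F hq0)
      (F_ne he hk' hq0 (B_lt_V' he (hN0'.trans hB1).le))).continuousAt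
  have hev2 : ∀ᶠ q in 𝓝 q0, q ∈ Dom ∧ |F e k' N0 q| < c.a1 ∧ |slope (F e k' N0) q - a0| < ε / 2 := by
    have hev1 : ∀ᶠ q in 𝓝 q0, q ∈ Dom := Dom_nhds hq0
    refine hev1.and (Eventually.and ?_ ?_)
    · exact hcF.abs.eventually_lt continuousAt_const (hN0'.trans c.one_lt)
    · have : ContinuousAt (fun q => |slope (F e k' N0) q - a0|) q0 :=
        (hcS.sub continuousAt_const).abs
      refine this.eventually_lt continuousAt_const ?_
      simp [ha0, hε]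
  obtain ⟨δ0, hδ0, hball⟩ := Metric.eventually_nhds_iff_ball.1 hev2
  set δ : ℝ := min (δ0 / 2) (min (ε / 2) 1) with hδ
  have hδpos : 0 < δ := by rw [hδ]; positivity
  have hδ1 : δ ≤ 1 := (min_le_right _ _).trans (min_le_right _ _)
  have hδε : δ ≤ ε / 2 := (min_le_right _ _).trans (min_le_left _ _)
  have hδδ : δ ≤ δ0 / 2 := min_le_left _ _
  have hin : ∀ q ∈ Metric.closedBall q0 δ, q ∈ Metric.ball q0 δ0 := by
    intro q hq
    rw [Metric.mem_closedBall] at hq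
    rw [Metric.mem_ball]
    linarith
  refine ⟨N0, δ, hδpos, hδ1, fun q hq => (hball q (hin q hq)).1,
    fun q hq => (hball q (hin q hq)).2.1, ?_⟩
  intro q hq f g hf hg
  obtain ⟨hqD, hqa, hqs⟩ := hball q (hin q hq)
  have hb : |F e k' N0 q| ≤ B e := (hqa.trans c.a1_lt_B).le
  have hnear : ∀ f, ActF e k' N0 q f → |slope f q - a0| < ε := by
    intro f hf
    have h1 := hclose k' hk' N0 q hqD hb f hf
    have h2 := hn1 N0 hN0n1
    have h3 := abs_add_le (slope f q - slope (F e k' N0) q) (slope (F e k' N0) q - a0)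
    rw [sub_add_sub_cancel] at h3
    linarith
  have hmem : (q, slope f q, slope g q) ∈ Metric.thickening ε D0 := by
    rw [Metric.mem_thickening_iff]
    refine ⟨(q0, a0, a0), ⟨a0, ha0M, rfl⟩, ?_⟩
    rw [Prod.dist_eq, Prod.dist_eq]
    refine max_lt ?_ (max_lt ?_ ?_)
    · rw [Metric.mem_closedBall] at hq
      show dist q q0 < ε
      linarith
    · show dist (slope f q) a0 < ε
      rw [Real.dist_eq]; exact hnear f hf
    · show dist (slope g q) a0 < ε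
      rw [Real.dist_eq]; exact hnear g hg
  exact (hεW hmem).2

/-! ### the canonical direction -/

section

variable {e : ℝ} {k : ℕ → ℕ} {m : ℕ}

lemma Gf_eq (f : ℝ × ℝ → ℝ) (NN : (ℝ × ℝ) × ℝ → ℝ) (q : ℝ × ℝ) :
    Gf NN f q = (1 / NN (q, slope f q)) • ((1 : ℝ), slope f q) := by
  unfold Gf Gam
  ext <;> simp [div_eq_inv_mul]

/-- The basic properties of the pushed-forward direction. -/
lemma kills_of {q : ℝ × ℝ} (hq : q ∈ Dom) {f : ℝ × ℝ → ℝ} (hf : ContDiffAt ℝ ∞ f q)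
    (hne : dt f q ≠ 0) {g : Pt → ℝ} (hg : Differentiable ℝ g) (hgf : ∀ p, g (Th e k m p) = f p) :
    Kills g (Th e k m q) (fderiv ℝ (Th e k m) q (Gf (NT e k m) f q)) := by
  have hT := ((Th_smooth (e := e) (k := k) (m := m) hq).differentiableAt (by simp)).hasFDerivAt
  have hcg : ∀ w, fderiv ℝ g (Th e k m q) (fderiv ℝ (Th e k m) q w) = fderiv ℝ f q w := by
    intro w
    have h1 := (hg.differentiableAt (x := Th e k m q)).hasFDerivAt.comp q hT
    have h2 : (g ∘ Th e k m) = f := by ext p; exact hgf p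
    rw [h2] at h1
    rw [h1.fderiv]; rfl
  have hcF : ∀ w, dFV (Th e k m q) (fderiv ℝ (Th e k m) q w) = 0 := by
    intro w
    rw [← fderiv_FV]
    have h1 := ((contDiff_FV.differentiable (by simp)).differentiableAt
      (x := Th e k m q)).hasFDerivAt.comp q hT
    have h2 : (FV ∘ Th e k m) =ᶠ[𝓝 q] fun _ => 1 + e ^ 2 := by
      have : ∀ᶠ p in 𝓝 q, p ∈ Dom := Dom_nhds hq
      exact this.mono fun p hp => Th_mem hp
    have h3 := h2.fderiv_eq (𝕜 := ℝ)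
    rw [h1.fderiv] at h3
    have h4 := congrArg (fun L : (ℝ × ℝ) →L[ℝ] ℝ => L w) h3
    simpa using h4
  refine ⟨?_, hcF _, ?_, fderiv ℝ (Th e k m) q (0, 1), hcF _, ?_⟩
  · rw [Gf_eq, map_smul, dot_smul, ← NT_sq hq]
    have := (NT_pos (e := e) (k := k) (m := m) hq (slope f q)).ne'
    field_simp
  · rw [hcg, Gf_eq, map_smul]
    have h1 : fderiv ℝ f q ((1 : ℝ), slope f q) = dz f q + slope f q * dt f q := by
      have : ((1 : ℝ), slope f q) = ((1 : ℝ), (0 : ℝ)) + slope f q • ((0 : ℝ), (1 : ℝ)) := by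
        ext <;> simp
      rw [this, map_add, map_smul]; rfl
    rw [h1]
    have h2 : dz f q + slope f q * dt f q = 0 := by
      unfold slope
      field_simp
      ring
    rw [h2, smul_zero]
  · rw [hcg]; exact hne

lemma contDiff_yv (k : ℕ → ℕ) (n : ℕ) : ContDiff ℝ ∞ (yv k n) :=
  contDiff_fst.comp (contDiff_snd.comp (contDiff_orb k n))

lemma contDiff_tv (k : ℕ → ℕ) (n j : ℕ) : ContDiff ℝ ∞ (tv k n j) :=
  contDiff_snd.comp (contDiff_snd.comp ((contDiff_U_iter j).comp (contDiff_orb k n)))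

theorem isCan_of (he : 0 < e) (hk : ∀ i, 1 ≤ k i) (c : Cut e) {N0 : ℕ} {q : ℝ × ℝ} (hq : q ∈ Dom)
    (h0 : |F e (fun i => k (m + i)) N0 q| < c.a1)
    (hdot : ∀ f g, ActF e (fun i => k (m + i)) N0 q f → ActF e (fun i => k (m + i)) N0 q g →
      0 < dot (fderiv ℝ (Th e k m) q (1, slope f q)) (fderiv ℝ (Th e k m) q (1, slope g q)))
    {v : ℝ × ℝ} (hv : Tendsto (fun i => sN e (fun i => k (m + i)) c.χ (NT e k m) N0 i q) atTop
      (𝓝 v)) : IsCan k c.χ (Th e k m q) (fderiv ℝ (Th e k m) q v) := by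
  set k' : ℕ → ℕ := fun i => k (m + i) with hk'def
  have hk' : ∀ i, 1 ≤ k' i := fun i => hk _
  have hact : ∀ {y : ℝ}, c.χ y ≠ 0 → |y| ≤ B e := by
    intro y hy
    by_contra h
    exact hy (c.zero y (c.lt_B.trans (not_le.1 h)).le)
  set T : (ℝ × ℝ) →L[ℝ] Pt := fderiv ℝ (Th e k m) q with hT
  refine ⟨m + N0, fun n => T (Gf (NT e k m) (F e k' (n - m)) q),
    fun n j => T (Gf (NT e k m) (Ft e k' (n - m) j) q),
    {u | ∃ f, ActF e k' N0 q f ∧ u = T (Gf (NT e k m) f q)}, ?_, ?_, ?_, ?_, ?_⟩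
  · rw [yv_Th]; exact c.one _ h0.le
  · intro n hn hne
    obtain ⟨n', rfl⟩ : ∃ n', n = m + n' := ⟨n - m, by omega⟩
    have e1 : m + n' - m = n' := by omega
    rw [yv_Th] at hne
    have hA : ActF e k' N0 q (F e k' n') := ⟨hact hne, Or.inl ⟨n', by omega, rfl⟩⟩
    simp only [e1]
    refine ⟨kills_of hq (hA.smooth hq) (hA.ne he hk' hq)
      ((contDiff_yv k _).differentiable (by simp)) (fun p => yv_Th n' p), ?_⟩
    exact ⟨_, hA, rfl⟩
  · intro n hn j hj hj2 hne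
    obtain ⟨n', rfl⟩ : ∃ n', n = m + n' := ⟨n - m, by omega⟩
    have e1 : m + n' - m = n' := by omega
    rw [tv_Th] at hne
    have hA : ActF e k' N0 q (Ft e k' n' j) := ⟨hact hne, Or.inr ⟨n', j, by omega, rfl⟩⟩
    simp only [e1]
    refine ⟨kills_of hq (hA.smooth hq) (hA.ne he hk' hq)
      ((contDiff_tv k _ _).differentiable (by simp)) (fun p => tv_Th n' j p), ?_⟩
    exact ⟨_, hA, rfl⟩
  · rintro _ ⟨f, hf, rfl⟩ _ ⟨g, hg, rfl⟩
    rw [Gf_eq, Gf_eq, map_smul, map_smul, dot_smul]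
    have h1 := NT_pos (e := e) (k := k) (m := m) hq (slope f q)
    have h2 := NT_pos (e := e) (k := k) (m := m) hq (slope g q)
    have h3 := hdot f g hf hg
    positivity
  · have h1 : ∀ i, stt k (fun n => c.χ (yv k n (Th e k m q)))
        (fun n => T (Gf (NT e k m) (F e k' (n - m)) q))
        (fun n j => c.χ (tv k n j (Th e k m q)))
        (fun n j => T (Gf (NT e k m) (Ft e k' (n - m) j) q)) (m + N0) i
        = T (sN e k' c.χ (NT e k m) N0 i q) := by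
      intro i
      exact stt_shift (T : (ℝ × ℝ) →ₗ[ℝ] Pt) k m N0 (fun n => c.χ (F e k' n q))
        (fun n => Gf (NT e k m) (F e k' n) q) (fun n j => c.χ (Ft e k' n j q))
        (fun n j => Gf (NT e k m) (Ft e k' n j) q) _ _ _ _
        (fun n => by rw [yv_Th])
        (fun n => by
          have e1 : m + n - m = n := by omega
          simp only [e1]; rfl)
        (fun n j => by rw [tv_Th])
        (fun n j => by
          have e1 : m + n - m = n := by omega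
          simp only [e1]; rfl) i
    have h2 : Tendsto (fun i => T (sN e k' c.χ (NT e k m) N0 i q)) atTop (𝓝 (T v)) :=
      (T.continuous.tendsto v).comp hv
    refine h2.congr (fun i => (h1 i).symm)

end

end TM
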