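import Pool.Agent.Helper55.TM.Local2
import Pool.Agent.Helper16.TM_LS4
import Pool.Agent.Helper31.TM_SA

/-!
# MP_fc8395_an : local theorem, part 3 (charts)
-/

set_option autoImplicit false

open scoped ContDiff Topology
open Filter Set

namespace TM

/-! ### the reparametrisation -/

/-- `σ(s) = δ (2/π) arctan s`. -/
noncomputable def sgm (δ s : ℝ) : ℝ := δ * (2 / Real.pi) * Real.arctan s

lemma sgm_zero (δ : ℝ) : sgm δ 0 = 0 := by simp [sgm]

lemma sgm_lt {δ : ℝ} (hδ : 0 < δ) (s : ℝ) : |sgm δ s| < δ := by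
  unfold sgm
  rw [abs_mul, abs_of_pos (by positivity)]
  have h1 : |Real.arctan s| < Real.pi / 2 :=
    abs_lt.2 ⟨Real.neg_pi_div_two_lt_arctan s, Real.arctan_lt_pi_div_two s⟩
  calc δ * (2 / Real.pi) * |Real.arctan s| < δ * (2 / Real.pi) * (Real.pi / 2) :=
        mul_lt_mul_of_pos_left h1 (by positivity)
    _ = δ := by field_simp

lemma sgm_inj {δ : ℝ} (hδ : 0 < δ) : Function.Injective (sgm δ) := by
  intro s t h
  unfold sgm at h
  have h1 : δ * (2 / Real.pi) ≠ 0 := by positivity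
  exact Real.arctan_injective (mul_left_cancel₀ h1 h)

lemma sgm_smooth (δ : ℝ) {n : WithTop ℕ∞} : ContDiff ℝ n (sgm δ) :=
  contDiff_const.mul Real.contDiff_arctan

lemma sgm_deriv {δ : ℝ} (hδ : 0 < δ) (s : ℝ) :
    ∃ d : ℝ, 0 < d ∧ HasDerivAt (sgm δ) d s := by
  refine ⟨δ * (2 / Real.pi) * (1 / (1 + s ^ 2)), by positivity, ?_⟩
  exact (Real.hasDerivAt_arctan s).const_mul _

/-! ### injectivity of `Psi` -/

lemma Psi_inj {e : ℝ} {q q' : ℝ × ℝ} (hq : q ∈ Dom) (hq' : q' ∈ Dom)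
    (h : Psi e q.1 q.2 = Psi e q'.1 q'.2) (hd : |q.2 - q'.2| < 2 * Real.pi) : q = q' := by
  have h3 : Real.cos q.1 = Real.cos q'.1 := congrArg (fun p : Pt => p.2.2) h
  have h1 : q.1 = q'.1 := Real.injOn_cos ⟨hq.1.le, hq.2.le⟩ ⟨hq'.1.le, hq'.2.le⟩ h3
  have hs : 0 < Real.sin q.1 := Real.sin_pos_of_pos_of_lt_pi hq.1 hq.2
  have hA : 0 < Amp e q.1 := by
    unfold Amp
    exact Real.sqrt_pos.2 (by positivity)
  have h4 : Amp e q.1 * Real.cos q.2 = Amp e q'.1 * Real.cos q'.2 :=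
    congrArg (fun p : Pt => p.2.1) h
  have h5 : Amp e q.1 * Real.cos (q.2 + q.1) = Amp e q'.1 * Real.cos (q'.2 + q'.1) :=
    congrArg (fun p : Pt => p.1) h
  rw [← h1] at h4 h5
  have h6 := mul_left_cancel₀ hA.ne' h4
  have h7 := mul_left_cancel₀ hA.ne' h5
  rw [Real.cos_add, Real.cos_add, h6] at h7
  have h8 : Real.sin q.2 = Real.sin q'.2 := by
    have : Real.sin q.2 * Real.sin q.1 = Real.sin q'.2 * Real.sin q.1 := by linarith
    exact mul_right_cancel₀ hs.ne' this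
  have h9 : Real.cos (q.2 - q'.2) = 1 := by
    rw [Real.cos_sub, h6, h8]
    have := Real.sin_sq_add_cos_sq q'.2
    nlinarith
  have h10 := (Real.cos_eq_one_iff_of_lt_of_lt (by linarith [(abs_lt.1 hd).1])
    (by linarith [(abs_lt.1 hd).2])).1 h9
  exact Prod.ext h1 (by linarith)

lemma Th_injOn {e : ℝ} {k : ℕ → ℕ} {m : ℕ} {q q' : ℝ × ℝ} (hq : q ∈ Dom) (hq' : q' ∈ Dom)
    (h : Th e k m q = Th e k m q') (hd : |q.2 - q'.2| < 2 * Real.pi) : q = q' := by
  refine Psi_inj (e := e) hq hq' ?_ hd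
  rw [← orb_Th (k := k) (m := m) q, h, orb_Th]

/-- Charts adapted to the canonical direction. -/
def Good (e : ℝ) (k : ℕ → ℕ) (χ : ℝ → ℝ) (φ : ℝ × ℝ → Pt) : Prop :=
  Chart0 e φ ∧
  (∀ z, ∃ v, IsCan k χ (φ z) v ∧ v ≠ 0 ∧ ∃ a : ℝ, a ≠ 0 ∧ fderiv ℝ φ z (1, 0) = a • v) ∧
  (∀ c : ℝ, (∃ s, φ (s, c) ∈ W e k) →
        (∀ s, φ (s, c) ∈ W e k) ∧ ContDiff ℝ ∞ (fun s : ℝ => φ (s, c)))

lemma Good.par {e : ℝ} (he : 0 < e) {k : ℕ → ℕ} {χ : ℝ → ℝ} {φ ψ : ℝ × ℝ → Pt}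
    (hφ : Good e k χ φ) (hψ : Good e k χ ψ) {z w : ℝ × ℝ} (h : φ z = ψ w) :
    ∃ a : ℝ, fderiv ℝ ψ w (1, 0) = a • fderiv ℝ φ z (1, 0) := by
  obtain ⟨v, hv, hv0, a, ha, hav⟩ := hφ.2.1 z
  obtain ⟨v', hv', hv0', a', ha', hav'⟩ := hψ.2.1 w
  rw [← h] at hv'
  rcases IsCan_unique he (hφ.1.mem z) hv hv' with h1 | h1
  · refine ⟨a' / a, ?_⟩
    rw [hav', hav, h1, smul_smul, div_mul_cancel₀ _ ha]
  · refine ⟨-(a' / a), ?_⟩
    rw [hav', hav, h1, smul_smul, smul_neg, ← neg_smul]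
    congr 1
    field_simp

theorem exists_good {e : ℝ} (he : 0 < e) {k : ℕ → ℕ} (hk : ∀ i, 1 ≤ k i) (c : Cut e) {p0 : Pt}
    (hp0 : p0 ∈ W e k) : ∃ φ, Good e k c.χ φ ∧ φ 0 = p0 := by
  have hp0S : p0 ∈ Surf e := hp0.1
  obtain ⟨m0, _, hm0⟩ := W_inf he hk hp0 0
  set m : ℕ := m0 + 1 with hm
  set k' : ℕ → ℕ := fun i => k (m + i) with hk'def
  have hk' : ∀ i, 1 ≤ k' i := fun i => hk _
  have hz : |(orb k m p0).2.2| < 1 := by rw [hm, orb_succ_z]; exact hm0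
  obtain ⟨q0, hq0, hPsi⟩ := Psi_surj (orb_mem hp0S k m) hz
  have hTh0 : Th e k m q0 = p0 := by
    unfold Th
    rw [hPsi, orbInv_orb]
  have hW0 : Psi e q0.1 q0.2 ∈ W e k' := by rw [hPsi]; exact (W_shift m hp0S).1 hp0
  obtain ⟨N0, δ, hδ, hδ1, hKD, hN0, hdot⟩ := exists_box he hk c m hq0 hW0
  set K : Set (ℝ × ℝ) := Metric.closedBall q0 δ with hK
  set U' : Set (ℝ × ℝ) := Metric.ball q0 δ with hU'
  have hUK : U' ⊆ K := Metric.ball_subset_closedBall
  have hUD : U' ⊆ Dom := hUK.trans hKD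
  obtain ⟨S, hS1, hS2, hS3, rate, hrate, hclose⟩ := blend he hk' c (NN := NT e k m)
    isOpen_Dom subset_rfl (contDiffOn_NT e k m) (fun q hq a => NT_pos hq a)
    (isCompact_closedBall q0 δ) hKD Metric.isOpen_ball (convex_ball q0 δ) hUK hN0
  set μ : ℝ × ℝ → ℝ := fun q => (S q).2 / (S q).1 with hμdef
  have hμ : ContDiffOn ℝ 1 μ U' :=
    (contDiff_snd.comp_contDiffOn hS1).div (contDiff_fst.comp_contDiffOn hS1)
      (fun q hq => (hS3 q hq).ne')
  have hq0U : q0 ∈ U' := Metric.mem_ball_self hδ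
  obtain ⟨η, hη, H, hH1, hH2, hH3, hH4, hH5⟩ := flow_box Metric.isOpen_ball hμ hq0U
  -- the inner map
  set J : ℝ × ℝ → ℝ × ℝ := fun z => (q0.1 + sgm η z.1, H (sgm η z.1, sgm η z.2)) with hJ
  have hJU : ∀ z, J z ∈ U' := fun z => (hH3 _ _ (sgm_lt hη _) (sgm_lt hη _)).1
  have hball : ∀ z : ℝ × ℝ, (sgm η z.1, sgm η z.2) ∈ Metric.ball (0 : ℝ × ℝ) η := by
    intro z
    rw [mem_ball_zero_iff, Prod.norm_def]
    exact max_lt (sgm_lt hη _) (sgm_lt hη _)
  have hH1' : ∀ z : ℝ × ℝ, ContDiffAt ℝ 1 H (sgm η z.1, sgm η z.2) := fun z =>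
    hH1.contDiffAt (Metric.isOpen_ball.mem_nhds (hball z))
  have hinner : ContDiff ℝ 1 (fun z : ℝ × ℝ => (sgm η z.1, sgm η z.2)) :=
    ((sgm_smooth η).comp contDiff_fst).prodMk ((sgm_smooth η).comp contDiff_snd)
  have hJ1 : ContDiff ℝ 1 J := by
    refine ContDiff.prodMk (contDiff_const.add ((sgm_smooth η).comp contDiff_fst)) ?_
    rw [contDiff_iff_contDiffAt]
    intro z
    exact (hH1' z).comp z hinner.contDiffAt
  set φ : ℝ × ℝ → Pt := fun z => Th e k m (J z) with hφ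
  have hφ1 : ContDiff ℝ 1 φ := by
    rw [contDiff_iff_contDiffAt]
    intro z
    have h1 : ContDiffAt ℝ 1 (Th e k m) (J z) :=
      (Th_smooth (hUD (hJU z))).of_le (by exact_mod_cast le_top)
    exact h1.comp z hJ1.contDiffAt
  have hJinj : Function.Injective J := by
    intro z w h
    have h1 : q0.1 + sgm η z.1 = q0.1 + sgm η w.1 := congrArg Prod.fst h
    have h2 : sgm η z.1 = sgm η w.1 := by linarith
    have h3 : z.1 = w.1 := sgm_inj hη h2
    have h4 : H (sgm η z.1, sgm η z.2) = H (sgm η w.1, sgm η w.2) := congrArg Prod.snd h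
    rw [← h2] at h4
    have h5 := hH5 _ _ _ (sgm_lt hη _) (sgm_lt hη _) (sgm_lt hη _) h4
    exact Prod.ext h3 (sgm_inj hη h5)
  have hφinj : Function.Injective φ := by
    intro z w h
    apply hJinj
    refine Th_injOn (hUD (hJU z)) (hUD (hJU w)) h ?_
    have h1 := hJU z
    have h2 := hJU w
    rw [hU', Metric.mem_ball] at h1 h2
    have h3 : dist (J z) (J w) < 2 := by
      have := dist_triangle_right (J z) (J w) q0
      linarith
    have h4 : |(J z).2 - (J w).2| ≤ dist (J z) (J w) := by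
      rw [← Real.dist_eq]
      exact le_trans (le_max_right _ _) (le_of_eq (Prod.dist_eq).symm)
    have := Real.pi_gt_three
    linarith
  -- derivative of the inner map
  have hJd : ∀ z, ∃ L : (ℝ × ℝ) →L[ℝ] ℝ × ℝ, HasFDerivAt J L z ∧ ∃ d1 d2 hc : ℝ, 0 < d1 ∧
      0 < d2 ∧ 0 < hc ∧ L (1, 0) = d1 • ((1 : ℝ), μ (J z)) ∧ L (0, 1) = (0, hc * d2) := by
    intro z
    obtain ⟨d1, hd1, hD1⟩ := sgm_deriv hη z.1
    obtain ⟨d2, hd2, hD2⟩ := sgm_deriv hη z.2
    have hd := (hJ1.differentiable (by simp)).differentiableAt (x := z)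
    refine ⟨fderiv ℝ J z, hd.hasFDerivAt, d1, d2, fderiv ℝ H (sgm η z.1, sgm η z.2) (0, 1), hd1,
      hd2, hH4 _ _ (sgm_lt hη _) (sgm_lt hη _), ?_, ?_⟩
    · have h1 : HasDerivAt (fun s : ℝ => (s, z.2)) ((1 : ℝ), (0 : ℝ)) z.1 :=
        (hasDerivAt_id z.1).prodMk (hasDerivAt_const z.1 z.2)
      have h2 : HasDerivAt (fun s : ℝ => J (s, z.2)) (fderiv ℝ J z (1, 0)) z.1 :=
        hd.hasFDerivAt.comp_hasDerivAt z.1 h1
      have h3 : HasDerivAt (fun s : ℝ => q0.1 + sgm η s) d1 z.1 := by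
        simpa using hD1.const_add q0.1
      have h4 : HasDerivAt (fun s : ℝ => H (sgm η s, sgm η z.2)) (μ (J z) * d1) z.1 :=
        HasDerivAt.comp z.1 (hH3 _ _ (sgm_lt hη z.1) (sgm_lt hη z.2)).2 hD1
      have h5 := h2.unique (h3.prodMk h4)
      rw [h5]
      ext <;> simp [mul_comm]
    · have h1 : HasDerivAt (fun t : ℝ => (z.1, t)) ((0 : ℝ), (1 : ℝ)) z.2 :=
        (hasDerivAt_const z.2 z.1).prodMk (hasDerivAt_id z.2)
      have h2 : HasDerivAt (fun t : ℝ => J (z.1, t)) (fderiv ℝ J z (0, 1)) z.2 :=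
        hd.hasFDerivAt.comp_hasDerivAt z.2 h1
      have h3 : HasDerivAt (fun _ : ℝ => q0.1 + sgm η z.1) 0 z.2 := hasDerivAt_const _ _
      have h4 : HasDerivAt (fun t : ℝ => H (sgm η z.1, t))
          (fderiv ℝ H (sgm η z.1, sgm η z.2) (0, 1)) (sgm η z.2) := by
        have h5 : HasDerivAt (fun t : ℝ => (sgm η z.1, t)) ((0 : ℝ), (1 : ℝ)) (sgm η z.2) :=
          (hasDerivAt_const _ _).prodMk (hasDerivAt_id _)
        exact ((hH1' z).differentiableAt (by simp)).hasFDerivAt.comp_hasDerivAt _ h5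
      have h5 : HasDerivAt (fun t : ℝ => H (sgm η z.1, sgm η t))
          (fderiv ℝ H (sgm η z.1, sgm η z.2) (0, 1) * d2) z.2 := HasDerivAt.comp z.2 h4 hD2
      exact h2.unique (h3.prodMk h5)
  have hφd : ∀ z w, fderiv ℝ φ z w = fderiv ℝ (Th e k m) (J z) (fderiv ℝ J z w) := by
    intro z w
    have h1 := ((Th_smooth (e := e) (k := k) (m := m) (hUD (hJU z))).differentiableAt
      (by simp)).hasFDerivAt.comp z
        ((hJ1.differentiable (by simp)).differentiableAt (x := z)).hasFDerivAt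
    have h2 : fderiv ℝ φ z = (fderiv ℝ (Th e k m) (J z)).comp (fderiv ℝ J z) := h1.fderiv
    rw [h2]; rfl
  have hφimm : ∀ z, Function.Injective (fderiv ℝ φ z) := by
    intro z
    rw [injective_iff_map_eq_zero]
    intro w hw
    rw [hφd] at hw
    have h1 := Th_inj (e := e) (k := k) (m := m) (hUD (hJU z)) (hw.trans (map_zero _).symm)
    obtain ⟨L, hL, d1, d2, hc, hd1, hd2, hhc, e1, e2⟩ := hJd z
    rw [hL.fderiv] at h1
    have h3 : L w = w.1 • L (1, 0) + w.2 • L (0, 1) := by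
      rw [← map_smul, ← map_smul, ← map_add]
      congr 1
      ext <;> simp
    rw [h3, e1, e2] at h1
    have h4 := congrArg Prod.fst h1
    have h5 := congrArg Prod.snd h1
    simp only [Prod.fst_add, Prod.snd_add, Prod.smul_fst, Prod.smul_snd, smul_eq_mul,
      mul_one, mul_zero, add_zero, Prod.fst_zero, Prod.snd_zero] at h4 h5
    have h6 : w.1 = 0 := (mul_eq_zero.1 h4).resolve_right hd1.ne'
    rw [h6, zero_mul, zero_add] at h5
    have h7 : w.2 = 0 := (mul_eq_zero.1 h5).resolve_right (by positivity)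
    exact Prod.ext h6 h7
  refine ⟨φ, ⟨⟨hφ1, hφinj, hφimm, fun z => Th_mem (hUD (hJU z))⟩, ?_, ?_⟩, ?_⟩
  · -- canonical direction
    intro z
    have hqU := hJU z
    have hqD := hUD hqU
    have hqK := hUK hqU
    refine ⟨fderiv ℝ (Th e k m) (J z) (S (J z)), ?_, ?_, ?_⟩
    · exact isCan_of he hk c hqD (hN0 _ hqK) (hdot _ hqK) (hS2 _ hqU)
    · intro h
      have h1 := Th_inj (e := e) (k := k) (m := m) hqD (h.trans (map_zero _).symm)
      have h2 := hS3 _ hqU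
      rw [h1] at h2
      simp at h2
    · obtain ⟨L, hL, d1, d2, hc, hd1, hd2, hhc, e1, e2⟩ := hJd z
      have hpos := hS3 _ hqU
      refine ⟨d1 / (S (J z)).1, by positivity, ?_⟩
      rw [hφd, hL.fderiv, e1, map_smul, ← map_smul, ← map_smul]
      congr 1
      ext
      · simp only [Prod.smul_fst, smul_eq_mul, mul_one]
        field_simp
      · simp only [Prod.smul_snd, smul_eq_mul, hμdef]
        field_simp
  · -- saturation and smoothness
    intro t ht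
    obtain ⟨s1, hs1⟩ := ht
    set h : ℝ → ℝ := fun x => H (x - q0.1, sgm η t) with hh
    set a : ℝ := q0.1 - η with ha
    set b : ℝ := q0.1 + η with hb
    have hcurve : ∀ x ∈ Ioo a b, (x, h x) ∈ U' ∧ HasDerivAt h (μ (x, h x)) x := by
      intro x hx
      have h1 : |x - q0.1| < η := by
        rw [abs_lt]; constructor
        · linarith [hx.1]
        · linarith [hx.2]
      obtain ⟨h2, h3⟩ := hH3 (x - q0.1) (sgm η t) h1 (sgm_lt hη t)
      have e1 : q0.1 + (x - q0.1) = x := by ring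
      rw [e1] at h2 h3
      refine ⟨h2, ?_⟩
      exact h3.comp_sub_const x q0.1
    have hpt : ∀ s, φ (s, t) = Th e k m (q0.1 + sgm η s, h (q0.1 + sgm η s)) := by
      intro s
      have : q0.1 + sgm η s - q0.1 = sgm η s := by ring
      simp only [hφ, hJ, hh, this]
    have hIoo : ∀ s, q0.1 + sgm η s ∈ Ioo a b := by
      intro s
      have := abs_lt.1 (sgm_lt hη s)
      constructor
      · rw [ha]; linarith [this.1]
      · rw [hb]; linarith [this.2]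
    have hW1 : Psi e (q0.1 + sgm η s1) (h (q0.1 + sgm η s1)) ∈ W e k' := by
      rw [hpt] at hs1
      exact (Th_W (hUD (hcurve _ (hIoo s1)).1)).1 hs1
    set a1 : ℝ := (1 + c.a1) / 2 with ha1
    have h1a : 1 < a1 := by rw [ha1]; linarith [c.one_lt]
    have ha1c : a1 < c.a1 := by rw [ha1]; linarith [c.one_lt]
    have ha1V : a1 < V e := ha1c.trans (c.a1_lt_B.trans (B_lt_V he))
    have hsat := saturation he hk' (N0 := N0) hUD h1a ha1V hrate
      (fun N hN q hq hF => hclose N hN q hq (lt_of_le_of_lt hF ha1c)) hcurve (hIoo s1) hW1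
    refine ⟨fun s => ?_, ?_⟩
    · rw [hpt]
      exact (Th_W (hUD (hcurve _ (hIoo s)).1)).2 (hsat _ (hIoo s))
    · clear_value h
      have hsm : ContDiffOn ℝ ∞ h (Ioo a b) :=
        leaf_smooth he hk' Metric.isOpen_ball hUD
          (fun q hq => (hN0 q (hUK hq)).trans c.a1_lt_B) hμ hrate
          (fun N hN q hq hF => hclose N hN q hq (lt_of_le_of_lt hF c.one_lt)) hcurve hsat
      rw [contDiff_iff_contDiffAt]
      intro s
      have h1 : ContDiffAt ℝ ∞ (fun s => q0.1 + sgm η s) s :=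
        contDiffAt_const.add (sgm_smooth η).contDiffAt
      have h2 : ContDiffAt ℝ ∞ h (q0.1 + sgm η s) :=
        hsm.contDiffAt (isOpen_Ioo.mem_nhds (hIoo s))
      have h2' : ContDiffAt ℝ ∞ (fun s => h (q0.1 + sgm η s)) s :=
        ContDiffAt.comp (g := h) (f := fun s => q0.1 + sgm η s) s h2 h1
      have h3 : ContDiffAt ℝ ∞ (fun s => (q0.1 + sgm η s, h (q0.1 + sgm η s))) s :=
        h1.prodMk h2'
      have h4 : ContDiffAt ℝ ∞ (Th e k m) (q0.1 + sgm η s, h (q0.1 + sgm η s)) :=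
        Th_smooth (hUD (hcurve _ (hIoo s)).1)
      have h5 := h4.comp s h3
      refine h5.congr_of_eventuallyEq (Eventually.of_forall fun s' => hpt s')
  · show Th e k m (J 0) = p0
    have : J 0 = q0 := by
      simp only [hJ, Prod.fst_zero, Prod.snd_zero, sgm_zero]
      rw [hH2 0 (by simpa using hη)]
      ext <;> simp
    rw [this]; exact hTh0

/-- The atlas exists. -/
theorem local_theorem {e : ℝ} (he : 0 < e) {k : ℕ → ℕ} (hk : ∀ i, 1 ≤ k i) :
    ∃ A : Set (ℝ × ℝ → Pt), (∀ φ ∈ A, Chart0 e φ) ∧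
      (∀ φ ∈ A, ∀ ψ ∈ A, ∀ z w, φ z = ψ w →
        ∃ a : ℝ, fderiv ℝ ψ w (1, 0) = a • fderiv ℝ φ z (1, 0)) ∧
      (∀ p ∈ W e k, ∃ φ ∈ A, φ 0 = p) ∧
      (∀ φ ∈ A, ∀ c : ℝ, (∃ s, φ (s, c) ∈ W e k) →
        (∀ s, φ (s, c) ∈ W e k) ∧ ContDiff ℝ ∞ (fun s : ℝ => φ (s, c))) := by
  obtain ⟨c⟩ := exists_cut he
  refine ⟨{φ | Good e k c.χ φ}, fun φ hφ => hφ.1, fun φ hφ ψ hψ z w h => hφ.par he hψ h, ?_,
    fun φ hφ => hφ.2.2⟩
  intro p hp
  obtain ⟨φ, hφ, h0⟩ := exists_good he hk c hp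
  exact ⟨φ, hφ, h0⟩

end TM
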