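import Pool.Agent.Helper11.TM_AT
import Pool.Agent.Helper31.TM_LA
import Pool.Agent.Helper31.TM_MV
import Pool.Agent.Helper42.TM_C1
import Pool.Agent.Helper42.TM_CL
import Pool.Agent.Helper42.TM_GL
import Pool.Agent.Helper42.TM_IH
import Pool.Agent.Helper52.TM_AO
import Pool.Agent.Helper52.TM_TC
import Pool.Agent.Helper68.TM_ST
import Pool.Agent.Helper68.TM_UQ
import Pool.Agent.Helper75.TM_BG
import Pool.Agent.Helper75.TM_RC
import Pool.Agent.Helper80.TM_LL
import Pool.Agent.Helper80.TM_PS
import Pool.Agent.Helper84.TM_FB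
import Pool.Agent.Helper84.TM_PR
import Pool.Agent.Helper87.TM_BR
import Pool.Agent.Helper87.TM_PL2

/-! All first-batch modules for MP_fc8395_an. -/
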